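import Mathlib

section

namespace Pool.Agent.Lib.MP_209724_lc.QM

open MvPolynomial

open scoped IntermediateField.algebraAdjoinAdjoin in
private theorem cone_basis {K F : Type} [Field K] [Field F] [Algebra K F] {ι : Type} [Finite ι]
    (v : ι → F) : ∃ (d : ℕ) (u : Fin d → ι), AlgebraicIndependent K (v ∘ u) ∧
      (∀ i, IsAlgebraic (IntermediateField.adjoin K (Set.range (v ∘ u))) (v i)) := by
  classical
  have hne : {s : Set ι | AlgebraicIndepOn K v s}.Nonempty := by
    refine ⟨∅, ?_⟩
    have h1 : Function.Injective (algebraMap K F) := (algebraMap K F).injective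
    exact (algebraicIndependent_empty_type_iff (R := K) (A := F)
      (x := fun i : (∅ : Set ι) => v i)).2 h1
  obtain ⟨s, hs⟩ := (Set.toFinite {s : Set ι | AlgebraicIndepOn K v s}).exists_maximal hne
  have hsI : AlgebraicIndepOn K v s := hs.prop
  obtain ⟨d, ⟨e⟩⟩ := Finite.exists_equiv_fin s
  refine ⟨d, fun j => ((e.symm j : s) : ι), ?_, ?_⟩
  · have h1 : AlgebraicIndependent K (fun i : s => v i) := hsI
    have h2 := h1.comp e.symm e.symm.injective
    exact h2
  · have hr : Set.range (v ∘ fun j => ((e.symm j : s) : ι)) = v '' s := by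
      ext a
      constructor
      · rintro ⟨j, rfl⟩
        exact ⟨_, (e.symm j).2, rfl⟩
      · rintro ⟨i, hi, rfl⟩
        refine ⟨e ⟨i, hi⟩, ?_⟩
        simp
    rw [hr]
    intro i
    have h2 : IsAlgebraic (Algebra.adjoin K (v '' s)) (v i) := by
      by_cases hi : i ∈ s
      · exact isAlgebraic_algebraMap (⟨v i, Algebra.subset_adjoin ⟨i, hi, rfl⟩⟩ :
          Algebra.adjoin K (v '' s))
      · by_contra h3
        have h4 : AlgebraicIndepOn K v (insert i s) := hsI.insert h3
        have h5 : insert i s ⊆ s := hs.le_of_ge h4 (Set.subset_insert i s)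
        exact hi (h5 (Set.mem_insert i s))
    refine IsAlgebraic.extendScalars (S := IntermediateField.adjoin K (v '' s)) ?_ h2
    exact FaithfulSMul.algebraMap_injective _ _

/-- **The cylinder over the locus of a point.**

Proof. Let `q₁ = RingHom.ker (aeval v : MvPolynomial ι K →ₐ[K] F)`, `A = MvPolynomial ι K ⧸ q₁`, a domain, and
`p₀` the kernel of the `K`-algebra homomorphism `Φ : MvPolynomial (ι ⊕ κ) K → MvPolynomial κ A`,
`X (inl i) ↦ C (mk (X i))`, `X (inr k) ↦ X k` (`aeval (Sum.elim (fun i => C (Ideal.Quotient.mk q₁ (X i))) X)`).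
* `p₀` is prime (the kernel of a homomorphism to a domain).
* `rename Sum.inl g' ∈ p₀` if `aeval v g' = 0`: `Φ (rename inl g') = C (mk g')`.
* `p₀ ≤ ker (aeval (Sum.elim v w))`: `aeval (Sum.elim v w) = Ψ ∘ Φ`, where `Ψ : MvPolynomial κ A → F` is
  `eval₂Hom (Ideal.Quotient.lift q₁ (aeval v)) w`.
* Let `u : Fin d → ι` be such that `v ∘ u` is algebraically independent over `K` and all `v i` are algebraic over
  `K(range (v ∘ u))` (`exists_isTranscendenceBasis_subset` or similar, enumerated by `Fin d`; or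
  `SC.exists_coord_basis`). Then the family `Sum.elim (inl ∘ u) inr : Fin d ⊕ κ → ι ⊕ κ` gives variables which are
  algebraically independent modulo `p₀`: a polynomial relation is mapped by `Φ` to a relation in `MvPolynomial κ A`
  whose coefficients are polynomials in the `mk (X (u i))`, which are algebraically independent over `K` (as their
  images `v (u i)` in `F` are).
  Enumerate `Fin d ⊕ κ` by `Fin (d + Nat.card κ)`. -/
theorem exists_cylinder {K F : Type} [Field K] [Field F] [Algebra K F] {ι κ : Type} [Finite ι]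
    [Finite κ] (v : ι → F) :
    ∃ (p₀ : Ideal (MvPolynomial (ι ⊕ κ) K)) (d : ℕ) (u : Fin d → ι), p₀.IsPrime ∧
      (∀ w : κ → F, p₀ ≤ RingHom.ker (aeval (Sum.elim v w) : MvPolynomial (ι ⊕ κ) K →ₐ[K] F)) ∧
      (∀ g : MvPolynomial ι K, aeval v g = 0 → rename Sum.inl g ∈ p₀) ∧
      (AlgebraicIndependent K (v ∘ u)) ∧
      (∀ i, IsAlgebraic (IntermediateField.adjoin K (Set.range (v ∘ u))) (v i)) ∧
      ∃ s : Fin (d + Nat.card κ) → ι ⊕ κ,
        AlgebraicIndependent K fun i => Ideal.Quotient.mk p₀ (X (s i)) := by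
  classical
  obtain ⟨d, u, hu, hualg⟩ := cone_basis (K := K) v
  let av : MvPolynomial ι K →ₐ[K] F := aeval v
  let q₁ : Ideal (MvPolynomial ι K) := RingHom.ker av
  have hq₁ : q₁.IsPrime := RingHom.ker_isPrime av
  let ψ : (MvPolynomial ι K ⧸ q₁) →ₐ[K] F := Ideal.kerLiftAlg av
  have hψ : ∀ g, ψ (Ideal.Quotient.mk q₁ g) = aeval v g := fun g => Ideal.kerLiftAlg_mk av g
  let Φ : MvPolynomial (ι ⊕ κ) K →ₐ[K] MvPolynomial κ (MvPolynomial ι K ⧸ q₁) :=
    aeval (Sum.elim (fun i => C (Ideal.Quotient.mk q₁ (X i))) X)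
  have hp₀ : (RingHom.ker Φ).IsPrime := RingHom.ker_isPrime Φ
  refine ⟨RingHom.ker Φ, d, u, hp₀, ?_, ?_, hu, hualg, ?_⟩
  · intro w f hf
    rw [RingHom.mem_ker] at hf ⊢
    have key : ((eval₂Hom (ψ : (MvPolynomial ι K ⧸ q₁) →+* F) w).comp
        (Φ : MvPolynomial (ι ⊕ κ) K →+* MvPolynomial κ (MvPolynomial ι K ⧸ q₁))) =
        ((aeval (Sum.elim v w) : MvPolynomial (ι ⊕ κ) K →ₐ[K] F) :
          MvPolynomial (ι ⊕ κ) K →+* F) := by
      apply MvPolynomial.ringHom_ext
      · intro r
        have h1 : Φ (C r) = C (algebraMap K (MvPolynomial ι K ⧸ q₁) r) := by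
          have := Φ.commutes r
          rw [MvPolynomial.algebraMap_eq] at this
          rw [this]
          rfl
        simp only [RingHom.comp_apply, RingHom.coe_coe, h1, coe_eval₂Hom, eval₂_C,
          AlgHom.commutes, aeval_C]
      · intro j
        rcases j with j | j
        · simp only [RingHom.comp_apply, RingHom.coe_coe, Φ, aeval_X, Sum.elim_inl,
            coe_eval₂Hom, eval₂_C, hψ]
        · simp only [RingHom.comp_apply, RingHom.coe_coe, Φ, aeval_X, Sum.elim_inr,
            coe_eval₂Hom, eval₂_X]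
    have h2 := congrArg (fun φ : MvPolynomial (ι ⊕ κ) K →+* F => φ f) key
    simp only [RingHom.comp_apply, RingHom.coe_coe] at h2
    rw [← h2, hf, map_zero]
  · intro g hg
    rw [RingHom.mem_ker]
    have key : (Φ.comp (rename Sum.inl) : MvPolynomial ι K →ₐ[K] _) =
        ((Algebra.ofId (MvPolynomial ι K ⧸ q₁)
          (MvPolynomial κ (MvPolynomial ι K ⧸ q₁))).restrictScalars K).comp
          (Ideal.Quotient.mkₐ K q₁) := by
      apply MvPolynomial.algHom_ext
      intro i
      simp only [AlgHom.comp_apply, rename_X, Φ, aeval_X, Sum.elim_inl]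
      rfl
    have h2 := congrArg (fun φ : MvPolynomial ι K →ₐ[K] _ => φ g) key
    simp only [AlgHom.comp_apply] at h2
    rw [h2]
    have h3 : Ideal.Quotient.mkₐ K q₁ g = 0 := by
      rw [Ideal.Quotient.mkₐ_eq_mk]
      exact Ideal.Quotient.eq_zero_iff_mem.2 (by rw [RingHom.mem_ker]; exact hg)
    rw [h3, map_zero]
  · -- independent variables
    let φ : MvPolynomial (Fin d) K →ₐ[K] (MvPolynomial ι K ⧸ q₁) :=
      aeval (fun j => Ideal.Quotient.mk q₁ (X (u j)))
    have hφ : Function.Injective φ := by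
      have h1 : (ψ.comp φ) = aeval (v ∘ u) := by
        apply MvPolynomial.algHom_ext
        intro j
        simp only [AlgHom.comp_apply, φ, aeval_X, hψ, Function.comp_apply]
      have h2 : Function.Injective (ψ.comp φ) := by rw [h1]; exact hu
      intro a b hab
      apply h2
      simp only [AlgHom.comp_apply, hab]
    let t : κ ⊕ Fin d → ι ⊕ κ := Sum.elim Sum.inr (Sum.inl ∘ u)
    have ht : AlgebraicIndependent K (fun j => Φ (X (t j))) := by
      have h1 : (aeval (fun j => Φ (X (t j))) : MvPolynomial (κ ⊕ Fin d) K →ₐ[K] _) =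
          (mapAlgHom φ).comp (sumAlgEquiv K κ (Fin d)).toAlgHom := by
        apply MvPolynomial.algHom_ext
        intro j
        rcases j with j | j
        · have h4 : (sumAlgEquiv K κ (Fin d)).toAlgHom (X (Sum.inl j)) = X j :=
            sumAlgEquiv_X_inl _ _ _ j
          simp only [aeval_X, t, Sum.elim_inl, Φ, Sum.elim_inr, AlgHom.comp_apply]
          rw [h4]
          exact (map_X _ _).symm
        · have h4 : (sumAlgEquiv K κ (Fin d)).toAlgHom (X (Sum.inr j)) = C (X j) :=
            sumAlgEquiv_X_inr _ _ _ j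
          simp only [aeval_X, t, Sum.elim_inl, Φ, Sum.elim_inr, AlgHom.comp_apply,
            Function.comp_apply]
          rw [h4]
          refine Eq.trans ?_ (map_C _ _).symm
          congr 1
          simp only [φ, RingHom.coe_coe, aeval_X]
      have h2 : Function.Injective
          ((mapAlgHom φ).comp (sumAlgEquiv K κ (Fin d)).toAlgHom :
            MvPolynomial (κ ⊕ Fin d) K →ₐ[K] _) := by
        have hφ' : Function.Injective
            (φ : MvPolynomial (Fin d) K →+* (MvPolynomial ι K ⧸ q₁)) := hφ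
        have h3 : Function.Injective
            (map (φ : MvPolynomial (Fin d) K →+* (MvPolynomial ι K ⧸ q₁)) :
            MvPolynomial κ (MvPolynomial (Fin d) K) →+* MvPolynomial κ (MvPolynomial ι K ⧸ q₁)) :=
          map_injective (φ : MvPolynomial (Fin d) K →+* (MvPolynomial ι K ⧸ q₁)) hφ'
        intro a b hab
        apply (sumAlgEquiv K κ (Fin d)).injective
        exact h3 hab
      unfold AlgebraicIndependent
      rw [h1]
      exact h2
    have ht2 : AlgebraicIndependent K
        (fun j => Ideal.Quotient.mk (RingHom.ker Φ) (X (t j) : MvPolynomial (ι ⊕ κ) K)) := by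
      rw [algebraicIndependent_iff] at ht ⊢
      intro p hp
      apply ht
      have h2 : (fun j => Φ (X (t j))) = ((Ideal.kerLiftAlg Φ) ∘ fun j =>
          Ideal.Quotient.mk (RingHom.ker Φ) (X (t j) : MvPolynomial (ι ⊕ κ) K)) := by
        funext j
        exact (Ideal.kerLiftAlg_mk Φ _).symm
      rw [h2]
      have h3 : (aeval ((Ideal.kerLiftAlg Φ) ∘ fun j =>
          Ideal.Quotient.mk (RingHom.ker Φ) (X (t j) : MvPolynomial (ι ⊕ κ) K)) :
          MvPolynomial (κ ⊕ Fin d) K →ₐ[K] _) = (Ideal.kerLiftAlg Φ).comp (aeval (fun j =>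
          Ideal.Quotient.mk (RingHom.ker Φ) (X (t j) : MvPolynomial (ι ⊕ κ) K))) := by
        apply MvPolynomial.algHom_ext
        intro j
        simp only [aeval_X, AlgHom.comp_apply, Function.comp_apply]
      rw [h3, AlgHom.comp_apply]
      refine (congrArg (Ideal.kerLiftAlg Φ) hp).trans ?_
      exact map_zero (Ideal.kerLiftAlg Φ)
    let e : Fin (d + Nat.card κ) ≃ κ ⊕ Fin d :=
      (finSumFinEquiv.symm.trans (Equiv.sumComm _ _)).trans
        (Equiv.sumCongr (Finite.equivFin κ).symm (Equiv.refl _))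
    have h5 := ht2.comp e e.injective
    exact ⟨fun i => t (e i), h5⟩

end Pool.Agent.Lib.MP_209724_lc.QM
end

section

/-!
# Sets defined by exponential equations with few quantifiers or few equations: definitions

`K` is a countable algebraically closed subfield of `ℂ`; `UU K z`: both `z` and `exp z` are in `K`.
`Good K`: the relative form of Ax's theorem holds over `K`. `Pair K σ`: `σ` is an automorphism of the
field `ℂ`, `K` and `σ K` are good and `σ` is compatible with `exp` on `K` up to torsion. `Place Ω`: a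
homomorphism from a subring of `Ω` to `ℂ` which cannot be extended by inverses or integral elements.
-/

namespace Pool.Agent.Lib.MP_209724_lc.QM

/-- Both `z` and `exp z` are in `K`. -/
def UU (K : Subfield ℂ) (z : ℂ) : Prop := z ∈ K ∧ Complex.exp z ∈ K

/-- The values of `exp` at elements which are linearly independent modulo `UU K` have no unexpected
relations over `K`. -/
structure Good (K : Subfield ℂ) : Prop where
  countable : (K : Set ℂ).Countable
  closed : ∀ z : ℂ, IsAlgebraic K z → z ∈ K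
  period : 2 * Real.pi * Complex.I ∈ K
  ax : ∀ (n : ℕ) (v : Fin n → ℂ), (∀ m : Fin n → ℤ, UU K (∑ i, (m i : ℂ) * v i) → m = 0) →
    ∃ s : Fin n → ℂ, AlgebraicIndependent K s ∧
      ∀ j, s j ∈ Set.range v ∪ Set.range fun i => Complex.exp (v i)

/-- `σ` is compatible with `exp` on `K`, up to torsion. -/
structure Pair (K : Subfield ℂ) (σ : ℂ ≃+* ℂ) : Prop where
  good : Good K
  good' : Good (K.map (σ : ℂ →+* ℂ))
  iff : ∀ z ∈ K, (Complex.exp z ∈ K ↔ Complex.exp (σ z) ∈ K.map (σ : ℂ →+* ℂ))
  tor : ∀ z : ℂ, UU K z → ∃ N : ℕ, 0 < N ∧ σ (Complex.exp (N * z)) = Complex.exp (N * σ z)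

/-- `K₁` is algebraically closed in `F`, contains `K` and `p`, and is algebraic over `K(p)`. -/
structure IsExt {F : Type} [Field F] (K K₁ : Subfield F) (p : F) : Prop where
  le : K ≤ K₁
  mem : p ∈ K₁
  closed : ∀ x : F, IsAlgebraic K₁ x → x ∈ K₁
  alg : ∀ x ∈ K₁, IsAlgebraic (IntermediateField.adjoin K {p}) x

/-- A homomorphism from a subring of `Ω` to `ℂ` which is defined at the inverses of the elements with
nonzero value and at the integral elements. -/
structure Place (Ω : Type) [Field Ω] where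
  /-- the subring -/
  B : Subring Ω
  /-- the homomorphism -/
  ψ : B →+* ℂ
  loc : ∀ x : B, ψ x ≠ 0 → (x : Ω)⁻¹ ∈ B
  int : ∀ x : Ω, IsIntegral B x → x ∈ B

/-- The restriction of a place to a subfield. -/
def Place.res {Ω : Type} [Field Ω] (P : Place Ω) (L : Subfield Ω) (h : L.toSubring ≤ P.B) :
    L →+* ℂ :=
  P.ψ.comp (Subring.inclusion h)

/-- There is a homomorphism `χ` from a subring of `Ω` to `ℂ`, equal to `τ` on `L`, with
`χ (η j) = exp (χ (ξ j))`, `η j` being units of the subring. -/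
def Sol {Ω : Type} [Field Ω] (L : Subfield Ω) (τ : L →+* ℂ) {t : ℕ} (ξ η : Fin t → Ω) : Prop :=
  ∃ (D : Subring Ω) (χ : D →+* ℂ) (hL : L.toSubring ≤ D),
    (∀ c : L, χ (Subring.inclusion hL c) = τ c) ∧
      ∀ j, ∃ (h1 : ξ j ∈ D) (h2 : η j ∈ D), (η j)⁻¹ ∈ D ∧
        χ ⟨η j, h2⟩ = Complex.exp (χ ⟨ξ j, h1⟩)

/-- The family `ξ, η` contains `k` elements which are algebraically independent over `L`, where `k` is at
least `2 t - 3` (codimension at most three) or at least `d + t - 1`, `d` being an upper bound for the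
transcendence degree of `L(ξ)` over `L` (fibres of codimension at most one). -/
def Few {Ω : Type} [Field Ω] (L : Subfield Ω) {t : ℕ} (ξ η : Fin t → Ω) : Prop :=
  ∃ k : ℕ, (∃ s : Fin k → Ω, AlgebraicIndependent L s ∧ ∀ i, s i ∈ Set.range ξ ∪ Set.range η) ∧
    (2 * t ≤ k + 3 ∨ ∃ (d : ℕ) (u : Fin d → Ω),
      (∀ j, IsAlgebraic (IntermediateField.adjoin L (Set.range u)) (ξ j)) ∧ d + t ≤ k + 1)

/-- The statement for `t` variables: places with values in `ℂ` and independence over `UU` of the values of the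
`ξ j` give a homomorphism over `σ`. -/
def P (t : ℕ) : Prop :=
  ∀ (Ω : Type) [Field Ω] [IsAlgClosed Ω] (V : Place Ω) (L : Subfield Ω)
    (hL : L.toSubring ≤ V.B), (∀ x : Ω, IsAlgebraic L x → x ∈ L) → ∀ σ : ℂ ≃+* ℂ,
    Pair (V.res L hL).fieldRange σ → ∀ ξ η : Fin t → V.B,
    (∀ j, V.ψ (η j) = Complex.exp (V.ψ (ξ j))) →
    (∀ m : Fin t → ℤ, UU (V.res L hL).fieldRange (∑ j, (m j : ℂ) * V.ψ (ξ j)) → m = 0) →
    Few L (fun j => (ξ j : Ω)) (fun j => (η j : Ω)) →
    Sol L ((σ : ℂ →+* ℂ).comp (V.res L hL)) (fun j => (ξ j : Ω)) fun j => (η j : Ω)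

end Pool.Agent.Lib.MP_209724_lc.QM
end

section

namespace Pool.Agent.Lib.MP_209724_lc.QM

open MvPolynomial

/-- Prime ideals of height at most one in a polynomial ring. -/
private theorem kr_poly {K : Type} [Field K] {n : ℕ} (P : Ideal (MvPolynomial (Fin (n + 1)) K)) [hPp : P.IsPrime]
    (hP : P.height ≤ 1) :
    ∃ i : Fin (n + 1), ∀ F : MvPolynomial (Fin n) K, rename i.succAbove F ∈ P → F = 0 := by
  by_cases hbot : P = ⊥
  · refine ⟨0, fun F hF => ?_⟩
    rw [hbot, Ideal.mem_bot] at hF
    exact (rename_injective _ (Fin.succAbove_right_injective)) (by rw [hF, map_zero])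
  · have h1 : P.height = 1 := by
      refine le_antisymm hP ?_
      rw [Order.one_le_iff_ne_zero]
      simpa using hbot
    obtain ⟨π, hπP, hπ⟩ := Ideal.IsPrime.exists_mem_prime_of_ne_bot hPp hbot
    have hspan : P = Ideal.span {π} := P.eq_span_singleton_of_height_eq_one h1 hπP hπ
    obtain ⟨i, hi⟩ : ∃ i, π.degreeOf i ≠ 0 := by
      by_contra hcon
      push Not at hcon
      apply hπ.not_isUnit
      have hv : π.vars = ∅ := by
        ext j
        simp [mem_vars_iff_degreeOf_ne_zero, hcon j]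
      rw [vars_eq_empty_iff_eq_C] at hv
      have hc : π.coeff 0 ≠ 0 := by
        intro h0
        rw [h0, C_0] at hv
        exact hπ.ne_zero hv
      rw [hv]
      exact (isUnit_iff_ne_zero.mpr hc).map C
    refine ⟨i, fun F hF => ?_⟩
    by_contra hF0
    rw [hspan, Ideal.mem_span_singleton] at hF
    obtain ⟨h, hh⟩ := hF
    have hne : rename i.succAbove F ≠ 0 := fun h0 =>
      hF0 ((rename_injective _ (Fin.succAbove_right_injective)) (by rw [h0, map_zero]))
    have hh0 : h ≠ 0 := by
      rintro rfl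
      rw [mul_zero] at hh
      exact hne hh
    have hdeg : (rename i.succAbove F).degreeOf i = π.degreeOf i + h.degreeOf i := by
      rw [hh, degreeOf_mul_eq hπ.ne_zero hh0]
    have hz : (rename i.succAbove F).degreeOf i = 0 := by
      by_contra hm
      rw [← ne_eq, ← mem_vars_iff_degreeOf_ne_zero] at hm
      have := vars_rename i.succAbove F hm
      simp at this
    omega

/-- The dimension of a hypersurface section of an affine variety. -/
private theorem kr_dim {K A : Type} [Field K] [CommRing A] [IsDomain A] [Algebra K A]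
    [Algebra.FiniteType K A] (g : A) (P : Ideal A) (hP : P ∈ (Ideal.span {g}).minimalPrimes) {d : ℕ}
    (s : Fin (d + 1) → A) (hs : AlgebraicIndependent K s) :
    ∃ t : Fin d → A, AlgebraicIndependent K (fun i => Ideal.Quotient.mk P (t i)) := by
  obtain ⟨n, f, hinj, hint⟩ := exists_integral_inj_algHom_of_fg K A
  let : Algebra (MvPolynomial (Fin n) K) A := f.toRingHom.toAlgebra
  have : IsScalarTower K (MvPolynomial (Fin n) K) A :=
    IsScalarTower.of_algebraMap_eq fun x => (f.commutes x).symm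
  have : FaithfulSMul (MvPolynomial (Fin n) K) A := (faithfulSMul_iff_algebraMap_injective _ _).mpr hinj
  have : Algebra.IsIntegral (MvPolynomial (Fin n) K) A := ⟨hint⟩
  have : IsNoetherianRing A := Algebra.FiniteType.isNoetherianRing K A
  have hPp : P.IsPrime := hP.isPrime
  have h1 : P.height ≤ 1 := Ideal.height_le_one_of_isPrincipal_of_mem_minimalPrimes _ P hP
  have h2 : (P.under (MvPolynomial (Fin n) K)).height ≤ 1 := by
    refine le_trans ?_ h1
    rw [Ideal.height_eq_height_add_of_liesOver_of_hasGoingDown (P.under (MvPolynomial (Fin n) K)) P]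
    exact le_self_add
  have htr : Algebra.trdeg K A = n := by
    rw [← trdeg_add_eq K (MvPolynomial (Fin n) K) (A := A), MvPolynomial.trdeg_of_isDomain,
      trdeg_eq_zero]
    simp
  have hn : d + 1 ≤ n := by
    have := hs.cardinalMk_le_trdeg
    rw [htr] at this
    simpa using this
  obtain ⟨m, rfl⟩ : ∃ m, n = m + 1 := ⟨n - 1, by omega⟩
  obtain ⟨i, hi⟩ := kr_poly (P.under (MvPolynomial (Fin (m + 1)) K)) h2
  have h4 : AlgebraicIndependent K
      (fun j : Fin m => Ideal.Quotient.mk P (f (X (i.succAbove j)))) := by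
    rw [algebraicIndependent_iff]
    intro F hF
    apply hi F
    have h5 : aeval (fun j : Fin m => Ideal.Quotient.mk P (f (X (i.succAbove j)))) F =
        Ideal.Quotient.mk P (f (rename i.succAbove F)) := by
      have : (aeval (fun j : Fin m => Ideal.Quotient.mk P (f (X (i.succAbove j))))) =
        ((Ideal.Quotient.mkₐ K P).comp f).comp (rename i.succAbove) := by
        apply algHom_ext
        intro j
        simp
      rw [this]
      rfl
    rw [hF] at h5
    exact (Ideal.Quotient.eq_zero_iff_mem (I := P)).mp h5.symm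
  exact ⟨fun j => f (X (i.succAbove (Fin.castLE (by omega) j))),
    h4.comp (Fin.castLE (by omega)) (Fin.castLE_injective (by omega))⟩

/-- The trace of a component of a hypersurface section is at most a hypersurface.

Proof. Let `A = MvPolynomial σ K ⧸ p₀`, a finitely generated `K`-domain, `g ≠ 0` the image in `A`. By Noether
normalisation (`exists_integral_inj_algHom_of_fg` or similar) `A` is integral over a subring `B ≅ MvPolynomial (Fin d) K`,
`d = trdeg A`. Let `p` be a minimal prime over `(g)` contained in the image of `q` (`Ideal.exists_minimalPrimes_le`);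
its height is at most one (Krull: `Ideal.height_le_one_of_isPrincipal_of_mem_minimalPrimes`). `B` is integrally
closed, so `A` has going down over `B` (`Mathlib/RingTheory/IntegralClosure/GoingDown.lean`) and
`height (p ∩ B) ≤ height p ≤ 1`. If `p ∩ B ≠ 0` it contains a prime element `π` of the UFD `B`, and
`p ∩ B = (π)` because the height is one. In `B / (π)` there are `d - 1` algebraically independent elements (`π`
contains some variable; the other variables are algebraically independent modulo `π`), and `B / (p ∩ B)` embeds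
into `A / p`. So `A / p` has transcendence degree at least `d - 1`. The coordinates generate `A / p`, so `d - 1` of
them are algebraically independent (exchange; `AlgebraicIndependent.matroid`, or `SC.exists_coord_basis`). -/
theorem exists_component_one {K : Type} [Field K] {σ : Type} [Finite σ] (p₀ q : Ideal (MvPolynomial σ K))
    [p₀.IsPrime] [q.IsPrime] (hpq : p₀ ≤ q) (g : MvPolynomial σ K) (hg : g ∈ q) {d : ℕ}
    (h : ∃ s : Fin (d + 1) → σ, AlgebraicIndependent K fun i => Ideal.Quotient.mk p₀ (X (s i))) :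
    ∃ p : Ideal (MvPolynomial σ K), p.IsPrime ∧ p₀ ≤ p ∧ p ≤ q ∧ g ∈ p ∧
      ∃ s : Fin d → σ, AlgebraicIndependent K fun i => Ideal.Quotient.mk p (X (s i)) := by
  obtain ⟨s, hs⟩ := h
  have hqp : (q.map (Ideal.Quotient.mk p₀)).IsPrime :=
    Ideal.map_isPrime_of_surjective Ideal.Quotient.mk_surjective (by rw [Ideal.mk_ker]; exact hpq)
  have hgq : Ideal.span {Ideal.Quotient.mk p₀ g} ≤ q.map (Ideal.Quotient.mk p₀) := by
    rw [Ideal.span_singleton_le_iff_mem]
    exact Ideal.mem_map_of_mem _ hg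
  obtain ⟨P, hP, hPq⟩ := Ideal.exists_minimalPrimes_le hgq
  have hPp : P.IsPrime := hP.isPrime
  obtain ⟨t, ht⟩ := kr_dim _ P hP _ hs
  have hgP : Ideal.Quotient.mk p₀ g ∈ P := hP.1.2 (Ideal.mem_span_singleton_self _)
  refine ⟨P.comap (Ideal.Quotient.mk p₀), inferInstance, ?_, ?_, hgP, ?_⟩
  · intro x hx
    rw [Ideal.mem_comap, Ideal.Quotient.eq_zero_iff_mem.mpr hx]
    exact P.zero_mem
  · refine (Ideal.comap_mono hPq).trans ?_
    rw [Ideal.comap_map_of_surjective _ Ideal.Quotient.mk_surjective]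
    refine sup_le le_rfl ?_
    intro x hx
    apply hpq
    rw [← Ideal.Quotient.eq_zero_iff_mem]
    simpa using hx
  · set p := P.comap (Ideal.Quotient.mk p₀) with hp
    have : p.IsPrime := inferInstance
    choose T hT using fun i => Ideal.Quotient.mk_surjective (t i)
    have h1 : AlgebraicIndependent K (fun i => Ideal.Quotient.mk p (T i)) := by
      rw [algebraicIndependent_iff] at ht ⊢
      intro F hF
      apply ht F
      have e1 : aeval (fun i => Ideal.Quotient.mk p (T i)) F = Ideal.Quotient.mk p (aeval T F) := by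
        have : aeval (fun i => Ideal.Quotient.mk p (T i)) = (Ideal.Quotient.mkₐ K p).comp (aeval T) := by
          apply algHom_ext
          intro j
          simp
        rw [this]
        rfl
      have e2 : aeval (fun i => Ideal.Quotient.mk P (t i)) F =
          Ideal.Quotient.mk P (Ideal.Quotient.mk p₀ (aeval T F)) := by
        have : aeval (fun i => Ideal.Quotient.mk P (t i)) =
            ((Ideal.Quotient.mkₐ K P).comp (Ideal.Quotient.mkₐ K p₀)).comp (aeval T) := by
          apply algHom_ext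
          intro j
          simp [hT]
        rw [this]
        rfl
      rw [e1, Ideal.Quotient.eq_zero_iff_mem] at hF
      rw [e2, Ideal.Quotient.eq_zero_iff_mem]
      exact hF
    have h2 : (d : Cardinal) ≤ Algebra.trdeg K (MvPolynomial σ K ⧸ p) := by
      simpa using h1.cardinalMk_le_trdeg
    have htop : Algebra.adjoin K (Set.range fun i : σ => Ideal.Quotient.mk p (X i)) = ⊤ := by
      have e3 : (Set.range fun i : σ => Ideal.Quotient.mk p (X i)) =
          (Ideal.Quotient.mkₐ K p) '' (Set.range X) := by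
        rw [← Set.range_comp]
        rfl
      rw [e3, ← AlgHom.map_adjoin, MvPolynomial.adjoin_range_X, Algebra.map_top,
        AlgHom.range_eq_top]
      exact Ideal.Quotient.mkₐ_surjective K p
    have halg : Algebra.IsAlgebraic
        (Algebra.adjoin K (Set.range fun i : σ => Ideal.Quotient.mk p (X i))) (MvPolynomial σ K ⧸ p) := by
      constructor
      intro a
      have ha : a ∈ Algebra.adjoin K (Set.range fun i : σ => Ideal.Quotient.mk p (X i)) := by
        rw [htop]; exact Algebra.mem_top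
      exact isAlgebraic_algebraMap
        (⟨a, ha⟩ : Algebra.adjoin K (Set.range fun i : σ => Ideal.Quotient.mk p (X i)))
    obtain ⟨B, hB, hbas⟩ := exists_isTranscendenceBasis_subset (R := K) (A := MvPolynomial σ K ⧸ p)
      (Set.range fun i : σ => Ideal.Quotient.mk p (X i))
    have hcard : (d : Cardinal) ≤ Cardinal.mk B := by
      rw [hbas.cardinalMk_eq_trdeg]; exact h2
    rw [← Cardinal.mk_fin, Cardinal.le_def] at hcard
    obtain ⟨e⟩ := hcard
    choose u hu using fun b : B => hB b.2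
    refine ⟨fun i => u (e i), ?_⟩
    have h6 := hbas.1.comp e e.injective
    have h7 : (fun i => Ideal.Quotient.mk p (X (u (e i)))) = ((↑) : B → MvPolynomial σ K ⧸ p) ∘ e := by
      funext i
      exact hu (e i)
    rw [h7]
    exact h6

/-- **Components.** Proof. Induction over `G` (`Finset.induction_on`, for all `p₀`, `N`) with `exists_component_one`.
For `insert g G`: if `N - (G.card + 1) = N' > 0` or `N - G.card = N' + 1`, take `p` for `G` and then
`exists_component_one` for `p`, `q`, `g`; if `N ≤ G.card` the last claim is about the empty family, and `p = q` will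
do (the empty family is algebraically independent modulo a prime ideal). -/
theorem exists_component {K : Type} [Field K] {σ : Type} [Finite σ]
    (p₀ q : Ideal (MvPolynomial σ K)) [p₀.IsPrime] [q.IsPrime] (hpq : p₀ ≤ q)
    (G : Finset (MvPolynomial σ K)) (hG : ∀ g ∈ G, g ∈ q) {N : ℕ}
    (h : ∃ s : Fin N → σ, AlgebraicIndependent K fun i => Ideal.Quotient.mk p₀ (X (s i))) :
    ∃ p : Ideal (MvPolynomial σ K), p.IsPrime ∧ p₀ ≤ p ∧ p ≤ q ∧ (∀ g ∈ G, g ∈ p) ∧
      ∃ s : Fin (N - G.card) → σ,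
        AlgebraicIndependent K fun i => Ideal.Quotient.mk p (X (s i)) := by
  classical
  induction G using Finset.induction_on with
  | empty => exact ⟨p₀, inferInstance, le_rfl, hpq, by simp, by simpa using h⟩
  | insert g G hg ih =>
    obtain ⟨p, hp, h0, h1, h2, h3⟩ := ih fun g' hg' => hG g' (Finset.mem_insert_of_mem hg')
    have := hp
    rw [Finset.card_insert_of_notMem hg]
    rcases Nat.eq_zero_or_pos (N - G.card) with hz | hpos
    · refine ⟨q, inferInstance, hpq, le_rfl, hG, ?_⟩
      have hz' : N - (G.card + 1) = 0 := by omega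
      rw [hz']
      refine ⟨Fin.elim0, ?_⟩
      exact algebraicIndependent_empty_type_iff.mpr (algebraMap K (MvPolynomial σ K ⧸ q)).injective
    · obtain ⟨d, hd⟩ : ∃ d, N - G.card = d + 1 := ⟨N - G.card - 1, by omega⟩
      have hd' : N - (G.card + 1) = d := by omega
      rw [hd] at h3
      obtain ⟨p', hp', k1, k2, k3, k4⟩ :=
        exists_component_one p q h1 g (hG g (Finset.mem_insert_self _ _)) h3
      rw [hd']
      refine ⟨p', hp', h0.trans k1, k2, ?_, k4⟩
      intro g' hg'
      rcases Finset.mem_insert.mp hg' with rfl | hg'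
      · exact k3
      · exact k1 (h2 g' hg')

end Pool.Agent.Lib.MP_209724_lc.QM
end

section

namespace Pool.Agent.Lib.MP_209724_lc.QM

open MvPolynomial

/-- **Solutions in the algebraic closure.**

Proof. The ideal `J` generated by `S` is proper (`x` is a common zero in the algebra `ℂ` over `E`); let `M ⊇ J` be a
maximal ideal. `MvPolynomial ι E ⧸ M` is a field which is a finitely generated `E`-algebra, so it is finite, hence
algebraic, over `E` (Zariski's lemma, `finite_of_finite_type_of_isJacobsonRing`), and it embeds into `ℂ` over `E`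
(`IsAlgClosed.lift`). Let `z i` be the image of `X i`. -/
theorem exists_alg_point {E : Type} [Field E] [Algebra E ℂ] {ι : Type} [Finite ι]
    (S : Set (MvPolynomial ι E)) (x : ι → ℂ) (hx : ∀ f ∈ S, aeval x f = 0) :
    ∃ z : ι → ℂ, (∀ i, IsAlgebraic E (z i)) ∧ ∀ f ∈ S, aeval z f = 0 := by
  classical
  have hJ : Ideal.span S ≠ ⊤ := by
    intro h
    have h1 : (1 : MvPolynomial ι E) ∈ Ideal.span S := by
      rw [h]
      trivial
    have h2 : Ideal.span S ≤ RingHom.ker (aeval x : MvPolynomial ι E →ₐ[E] ℂ) := by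
      rw [Ideal.span_le]
      intro f hf
      exact hx f hf
    have h3 : (aeval x : MvPolynomial ι E →ₐ[E] ℂ) 1 = 0 := h2 h1
    rw [map_one] at h3
    exact one_ne_zero h3
  obtain ⟨M, hM, hJM⟩ := Ideal.exists_le_maximal _ hJ
  let : Field (MvPolynomial ι E ⧸ M) := Ideal.Quotient.field M
  have : Module.Finite E (MvPolynomial ι E ⧸ M) :=
    finite_of_finite_type_of_isJacobsonRing E (MvPolynomial ι E ⧸ M)
  have : Algebra.IsAlgebraic E (MvPolynomial ι E ⧸ M) := Algebra.IsAlgebraic.of_finite E _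
  let φ : (MvPolynomial ι E ⧸ M) →ₐ[E] ℂ := IsAlgClosed.lift
  refine ⟨fun i => φ (Ideal.Quotient.mkₐ E M (X i)), fun i => ?_, fun f hf => ?_⟩
  · exact (Algebra.IsAlgebraic.isAlgebraic (R := E) (Ideal.Quotient.mkₐ E M (X i))).algHom φ
  · have e : aeval (fun i => φ (Ideal.Quotient.mkₐ E M (X i))) f =
        (φ.comp (Ideal.Quotient.mkₐ E M)) f := by
      have h : (aeval fun i => φ (Ideal.Quotient.mkₐ E M (X i))) =
          φ.comp (Ideal.Quotient.mkₐ E M) := by
        apply MvPolynomial.algHom_ext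
        intro i
        simp
      rw [h]
    rw [e]
    have h0 : Ideal.Quotient.mkₐ E M f = 0 := by
      have : f ∈ M := hJM (Ideal.subset_span hf)
      simpa [Ideal.Quotient.mkₐ_eq_mk] using Ideal.Quotient.eq_zero_iff_mem.2 this
    rw [AlgHom.comp_apply, h0, map_zero]

/-- **A common denominator.**

Proof. Let `R = Algebra.adjoin K T`; `IntermediateField.adjoin K T` is its field of fractions, so `z i` is algebraic
over `R` and there is `δ i ∈ R`, `δ i ≠ 0`, with `δ i * z i` integral over `R` (`exists_integral_multiple` or by hand: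
multiply a polynomial relation by a power of its leading coefficient). Let `δ = ∏ δ i`. If `B` is as in the claim,
then `R ≤ B`, `δ * z i` is integral over `B` (multiply by the other `δ j ∈ R`), and
`z i = δ⁻¹ * (δ * z i)` is integral over `B`. -/
theorem exists_denominator (K : Subfield ℂ) (T : Set ℂ) {m : ℕ} (z : Fin m → ℂ)
    (hz : ∀ i, IsAlgebraic (IntermediateField.adjoin K T) (z i)) :
    ∃ δ ∈ Algebra.adjoin K T, δ ≠ 0 ∧ ∀ B : Subring ℂ, (∀ c ∈ K, c ∈ B) → T ⊆ B → δ⁻¹ ∈ B →
      ∀ i, IsIntegral B (z i) := by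
  classical
  open scoped IntermediateField.algebraAdjoinAdjoin in
  have h1 : ∀ i, IsAlgebraic (Algebra.adjoin K T) (z i) := fun i =>
    (IsFractionRing.isAlgebraic_iff (Algebra.adjoin K T) (IntermediateField.adjoin K T) ℂ).2 (hz i)
  choose d hd0 hd using fun i => (h1 i).exists_integral_multiple
  refine ⟨∏ i, (d i : ℂ), ?_, ?_, ?_⟩
  · exact Subalgebra.prod_mem _ fun i _ => (d i).2
  · apply Finset.prod_ne_zero_iff.2
    intro i _ h
    exact hd0 i (Subtype.ext h)
  · intro B hK hT hB i
    have hR : ∀ c ∈ Algebra.adjoin K T, c ∈ B := by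
      intro c hc
      induction hc using Algebra.adjoin_induction with
      | mem x hx => exact hT hx
      | algebraMap r => exact hK _ r.2
      | add x y _ _ h1 h2 => exact B.add_mem h1 h2
      | mul x y _ _ h1 h2 => exact B.mul_mem h1 h2
    let ι : Algebra.adjoin K T →+* B :=
      { toFun := fun c => ⟨c, hR c c.2⟩
        map_one' := rfl
        map_mul' := fun _ _ => rfl
        map_zero' := rfl
        map_add' := fun _ _ => rfl }
    have h2 : IsIntegral B ((d i : ℂ) * z i) := by
      obtain ⟨p, hp, hp0⟩ := hd i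
      refine ⟨p.map ι, hp.map ι, ?_⟩
      rw [Polynomial.eval₂_map]
      have e : (algebraMap B ℂ).comp ι = algebraMap (Algebra.adjoin K T) ℂ := rfl
      rw [e]
      have e2 : d i • z i = (d i : ℂ) * z i := rfl
      rwa [e2] at hp0
    have hne : (∏ j, (d j : ℂ)) ≠ 0 := by
      apply Finset.prod_ne_zero_iff.2
      intro j _ h
      exact hd0 j (Subtype.ext h)
    have h3 : (∏ j ∈ Finset.univ.erase i, (d j : ℂ)) ∈ B :=
      B.prod_mem fun j _ => hR _ (d j).2
    have h4 : z i = ((∏ j, (d j : ℂ))⁻¹ * ∏ j ∈ Finset.univ.erase i, (d j : ℂ)) *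
        ((d i : ℂ) * z i) := by
      have e : (∏ j, (d j : ℂ)) = (d i : ℂ) * ∏ j ∈ Finset.univ.erase i, (d j : ℂ) :=
        (Finset.mul_prod_erase Finset.univ (fun j => (d j : ℂ)) (Finset.mem_univ i)).symm
      have e' : (∏ j, (d j : ℂ))⁻¹ * (∏ j ∈ Finset.univ.erase i, (d j : ℂ)) * ((d i : ℂ) * z i) =
          (∏ j, (d j : ℂ))⁻¹ * ((d i : ℂ) * ∏ j ∈ Finset.univ.erase i, (d j : ℂ)) * z i := by
        ring
      rw [e', ← e, inv_mul_cancel₀ hne, one_mul]
    rw [h4]
    apply IsIntegral.mul _ h2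
    exact isIntegral_algebraMap (R := B) (A := ℂ) (x := ⟨_, B.mul_mem hB h3⟩)

end Pool.Agent.Lib.MP_209724_lc.QM
end

section

namespace Pool.Agent.Lib.MP_209724_lc.QM

open scoped TensorProduct in
private theorem flat_aeval {Ω : Type} [Field Ω] {L : Type} [Field L] [Algebra L Ω] {r : ℕ} {s : Fin r → Ω}
    (hs : AlgebraicIndependent L s) :
    (MvPolynomial.aeval (R := L) s : MvPolynomial (Fin r) L →ₐ[L] Ω).toRingHom.Flat := by
  set f : MvPolynomial (Fin r) L →ₐ[L] Ω := MvPolynomial.aeval s with hf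
  let _ : Algebra (MvPolynomial (Fin r) L) Ω := f.toRingHom.toAlgebra
  have hinj : Function.Injective (algebraMap (MvPolynomial (Fin r) L) Ω) := hs
  have : FaithfulSMul (MvPolynomial (Fin r) L) Ω := (faithfulSMul_iff_algebraMap_injective _ _).2 hinj
  let _ : Algebra (FractionRing (MvPolynomial (Fin r) L)) Ω := FractionRing.liftAlgebra _ _
  have : IsScalarTower (MvPolynomial (Fin r) L) (FractionRing (MvPolynomial (Fin r) L)) Ω :=
    FractionRing.isScalarTower_liftAlgebra _ _
  have : Module.Flat (MvPolynomial (Fin r) L) (FractionRing (MvPolynomial (Fin r) L)) :=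
    IsLocalization.flat _ (nonZeroDivisors (MvPolynomial (Fin r) L))
  exact Module.Flat.trans (MvPolynomial (Fin r) L) (FractionRing (MvPolynomial (Fin r) L)) Ω

open scoped TensorProduct in
private theorem nzd_aeval {Ω : Type} [Field Ω] {L : Type} [Field L] [Algebra L Ω] [Algebra L ℂ]
    {r : ℕ} {s : Fin r → Ω} (hs : AlgebraicIndependent L s) (P : MvPolynomial (Fin r) ℂ) (hP : P ≠ 0) :
    MvPolynomial.aeval (R := ℂ) (fun i => (1 : ℂ) ⊗ₜ[L] s i) P ∈ nonZeroDivisors (ℂ ⊗[L] Ω) := by
  set f : MvPolynomial (Fin r) L →ₐ[L] Ω := MvPolynomial.aeval s with hf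
  have hflat : (Algebra.TensorProduct.map (AlgHom.id ℂ ℂ) f).Flat :=
    RingHom.Flat.tensorProductMap (RingHom.Flat.id ℂ) (flat_aeval hs)
  have hcomp : (MvPolynomial.aeval (R := ℂ) (fun i => (1 : ℂ) ⊗ₜ[L] s i) :
      MvPolynomial (Fin r) ℂ →ₐ[ℂ] ℂ ⊗[L] Ω) =
      (Algebra.TensorProduct.map (AlgHom.id ℂ ℂ) f).comp
        (MvPolynomial.algebraTensorAlgEquiv (σ := Fin r) L ℂ).symm.toAlgHom := by
    ext i
    simp [hf]
  have hflat' : (MvPolynomial.aeval (R := ℂ) (fun i => (1 : ℂ) ⊗ₜ[L] s i) :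
      MvPolynomial (Fin r) ℂ →ₐ[ℂ] ℂ ⊗[L] Ω).toRingHom.Flat := by
    rw [hcomp]
    exact RingHom.Flat.comp (.of_bijective
      (MvPolynomial.algebraTensorAlgEquiv (σ := Fin r) L ℂ).symm.bijective) hflat
  let _ : Algebra (MvPolynomial (Fin r) ℂ) (ℂ ⊗[L] Ω) := (MvPolynomial.aeval (R := ℂ)
    (fun i => (1 : ℂ) ⊗ₜ[L] s i) : MvPolynomial (Fin r) ℂ →ₐ[ℂ] ℂ ⊗[L] Ω).toRingHom.toAlgebra
  have : Module.Flat (MvPolynomial (Fin r) ℂ) (ℂ ⊗[L] Ω) := hflat'
  have hreg : IsSMulRegular (ℂ ⊗[L] Ω) P :=
    Module.Flat.isSMulRegular_of_nonZeroDivisors (mem_nonZeroDivisors_of_ne_zero hP)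
  rw [mem_nonZeroDivisors_iff_left]
  intro a ha
  apply hreg
  change P • a = P • 0
  rw [smul_zero, Algebra.smul_def]
  exact ha

private theorem exists_nzd_hom (A : Type) [CommRing A] [Nontrivial A] :
    ∃ (K : Type) (_ : Field K) (_ : IsAlgClosed K) (φ : A →+* K), ∀ x ∈ nonZeroDivisors A, φ x ≠ 0 := by
  obtain ⟨𝔪, h𝔪⟩ := Ideal.exists_maximal A
  have : 𝔪.IsPrime := h𝔪.isPrime
  obtain ⟨𝔭, h𝔭, -⟩ := Ideal.exists_minimalPrimes_le (I := ⊥) (J := 𝔪) bot_le
  have : 𝔭.IsPrime := h𝔭.1.1
  refine ⟨AlgebraicClosure (FractionRing (A ⧸ 𝔭)), inferInstance, inferInstance,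
    (algebraMap (FractionRing (A ⧸ 𝔭)) (AlgebraicClosure (FractionRing (A ⧸ 𝔭)))).comp
    ((algebraMap (A ⧸ 𝔭) (FractionRing (A ⧸ 𝔭))).comp (Ideal.Quotient.mk 𝔭)), fun x hx h => ?_⟩
  have h1 := (algebraMap (FractionRing (A ⧸ 𝔭))
    (AlgebraicClosure (FractionRing (A ⧸ 𝔭)))).injective (h.trans (map_zero _).symm)
  have h2 := IsFractionRing.injective (A ⧸ 𝔭) (FractionRing (A ⧸ 𝔭)) (h1.trans (map_zero _).symm)
  exact Set.disjoint_left.1 (Ideal.disjoint_nonZeroDivisors_of_mem_minimalPrimes h𝔭)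
    (Ideal.Quotient.eq_zero_iff_mem.1 h2) hx

open scoped TensorProduct in
/-- **Change of the field of constants from `L` to `ℂ`.**

Proof. Let `b : β → Ω` be a transcendence basis of `Ω` over `L` (`exists_isTranscendenceBasis'`), `E =
FractionRing (MvPolynomial β ℂ)`, `Ω' = AlgebraicClosure E`. The ring homomorphism
`MvPolynomial β L → Ω'`, `X i ↦ X i`, `C c ↦ τ c` is injective, so it extends to the field
`L(b) = IntermediateField.adjoin L (range b)` (the fraction field of `L[b] ≅ MvPolynomial β L`), and then, because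
`Ω` is algebraic over `L(b)` and `Ω'` is algebraically closed, to `θ : Ω →+* Ω'` (`IsAlgClosed.lift` for the
algebra structure on `Ω'` given by `L(b) → Ω'`; another way: `IsAlgClosed.lift` for `MvPolynomial β L`-algebras,
`FaithfulSMul`/torsion-free, `Ω` algebraic over `MvPolynomial β L`).
Independence: let `s : Fin r → Ω` be algebraically independent over `L`. There is a finite set `J ⊆ β` such that
all `s i` are algebraic over `L(b_J)`. In the matroid `AlgebraicIndependent.matroid L Ω` the set `range s` is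
independent and contained in the closure of `b_J`; extend it to a basis `range s ∪ b_I`, `I ⊆ J`, of
`range s ∪ b_J`: so `r + |I| = |J|` and all `b_j`, `j ∈ J`, are algebraic over `L(s, b_I)`. Applying `θ`,
`θ (b_j)`, `j ∈ J`, is algebraic over `τ(L)(θ s, θ b_I) ⊆ ℂ(θ s, θ b_I)`. The `θ (b_j) = X j`, `j ∈ J`, are `r + |I|`
algebraically independent elements over `ℂ`, so by the exchange property (rank in `matroid ℂ Ω'`) the `r + |I|`
elements `θ (s i)`, `θ (b_i)`, `i ∈ I`, are algebraically independent over `ℂ` (a spanning family with as many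
elements as the rank is a basis; for families: `θ ∘ s` is injective).

(The proof below is another one: `Ω'` is the algebraic closure of the fraction field of `(ℂ ⊗[L] Ω) ⧸ 𝔭`, `𝔭` a
minimal prime; a nonzero polynomial in `1 ⊗ s i` over `ℂ` is a nonzerodivisor because
`ℂ ⊗[L] Ω` is flat over `ℂ[X] = ℂ ⊗[L] L[X]`, and so it is not in `𝔭`.) -/
theorem exists_transport {Ω : Type} [Field Ω] (L : Subfield Ω) (τ : L →+* ℂ) :
    ∃ (Ω' : Type) (_ : Field Ω') (_ : Algebra ℂ Ω') (_ : IsAlgClosed Ω') (θ : Ω →+* Ω'),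
      (∀ c : L, θ c = algebraMap ℂ Ω' (τ c)) ∧
      ∀ (r : ℕ) (s : Fin r → Ω), AlgebraicIndependent L s →
        AlgebraicIndependent ℂ fun i => θ (s i) := by
  let _ : Algebra L ℂ := τ.toAlgebra
  have : Nontrivial (ℂ ⊗[L] Ω) := inferInstance
  obtain ⟨Ω', i1, i2, φ, hφ⟩ := exists_nzd_hom (ℂ ⊗[L] Ω)
  let _ : Algebra ℂ Ω' := (φ.comp (algebraMap ℂ (ℂ ⊗[L] Ω))).toAlgebra
  refine ⟨Ω', i1, inferInstance, i2,
    φ.comp (Algebra.TensorProduct.includeRight : Ω →ₐ[L] ℂ ⊗[L] Ω).toRingHom, ?_, ?_⟩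
  · intro c
    change φ ((1 : ℂ) ⊗ₜ[L] (c : Ω)) = φ ((τ c) ⊗ₜ[L] (1 : Ω))
    congr 1
    have : (c : Ω) = c • (1 : Ω) := by rw [Algebra.smul_def, mul_one]; rfl
    rw [this, TensorProduct.tmul_smul, TensorProduct.smul_tmul', Algebra.smul_def, mul_one]
    rfl
  · intro r s hs
    rw [algebraicIndependent_iff]
    intro P hP
    by_contra hne
    have h1 : MvPolynomial.aeval (R := ℂ) (fun i => (φ.comp
        (Algebra.TensorProduct.includeRight : Ω →ₐ[L] ℂ ⊗[L] Ω).toRingHom) (s i)) P =
        φ (MvPolynomial.aeval (R := ℂ) (fun i => (1 : ℂ) ⊗ₜ[L] s i) P) := by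
      rw [MvPolynomial.aeval_def, MvPolynomial.aeval_def, MvPolynomial.eval₂_comp_left]
      rfl
    exact hφ _ (nzd_aeval hs P hne) (h1.symm.trans hP)

end Pool.Agent.Lib.MP_209724_lc.QM
end

section

namespace Pool.Agent.Lib.MP_209724_lc.QM

/-- graphs of homomorphisms from a subring to `ℂ` -/
private def MHf {Ω : Type} [Field Ω] (G : Subring (Ω × ℂ)) : Prop := ∀ c : ℂ, ((0 : Ω), c) ∈ G → c = 0

private lemma MH_uniq {Ω : Type} [Field Ω] {G : Subring (Ω × ℂ)} (hG : MHf G) {x : Ω} {c d : ℂ}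
    (h1 : (x, c) ∈ G) (h2 : (x, d) ∈ G) : c = d := by
  have h3 : (x, c) - (x, d) ∈ G := G.sub_mem h1 h2
  rw [Prod.mk_sub_mk, sub_self] at h3
  exact sub_eq_zero.1 (hG _ h3)

/-- the homomorphism of a graph -/
private lemma MH_hom {Ω : Type} [Field Ω] (G : Subring (Ω × ℂ)) (hG : MHf G) :
    ∃ (B : Subring Ω) (ψ : B →+* ℂ), (∀ x : B, ((x : Ω), ψ x) ∈ G) ∧
      ∀ (x : Ω) (c : ℂ), (x, c) ∈ G → ∃ h : x ∈ B, ψ ⟨x, h⟩ = c := by
  classical
  let f : G →+* Ω := (RingHom.fst Ω ℂ).comp G.subtype
  have hf : Function.Injective f := by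
    rw [injective_iff_map_eq_zero]
    rintro ⟨⟨x, c⟩, hxc⟩ h
    have hx : x = 0 := h
    subst hx
    have hc : c = 0 := hG c hxc
    subst hc
    rfl
  let e : G ≃+* f.range := RingEquiv.ofBijective f.rangeRestrict
    ⟨fun a b hab => hf (congrArg Subtype.val hab), f.rangeRestrict_surjective⟩
  have he : ∀ g : G, ((e g : f.range) : Ω) = g.1.1 := fun g => rfl
  refine ⟨f.range, (RingHom.snd Ω ℂ).comp (G.subtype.comp (e.symm : f.range →+* G)), ?_, ?_⟩
  · intro x
    have h1 : ((e.symm x : G) : Ω × ℂ).1 = (x : Ω) := by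
      rw [← he (e.symm x), e.apply_symm_apply]
    have h2 : ((e.symm x : G) : Ω × ℂ) = ((x : Ω), ((e.symm x : G) : Ω × ℂ).2) :=
      Prod.ext h1 rfl
    show ((x : Ω), ((e.symm x : G) : Ω × ℂ).2) ∈ G
    rw [← h2]
    exact (e.symm x).2
  · intro x c hxc
    refine ⟨⟨⟨(x, c), hxc⟩, rfl⟩, ?_⟩
    have h1 : e.symm ⟨x, ⟨⟨(x, c), hxc⟩, rfl⟩⟩ = ⟨(x, c), hxc⟩ := by
      rw [RingEquiv.symm_apply_eq]
      rfl
    show ((e.symm ⟨x, ⟨⟨(x, c), hxc⟩, rfl⟩⟩ : G) : Ω × ℂ).2 = c
    rw [h1]

/-- the elements `y` such that `y g ^ k ∈ G` for some `k` -/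
private def MH_locR {Ω : Type} [Field Ω] (G : Subring (Ω × ℂ)) (g : Ω × ℂ) (hg : g ∈ G) :
    Subring (Ω × ℂ) where
  carrier := {y | ∃ k : ℕ, y * g ^ k ∈ G}
  mul_mem' := by
    rintro a b ⟨k, hk⟩ ⟨l, hl⟩
    refine ⟨k + l, ?_⟩
    have : a * b * g ^ (k + l) = (a * g ^ k) * (b * g ^ l) := by rw [pow_add]; ring
    rw [this]
    exact G.mul_mem hk hl
  one_mem' := ⟨0, by rw [pow_zero, mul_one]; exact G.one_mem⟩
  add_mem' := by
    rintro a b ⟨k, hk⟩ ⟨l, hl⟩
    refine ⟨k + l, ?_⟩
    have : (a + b) * g ^ (k + l) = (a * g ^ k) * g ^ l + (b * g ^ l) * g ^ k := by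
      rw [pow_add]; ring
    rw [this]
    exact G.add_mem (G.mul_mem hk (G.pow_mem hg _)) (G.mul_mem hl (G.pow_mem hg _))
  zero_mem' := ⟨0, by rw [zero_mul]; exact G.zero_mem⟩
  neg_mem' := by
    rintro a ⟨k, hk⟩
    exact ⟨k, by rw [neg_mul]; exact G.neg_mem hk⟩

/-- extension of a homomorphism to an integral extension -/
private lemma MH_int {R C : Type} [CommRing R] [CommRing C] [Algebra R C] [FaithfulSMul R C]
    [Algebra.IsIntegral R C] (ψ : R →+* ℂ) :
    ∃ χ : C →+* ℂ, ∀ r, χ (algebraMap R C r) = ψ r := by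
  classical
  have hprime : (RingHom.ker ψ).IsPrime := RingHom.ker_isPrime ψ
  obtain ⟨Q, -, hQ, hQ2⟩ := Ideal.exists_ideal_over_prime_of_isIntegral (S := C) (RingHom.ker ψ) ⊥
    (by
      intro x hx
      have hx' : algebraMap R C x = 0 := by simpa using hx
      have : x = 0 := (FaithfulSMul.algebraMap_injective R C) (by rw [hx', map_zero])
      rw [this]
      exact Ideal.zero_mem _)
  have hlies : Q.LiesOver (RingHom.ker ψ) := ⟨hQ2.symm⟩
  let _inst : Algebra (R ⧸ RingHom.ker ψ) ℂ := (RingHom.kerLift ψ).toAlgebra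
  have hfs : FaithfulSMul (R ⧸ RingHom.ker ψ) ℂ := by
    rw [faithfulSMul_iff_algebraMap_injective]
    exact RingHom.kerLift_injective ψ
  have hint : Algebra.IsIntegral (R ⧸ RingHom.ker ψ) (C ⧸ Q) := inferInstance
  have hfs2 : FaithfulSMul (R ⧸ RingHom.ker ψ) (C ⧸ Q) := inferInstance
  have hdom : IsDomain (C ⧸ Q) := inferInstance
  have hdom2 : IsDomain (R ⧸ RingHom.ker ψ) := inferInstance
  let L : (C ⧸ Q) →ₐ[R ⧸ RingHom.ker ψ] ℂ := IsAlgClosed.lift
  refine ⟨(L : (C ⧸ Q) →+* ℂ).comp (Ideal.Quotient.mk Q), fun r => ?_⟩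
  have h1 := L.commutes (Ideal.Quotient.mk (RingHom.ker ψ) r)
  have h2 : algebraMap (R ⧸ RingHom.ker ψ) (C ⧸ Q) (Ideal.Quotient.mk (RingHom.ker ψ) r) =
      Ideal.Quotient.mk Q (algebraMap R C r) := rfl
  have h3 : algebraMap (R ⧸ RingHom.ker ψ) ℂ (Ideal.Quotient.mk (RingHom.ker ψ) r) = ψ r := rfl
  rw [h2, h3] at h1
  exact h1

/-- **Maximal extensions of homomorphisms.**

Proof. Zorn's lemma for the pairs `(B, ψ)`, `B ⊇ A` a subring of `Ω`, `ψ : B →+* ℂ` extending `φ`, ordered by
extension (for instance as subrings of `Ω × ℂ`: graphs; the union of a chain is a graph of a homomorphism). Let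
`(B, ψ)` be maximal.
* `loc`: let `x ∈ B`, `ψ x ≠ 0`. Then `ψ` extends to the subring of all `b / x ^ k` (`b ∈ B`), by
  `b / x ^ k ↦ ψ b / ψ x ^ k` (well defined: `b x ^ l = b' x ^ k` in the domain `Ω`). By maximality it is `B`.
* `int`: let `x ∈ Ω` be integral over `B`. `B[x]` is integral over `B`; the kernel of `ψ` is a prime ideal `p` of `B`;
  there is a prime `q` of `B[x]` over `p` (`Ideal.exists_ideal_over_prime_of_isIntegral`); `B[x] / q` is a
  domain, integral over `B / p ↪ ℂ`, so its fraction field is algebraic over that of `B / p` and the embedding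
  extends (`IsAlgClosed.lift`). (Another way: `B[x] ≅ B[X] / I`; choose a root in `ℂ` of the images of ....) So `ψ`
  extends to `B[x]`, and `x ∈ B` by maximality. -/
theorem exists_place {Ω : Type} [Field Ω] (A : Subring Ω) (φ : A →+* ℂ) :
    ∃ (V : Place Ω) (h : A ≤ V.B), ∀ a : A, V.ψ (Subring.inclusion h a) = φ a := by
  classical
  let g0 : A →+* Ω × ℂ := A.subtype.prod φ
  have hg0 : MHf g0.range := by
    rintro c ⟨a, ha⟩
    have h1 : (a : Ω) = 0 := congrArg Prod.fst ha
    have h2 : φ a = c := congrArg Prod.snd ha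
    have h3 : a = 0 := Subtype.ext h1
    rw [← h2, h3, map_zero]
  obtain ⟨G, hG0, hG⟩ := zorn_le_nonempty₀ {G : Subring (Ω × ℂ) | MHf G} (by
    intro c hc hchain y hy
    refine ⟨sSup c, ?_, fun z hz => le_sSup hz⟩
    intro d hd
    rw [Subring.mem_sSup_of_directedOn ⟨y, hy⟩ hchain.directedOn] at hd
    obtain ⟨H, hH, hd⟩ := hd
    exact hc hH d hd) g0.range hg0
  have hGf : MHf G := hG.1
  have hmax : ∀ G' : Subring (Ω × ℂ), MHf G' → G ≤ G' → G' ≤ G := fun G' h1 h2 => hG.2 h1 h2
  obtain ⟨B, ψ, h1, h2⟩ := MH_hom G hGf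
  refine ⟨⟨B, ψ, ?_, ?_⟩, ?_, ?_⟩
  · intro x hx
    have hx0 : (x : Ω) ≠ 0 := by
      intro hcon
      apply hx
      have : x = 0 := Subtype.ext hcon
      rw [this, map_zero]
    have hg := h1 x
    set g : Ω × ℂ := ((x : Ω), ψ x) with hgdef
    have h3 : MHf (MH_locR G g hg) := by
      rintro c ⟨k, hk⟩
      have h4 : ((0 : Ω), c) * g ^ k = ((0 : Ω), c * ψ x ^ k) := by
        rw [hgdef, Prod.pow_mk, Prod.mk_mul_mk, zero_mul]
      rw [h4] at hk
      have h5 := hGf _ hk
      exact (mul_eq_zero.1 h5).resolve_right (pow_ne_zero _ hx)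
    have h4 : G ≤ MH_locR G g hg := fun y hy => ⟨0, by rw [pow_zero, mul_one]; exact hy⟩
    have h5 : (((x : Ω)⁻¹, (ψ x)⁻¹) : Ω × ℂ) ∈ MH_locR G g hg := by
      refine ⟨1, ?_⟩
      have : (((x : Ω)⁻¹, (ψ x)⁻¹) : Ω × ℂ) * g ^ 1 = 1 := by
        rw [hgdef, pow_one, Prod.mk_mul_mk, inv_mul_cancel₀ hx0, inv_mul_cancel₀ hx]
        rfl
      rw [this]
      exact G.one_mem
    exact (h2 _ _ (hmax _ h3 h4 h5)).1
  · intro x hx
    let C := integralClosure B Ω
    obtain ⟨χ, hχ⟩ := MH_int (R := B) (C := C) ψ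
    let g1 : C →+* Ω × ℂ := (algebraMap C Ω).prod χ
    have h3 : MHf g1.range := by
      rintro c ⟨a, ha⟩
      have h4 : algebraMap C Ω a = 0 := congrArg Prod.fst ha
      have h5 : χ a = c := congrArg Prod.snd ha
      have h6 : a = 0 := Subtype.ext h4
      rw [← h5, h6, map_zero]
    have h4 : G ≤ g1.range := by
      rintro ⟨y, c⟩ hy
      obtain ⟨hyB, hyc⟩ := h2 y c hy
      refine ⟨algebraMap B C ⟨y, hyB⟩, ?_⟩
      refine Prod.ext rfl ?_
      show χ (algebraMap B C ⟨y, hyB⟩) = c
      rw [hχ, hyc]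
    have h5 : (x, χ ⟨x, hx⟩) ∈ g1.range := ⟨⟨x, hx⟩, rfl⟩
    exact (h2 _ _ (hmax _ h3 h4 h5)).1
  · intro a ha
    exact (h2 a (φ ⟨a, ha⟩) (hG0 ⟨⟨a, ha⟩, rfl⟩)).1
  · intro a
    obtain ⟨h3, h4⟩ := h2 (a : Ω) (φ a) (hG0 ⟨a, rfl⟩)
    exact h4

end Pool.Agent.Lib.MP_209724_lc.QM
end

section

namespace Pool.Agent.Lib.MP_209724_lc.QM

variable {F : Type} [Field F]

open AlgebraicIndependent in
/-- the matroid closure -/
private theorem mem_closure_iff (K : Subfield F) (T : Set F) (x : F) :
    x ∈ (matroid K F).closure T ↔ IsAlgebraic (IntermediateField.adjoin K T) x := by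
  rw [matroid_closure_eq, IntermediateField.isAlgebraic_adjoin_iff]
  rfl

omit [Field F] in
/-- an enumeration of a subset -/
private theorem exists_enum {I : Set F} {n : ℕ} (h : (n : ℕ∞) ≤ I.encard) :
    ∃ e : Fin n → F, Function.Injective e ∧ ∀ i, e i ∈ I := by
  obtain ⟨J, hJI, hJ⟩ := Set.exists_subset_encard_eq h
  have hJfin : J.Finite := Set.finite_of_encard_eq_coe hJ
  have hcard : Nat.card J = n := by
    have := hJfin.cast_ncard_eq
    rw [hJ] at this
    exact_mod_cast this
  have : Finite J := hJfin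
  let e : Fin n ≃ J := (Finite.equivFinOfCardEq hcard).symm
  exact ⟨fun i => (e i : F), Subtype.val_injective.comp e.injective, fun i => hJI (e i).2⟩

open AlgebraicIndependent in
/-- Exchange. Proof. In the matroid `AlgebraicIndependent.matroid K F` the rank of `T` is at least the rank of
the range of `s`, which is `n`, because the range of `s` is in the closure of `T`
(`AlgebraicIndependent.matroid_closure_eq`); a basis of `T` (`exists_isBasis`) has at least `n` elements. -/
theorem exists_of_alg (K : Subfield F) (T : Set F) {n : ℕ} (s : Fin n → F)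
    (hs : AlgebraicIndependent K s)
    (h : ∀ i, IsAlgebraic (IntermediateField.adjoin K T) (s i)) :
    ∃ s' : Fin n → F, AlgebraicIndependent K s' ∧ ∀ i, s' i ∈ T := by
  classical
  have h1 : (matroid K F).Indep (Set.range s) := hs.coe_range
  have h2 : Set.range s ⊆ (matroid K F).closure T := by
    rintro _ ⟨i, rfl⟩
    exact (mem_closure_iff K T _).2 (h i)
  have h3 : (n : ℕ∞) ≤ (matroid K F).eRk T := by
    rw [← Matroid.eRk_closure_eq]
    refine le_trans ?_ ((matroid K F).eRk_mono h2)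
    rw [h1.eRk_eq_encard, ← Set.image_univ, Set.InjOn.encard_image (hs.injective.injOn)]
    simp
  obtain ⟨I, hI⟩ := (matroid K F).exists_isBasis T
  rw [← hI.encard_eq_eRk] at h3
  obtain ⟨e, he, heI⟩ := exists_enum h3
  refine ⟨e, ?_, fun i => hI.subset (heI i)⟩
  have h4 : AlgebraicIndependent K ((↑) : I → F) := hI.indep
  exact h4.comp (fun i => ⟨e i, heI i⟩) fun i j hij => he (congrArg Subtype.val hij)

open AlgebraicIndependent in
/-- The rank drops by at most one. Proof. Suppose no `n` of the `s i` are algebraically independent over `K₁`.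
Let `I` be a maximal set of indices with `(s i)_{i ∈ I}` algebraically independent over `K₁`; it has at most
`n - 1` elements, and all `s i` are algebraic over `K₁(s_I)`, hence algebraic over `K(p, s_I)` (`h.alg`; algebraic
over an algebraic extension). By `exists_of_alg` for `T = {p} ∪ {s i | i ∈ I}`, a set with at most `n` elements,
there are `n + 1` algebraically independent elements of `T`: contradiction (they are different). -/
theorem exists_drop {K K₁ : Subfield F} {p : F} (h : IsExt K K₁ p) {n : ℕ} (s : Fin (n + 1) → F)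
    (hs : AlgebraicIndependent K s) :
    ∃ e : Fin n → Fin (n + 1), AlgebraicIndependent K₁ fun i => s (e i) := by
  classical
  obtain ⟨I, hI⟩ := (matroid K₁ F).exists_isBasis (Set.range s)
  have hIs : ∀ x ∈ Set.range s, IsAlgebraic (IntermediateField.adjoin K₁ I) x := by
    intro x hx
    rw [← mem_closure_iff]
    exact hI.subset_closure hx
  -- the algebraic closure of `K(p, I)`
  let E := IntermediateField.adjoin K ({p} ∪ I)
  have hK₁ : ∀ x ∈ K₁, IsAlgebraic E x := by
    intro x hx
    have h1 : x ∈ (matroid K F).closure {p} := (mem_closure_iff K _ _).2 (h.alg x hx)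
    exact (mem_closure_iff K _ _).1
      ((matroid K F).closure_subset_closure Set.subset_union_left h1)
  let A := algebraicClosure E F
  have hA : ∀ x ∈ IntermediateField.adjoin K₁ I, x ∈ A := by
    intro x hx
    have h2 : (IntermediateField.adjoin K₁ I).toSubfield ≤ A.toSubfield := by
      refine Subfield.closure_le.2 ?_
      rintro y (⟨c, rfl⟩ | hy)
      · exact mem_algebraicClosure_iff.2 (hK₁ c c.2)
      · have h3 : y ∈ E := IntermediateField.subset_adjoin _ _ (Or.inr hy)
        exact A.algebraMap_mem ⟨y, h3⟩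
    exact h2 hx
  have hsE : ∀ i, IsAlgebraic E (s i) := by
    intro i
    obtain ⟨P, hP, hPs⟩ := hIs (s i) ⟨i, rfl⟩
    have h4 : IsAlgebraic A (s i) := by
      let φ : IntermediateField.adjoin K₁ I →+* A :=
        { toFun := fun x => ⟨x, hA x x.2⟩
          map_one' := rfl
          map_mul' := fun _ _ => rfl
          map_zero' := rfl
          map_add' := fun _ _ => rfl }
      refine ⟨P.map φ, (Polynomial.map_ne_zero_iff φ.injective).2 hP, ?_⟩
      rw [Polynomial.aeval_def, Polynomial.eval₂_map]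
      exact hPs
    exact h4.restrictScalars E
  obtain ⟨s', hs', hs'T⟩ := exists_of_alg K _ s hs hsE
  have h5 : ((n + 1 : ℕ) : ℕ∞) ≤ (({p} ∪ I : Set F)).encard := by
    have h6 : (Set.range s').encard = ((n + 1 : ℕ) : ℕ∞) := by
      rw [← Set.image_univ, Set.InjOn.encard_image (hs'.injective.injOn)]
      simp
    rw [← h6]
    refine Set.encard_le_encard ?_
    rintro _ ⟨i, rfl⟩
    exact hs'T i
  have h7 : (n : ℕ∞) ≤ I.encard := by
    have h8 := h5.trans (Set.encard_union_le _ _)
    rw [Set.encard_singleton, add_comm (1 : ℕ∞)] at h8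
    push_cast at h8
    exact (ENat.add_le_add_iff_right ENat.one_ne_top).1 h8
  obtain ⟨e, he, heI⟩ := exists_enum h7
  choose f hf using fun i => hI.subset (heI i)
  refine ⟨f, ?_⟩
  have h9 : AlgebraicIndependent K₁ ((↑) : I → F) := hI.indep
  have h10 := h9.comp (fun i => ⟨e i, heI i⟩) fun i j hij => he (congrArg Subtype.val hij)
  convert h10 using 1
  funext i
  exact hf i

/-- If `p` is one of the elements, the others are independent over `K₁`. Proof: `s ∘ e` is independent over
`K(s j)`, (`algebraicIndependent_iff...` / `AlgebraicIndependent.option_iff` and the like; here `p = s j`), and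
`K₁` is algebraic over `K(p)`; or: apply `exists_drop` to see that `n` of the `s i` are independent over `K₁`;
`s j = p ∈ K₁` is not one of them. -/
theorem exists_drop_mem {K K₁ : Subfield F} {p : F} (h : IsExt K K₁ p) {n : ℕ}
    (s : Fin (n + 1) → F) (hs : AlgebraicIndependent K s) :
    ∃ e : Fin n → Fin (n + 1), (AlgebraicIndependent K₁ fun i => s (e i)) ∧ ∀ i, s (e i) ≠ p := by
  obtain ⟨e, he⟩ := exists_drop h s hs
  refine ⟨e, he, fun i hi => ?_⟩
  have h1 := he.transcendental i
  rw [hi] at h1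
  exact h1 (isAlgebraic_algebraMap (⟨p, h.mem⟩ : K₁))

/-- `K₁` exists. Proof: the algebraic closure of `K(p)` in `F`
(`(algebraicClosure (IntermediateField.adjoin K {p}) F)` as a subfield). -/
theorem exists_ext (K : Subfield F) (p : F) : ∃ K₁ : Subfield F, IsExt K K₁ p := by
  let E := IntermediateField.adjoin K {p}
  refine ⟨(algebraicClosure E F).toSubfield, ?_, ?_, ?_, ?_⟩
  · intro x hx
    exact (algebraicClosure E F).algebraMap_mem
      ⟨x, E.algebraMap_mem (⟨x, hx⟩ : K)⟩
  · exact (algebraicClosure E F).algebraMap_mem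
      ⟨p, IntermediateField.mem_adjoin_simple_self K p⟩
  · intro x hx
    have h1 : IsAlgebraic (algebraicClosure E F) x := hx
    exact mem_algebraicClosure_iff.2 (h1.restrictScalars E : IsAlgebraic E x)
  · intro x hx
    exact mem_algebraicClosure_iff.1 hx

end Pool.Agent.Lib.MP_209724_lc.QM
end

section

namespace Pool.Agent.Lib.MP_209724_lc.QM

/-- the value of a ring homomorphism at an integral power of a unit. -/
theorem stepSol_units {R S : Type*} [CommRing R] [Field S] (f : R →+* S) (u : Rˣ) (l : ℤ) :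
    f ((u ^ l : Rˣ) : R) = f (u : R) ^ l := by
  have h := Units.val_zpow_eq_zpow_val (Units.map (f : R →* S) u) l
  rw [← map_zpow] at h
  exact h

theorem stepSol_prod {R S ι : Type*} [Fintype ι] [CommRing R] [Field S] (f : R →+* S)
    (u : ι → Rˣ) (l : ι → ℤ) :
    f ((∏ j, u j ^ l j : Rˣ) : R) = ∏ j, f (u j : R) ^ l j := by
  rw [Units.coe_prod, map_prod]
  exact Finset.prod_congr rfl fun j _ => stepSol_units f (u j) (l j)

/-- **From the new variables to the old ones.**

Proof. Take `D`, `χ` from `h`. `L ≤ L₁ ≤ D` and `χ c = τ₁ c = τ c` for `c ∈ L`. For `j = i₀.succAbove j'`: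
`ξ j = N ξ' j'`, `η j = η' j' ^ N` and `(η j)⁻¹ = ((η' j')⁻¹) ^ N` are in `D`, and
`χ (η j) = χ (η' j') ^ N = exp (N χ (ξ' j'))`. For `j = i₀`: `ξ i₀ = ζ - ∑ k j * ξ' j`,
`η i₀ = θ * ∏ η' j ^ (- k j)` with `ζ, θ ∈ L₁`; `θ⁻¹ ∈ L₁`; all are in `D` (`η' j` is a unit of `D`, so its integral
powers are in `D`, with `χ (η' j ^ l) = χ (η' j) ^ l`), and
`χ (η i₀) = τ₁ θ * ∏ exp (χ (ξ' j)) ^ (- k j) = exp (τ₁ ζ - ∑ k j * χ (ξ' j)) = exp (χ (ξ i₀))`. Every index is `i₀` or
`i₀.succAbove j'` (`Fin.exists_succAbove_eq`, `Fin.succAboveCases`). `θ ≠ 0` follows from `hθ`. -/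
theorem sol_of_sol {t : ℕ} {Ω : Type} [Field Ω] (L L₁ : Subfield Ω) (hle : L ≤ L₁)
    (τ : L →+* ℂ) (τ₁ : L₁ →+* ℂ) (hτ : ∀ c : L, τ₁ ⟨c, hle c.2⟩ = τ c)
    (ξ η : Fin (t + 1) → Ω) (i₀ : Fin (t + 1)) (N : ℕ) (hN : 0 < N) (k : Fin t → ℤ)
    (ξ' η' : Fin t → Ω) (ζ θ : L₁)
    (h1 : ∀ j, ξ (i₀.succAbove j) = N * ξ' j) (h2 : ∀ j, η (i₀.succAbove j) = η' j ^ N)
    (h3 : (ζ : Ω) = ξ i₀ + ∑ j, (k j : Ω) * ξ' j) (h4 : (θ : Ω) = η i₀ * ∏ j, η' j ^ k j)
    (hη' : ∀ j, η' j ≠ 0) (hθ : τ₁ θ = Complex.exp (τ₁ ζ)) (h : Sol L₁ τ₁ ξ' η') :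
    Sol L τ ξ η := by
  obtain ⟨D, χ, hL, hc, hj⟩ := h
  choose hξD hηD hηi hexp using hj
  have hLD : L.toSubring ≤ D := fun x hx => hL (hle hx)
  set u : Fin t → Dˣ := fun j =>
    ⟨⟨η' j, hηD j⟩, ⟨(η' j)⁻¹, hηi j⟩, Subtype.ext (mul_inv_cancel₀ (hη' j)),
      Subtype.ext (inv_mul_cancel₀ (hη' j))⟩ with hu
  have huv : ∀ j, ((u j : D) : Ω) = η' j := fun j => rfl
  have huχ : ∀ j, χ (u j : D) = Complex.exp (χ ⟨ξ' j, hξD j⟩) := fun j => hexp j
  -- the elements at `i₀`
  set Z : D := Subring.inclusion hL ζ - ∑ j, (k j : D) * ⟨ξ' j, hξD j⟩ with hZ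
  set Θ : D := Subring.inclusion hL θ * ((∏ j, u j ^ (-k j) : Dˣ) : D) with hΘ
  have hZv : (Z : Ω) = ξ i₀ := by
    have h5 : (Z : Ω) = (ζ : Ω) - ∑ j, (k j : Ω) * ξ' j := by
      rw [hZ]
      push_cast
      rfl
    rw [h5, h3]
    ring
  have hprod : ∀ l : Fin t → ℤ, (((∏ j, u j ^ l j : Dˣ) : D) : Ω) = ∏ j, η' j ^ l j := fun l =>
    stepSol_prod D.subtype u l
  have hprod0 : ∏ j, η' j ^ k j ≠ 0 := Finset.prod_ne_zero_iff.2 fun j _ => zpow_ne_zero _ (hη' j)
  have hΘv : (Θ : Ω) = η i₀ := by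
    have h5 : (Θ : Ω) = (θ : Ω) * ∏ j, η' j ^ (-k j) := by
      rw [hΘ, Subring.coe_mul, hprod]
      rfl
    rw [h5, h4]
    simp_rw [zpow_neg]
    rw [Finset.prod_inv_distrib, mul_assoc, mul_inv_cancel₀ hprod0, mul_one]
  have hθ0 : θ ≠ 0 := by
    rintro rfl
    rw [map_zero] at hθ
    exact Complex.exp_ne_zero _ hθ.symm
  refine ⟨D, χ, hLD, ?_, ?_⟩
  · intro c
    rw [← hτ c, ← hc ⟨c, hle c.2⟩]
    rfl
  · intro j
    refine Fin.succAboveCases i₀ ?_ ?_ j
    · -- the index `i₀`
      have m1 : ξ i₀ ∈ D := hZv ▸ Z.2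
      have m2 : η i₀ ∈ D := hΘv ▸ Θ.2
      have e1 : (⟨ξ i₀, m1⟩ : D) = Z := Subtype.ext hZv.symm
      have e2 : (⟨η i₀, m2⟩ : D) = Θ := Subtype.ext hΘv.symm
      refine ⟨m1, m2, ?_, ?_⟩
      · have h5 : (η i₀)⁻¹ = (θ : Ω)⁻¹ * ∏ j, η' j ^ k j := by
          rw [← hΘv, hΘ, Subring.coe_mul, hprod]
          simp_rw [zpow_neg]
          rw [Finset.prod_inv_distrib, mul_inv, inv_inv]
          rfl
        rw [h5]
        refine D.mul_mem (hL (L₁.inv_mem θ.2)) ?_
        rw [← hprod k]
        exact ((∏ j, u j ^ k j : Dˣ) : D).2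
      · rw [e1, e2, hΘ, hZ, map_mul, map_sub, map_sum, stepSol_prod χ u (fun j => -k j), hc, hc, hθ,
          sub_eq_add_neg, Complex.exp_add, ← Finset.sum_neg_distrib, Complex.exp_sum]
        congr 1
        refine Finset.prod_congr rfl fun j _ => ?_
        rw [huχ, ← Complex.exp_int_mul, map_mul, map_intCast]
        congr 1
        push_cast
        ring
    · intro j'
      have m1 : ξ (i₀.succAbove j') ∈ D := by
        rw [h1]
        exact D.mul_mem (natCast_mem D N) (hξD j')
      have m2 : η (i₀.succAbove j') ∈ D := by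
        rw [h2]
        exact D.pow_mem (hηD j') N
      have e1 : (⟨ξ (i₀.succAbove j'), m1⟩ : D) = (N : D) * ⟨ξ' j', hξD j'⟩ :=
        Subtype.ext (by rw [Subring.coe_mul]; exact h1 j')
      have e2 : (⟨η (i₀.succAbove j'), m2⟩ : D) = ⟨η' j', hηD j'⟩ ^ N :=
        Subtype.ext (by rw [Subring.coe_pow]; exact h2 j')
      refine ⟨m1, m2, ?_, ?_⟩
      · rw [h2, ← inv_pow]
        exact D.pow_mem (hηi j') N
      · rw [e1, e2, map_mul, map_pow, map_natCast, hexp, ← Complex.exp_nat_mul]

end Pool.Agent.Lib.MP_209724_lc.QM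
end

section

namespace Pool.Agent.Lib.MP_209724_lc.QM

/-- **A basis modulo a subfield.** Proof. Induction on `m`. For `m + 1` take the data for the first `m` elements
(`Fin.init` or `Fin.tail`). If there are `k : Fin r → ℤ` and `n : ℤ`, `n ≠ 0`, with `∑ k j * v j + n * x m ∈ K`, then
replace `v j` by `v j / n` and `A i j` by `n * A i j`: `x m = ∑ (-k j) * (v j / n) + c`, `c ∈ K`. Otherwise add
`v_r = x m` (`Fin.snoc` or `Fin.cons`; `r + 1 ≤ m + 1`). -/
theorem exists_basisK (K : Subfield ℂ) {m : ℕ} (x : Fin m → ℂ) :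
    ∃ (r : ℕ) (v : Fin r → ℂ) (A : Fin m → Fin r → ℤ) (c : Fin m → ℂ),
      r ≤ m ∧ (∀ i, c i ∈ K) ∧ (∀ i, x i = ∑ j, (A i j : ℂ) * v j + c i) ∧
      ∀ k : Fin r → ℤ, ∑ j, (k j : ℂ) * v j ∈ K → k = 0 := by
  classical
  induction m with
  | zero =>
    refine ⟨0, Fin.elim0, Fin.elim0, Fin.elim0, le_refl _, fun i => i.elim0, fun i => i.elim0, ?_⟩
    intro k _
    exact Subsingleton.elim _ _
  | succ m ih =>
    obtain ⟨r, v, A, c, hr, hc, hx, hind⟩ := ih (fun i => x i.castSucc)
    by_cases hcase : ∃ (k : Fin r → ℤ) (n : ℤ), n ≠ 0 ∧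
        ∑ j, (k j : ℂ) * v j + n * x (Fin.last m) ∈ K
    · obtain ⟨k, n, hn, hmem⟩ := hcase
      have hn0 : (n : ℂ) ≠ 0 := by exact_mod_cast hn
      refine ⟨r, fun j => v j / n,
        Fin.lastCases (fun j => -k j) (fun i j => A i j * n),
        Fin.lastCases ((n : ℂ)⁻¹ * (∑ j, (k j : ℂ) * v j + n * x (Fin.last m)))
          (fun i => c i), by omega, ?_, ?_, ?_⟩
      · intro i
        refine Fin.lastCases ?_ (fun i => ?_) i
        · simp only [Fin.lastCases_last]
          exact K.mul_mem (K.inv_mem (intCast_mem K n)) hmem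
        · simp only [Fin.lastCases_castSucc]
          exact hc i
      · intro i
        refine Fin.lastCases ?_ (fun i => ?_) i
        · simp only [Fin.lastCases_last]
          have h1 : ∑ j, ((-k j : ℤ) : ℂ) * (v j / n)
              = -((n : ℂ)⁻¹ * ∑ j, (k j : ℂ) * v j) := by
            rw [Finset.mul_sum, ← Finset.sum_neg_distrib]
            refine Finset.sum_congr rfl fun j _ => ?_
            push_cast
            ring
          rw [h1]
          have h3 : (n : ℂ)⁻¹ * (∑ j, (k j : ℂ) * v j + n * x (Fin.last m))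
              = (n : ℂ)⁻¹ * (∑ j, (k j : ℂ) * v j) + x (Fin.last m) := by
            rw [mul_add, inv_mul_cancel_left₀ hn0]
          rw [h3]
          ring
        · simp only [Fin.lastCases_castSucc]
          have h0 : x i.castSucc = _ := hx i
          rw [h0]
          congr 1
          refine Finset.sum_congr rfl fun j _ => ?_
          push_cast
          field_simp
      · intro k' h'
        have h1 : (n : ℂ) * (∑ j, (k' j : ℂ) * (v j / n)) ∈ K :=
          K.mul_mem (intCast_mem K _) h'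
        have h2 : (n : ℂ) * (∑ j, (k' j : ℂ) * (v j / n)) = ∑ j, (k' j : ℂ) * v j := by
          rw [Finset.mul_sum]
          refine Finset.sum_congr rfl fun j _ => ?_
          field_simp
        rw [h2] at h1
        exact hind _ h1
    · have hcase' : ∀ (k : Fin r → ℤ) (n : ℤ),
          ∑ j, (k j : ℂ) * v j + n * x (Fin.last m) ∈ K → n = 0 := by
        intro k n h
        by_contra hn
        exact hcase ⟨k, n, hn, h⟩
      refine ⟨r + 1, Fin.snoc (α := fun _ => ℂ) v (x (Fin.last m)),
        Fin.lastCases (Fin.snoc (α := fun _ => ℤ) (fun _ => 0) 1)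
          (fun i => Fin.snoc (α := fun _ => ℤ) (A i) 0),
        Fin.lastCases 0 (fun i => c i), by omega, ?_, ?_, ?_⟩
      · intro i
        refine Fin.lastCases ?_ (fun i => ?_) i
        · simp only [Fin.lastCases_last]
          exact K.zero_mem
        · simp only [Fin.lastCases_castSucc]
          exact hc i
      · intro i
        refine Fin.lastCases ?_ (fun i => ?_) i
        · simp only [Fin.lastCases_last, Fin.sum_univ_castSucc, Fin.snoc_castSucc, Fin.snoc_last]
          simp
        · simp only [Fin.lastCases_castSucc, Fin.sum_univ_castSucc, Fin.snoc_castSucc,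
            Fin.snoc_last]
          have h0 : x i.castSucc = _ := hx i
          rw [h0]
          simp
      · intro k h
        rw [Fin.sum_univ_castSucc] at h
        simp only [Fin.snoc_castSucc, Fin.snoc_last] at h
        have h3 : k (Fin.last r) = 0 := hcase' (fun j => k j.castSucc) _ h
        rw [h3] at h
        simp only [Int.cast_zero, zero_mul, add_zero] at h
        have h5 := hind (fun j => k j.castSucc) h
        funext j
        refine Fin.lastCases ?_ (fun j => ?_) j
        · exact h3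
        · exact congrFun h5 j

end Pool.Agent.Lib.MP_209724_lc.QM
end
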