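import Mathlib
import Pool.Agent.Lib.MP_209724_lc.QM.BasisK

namespace Pool.Agent.Lib.MP_209724_lc.QM

/-- Integral multiples and sums: immediate (`exp (z + w) = exp z * exp w`, `exp (l * z) = exp z ^ l`,
`Complex.exp_int_mul`). -/
theorem UU.add {K : Subfield ℂ} {z w : ℂ} (hz : UU K z) (hw : UU K w) : UU K (z + w) := by
  refine ⟨add_mem hz.1 hw.1, ?_⟩
  rw [Complex.exp_add]
  exact mul_mem hz.2 hw.2

theorem UU.int_mul {K : Subfield ℂ} {z : ℂ} (hz : UU K z) (l : ℤ) : UU K (l * z) := by
  refine ⟨mul_mem (intCast_mem K l) hz.1, ?_⟩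
  rw [Complex.exp_int_mul]
  exact zpow_mem hz.2 l

/-- Division: `z = (M z) / M ∈ K`; `exp z` is a root of `X ^ M - exp (M z)`, so it is algebraic over `K`. -/
theorem Good.of_mul {K : Subfield ℂ} (hK : Good K) {z : ℂ} {M : ℕ} (hM : 0 < M)
    (h : UU K (M * z)) : UU K z := by
  have hM0 : (M : ℂ) ≠ 0 := Nat.cast_ne_zero.2 hM.ne'
  refine ⟨?_, ?_⟩
  · have h1 : (M : ℂ)⁻¹ * (M * z) ∈ K := mul_mem (inv_mem (natCast_mem K M)) h.1
    rwa [inv_mul_cancel_left₀ hM0] at h1
  · apply hK.closed
    refine IsAlgebraic.of_pow hM ?_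
    have h1 : Complex.exp z ^ M ∈ K := by
      have h2 := h.2
      rwa [Complex.exp_nat_mul] at h2
    exact isAlgebraic_algebraMap (⟨_, h1⟩ : K)

/-- `l z` is not in `UU K` for `l ≠ 0`. Proof: otherwise, with `M = l.natAbs`, `UU K (M * z)` (`UU.int_mul` with
`± 1`), `UU K z` by `Good.of_mul`, which contradicts `hz`, `hp`. -/
theorem Good.not_mul {K : Subfield ℂ} (hK : Good K) {z p : ℂ}
    (hz : (z ∈ K ∧ p = Complex.exp z) ∨ (Complex.exp z ∈ K ∧ p = z)) (hp : p ∉ K) {l : ℤ}
    (h : UU K (l * z)) : l = 0 := by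
  by_contra hl
  have h1 : UU K ((l.natAbs : ℂ) * z) := by
    rcases Int.natAbs_eq l with h2 | h2
    · have h3 : (l : ℂ) = (l.natAbs : ℂ) := by
        conv_lhs => rw [h2, Int.cast_natCast]
      rwa [h3] at h
    · have h3 : (l : ℂ) = -(l.natAbs : ℂ) := by
        conv_lhs => rw [h2, Int.cast_neg, Int.cast_natCast]
      have h4 := h.int_mul (-1)
      rw [h3] at h4
      have h5 : ((-1 : ℤ) : ℂ) * (-(l.natAbs : ℂ) * z) = (l.natAbs : ℂ) * z := by
        push_cast
        ring
      rwa [h5] at h4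
  have h2 : UU K z := hK.of_mul (Int.natAbs_pos.2 hl) h1
  rcases hz with ⟨_, h3⟩ | ⟨_, h3⟩
  · exact hp (h3 ▸ h2.2)
  · exact hp (h3 ▸ h2.1)

private theorem Good_mono {K K₁ : Subfield ℂ} (h : K ≤ K₁) {z : ℂ} (hz : UU K z) : UU K₁ z :=
  ⟨h hz.1, h hz.2⟩

private theorem Good_notMem {K : Subfield ℂ} {n : ℕ} {s : Fin n → ℂ} (hs : AlgebraicIndependent K s)
    (i : Fin n) : s i ∉ K := by
  intro h
  have h1 : Transcendental K (s i) := hs.transcendental i
  exact h1 (isAlgebraic_algebraMap (⟨_, h⟩ : K))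

private theorem Good_countable {K K₁ : Subfield ℂ} {p : ℂ} (hK : (K : Set ℂ).Countable)
    (h : IsExt K K₁ p) : (K₁ : Set ℂ).Countable := by
  have : Countable K := hK.to_subtype
  have h1 : Countable (IntermediateField.adjoin K ({p} : Set ℂ)) := by
    rw [← Cardinal.mk_le_aleph0_iff]
    refine (IntermediateField.cardinalMk_adjoin_le K ({p} : Set ℂ)).trans ?_
    refine max_le (max_le ?_ ?_) le_rfl
    · exact Cardinal.mk_le_aleph0_iff.2 inferInstance
    · exact Cardinal.mk_le_aleph0_iff.2 inferInstance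
  have h2 : Countable (algebraicClosure (IntermediateField.adjoin K ({p} : Set ℂ)) ℂ) := by
    have h := Algebra.IsAlgebraic.cardinalMk_le_max (IntermediateField.adjoin K ({p} : Set ℂ))
      (algebraicClosure (IntermediateField.adjoin K ({p} : Set ℂ)) ℂ)
    rw [← Cardinal.mk_le_aleph0_iff]
    exact h.trans (max_le (Cardinal.mk_le_aleph0_iff.2 inferInstance) le_rfl)
  have h3 : ((algebraicClosure (IntermediateField.adjoin K ({p} : Set ℂ)) ℂ : Set ℂ)).Countable :=
    Set.countable_coe_iff.1 h2
  refine h3.mono ?_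
  intro x hx
  exact mem_algebraicClosure_iff.2 (h.alg x hx)

/-- **The step for one field.** `K₁` is the algebraic closure of `K(p)`, where `p` is the one of `z`, `exp z` which
is not in `K`.

Proof. `z, exp z ∈ K₁` (one is in `K`, the other is `p`), i.e. `UU K₁ z`.
* `K₁` is countable (`K` is, hence `IntermediateField.adjoin K {p}` is, and `K₁` is algebraic over it; compare
  `SC.countable_adjoin_set`, `SC.countable_algClosure`), `h.closed`, `h.le hK.period`.
* `ax`: let `v : Fin n → ℂ` with `UU K₁ (∑ m i * v i) → m = 0`. Put `v' = Fin.cons z v`. If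
  `UU K (∑ m i * v' i)`, `∑ m i * v' i = m 0 * z + ∑ m (i + 1) * v i`, then `UU K₁` of
  `∑ m (i + 1) * v i = ∑ m i * v' i + (- m 0) * z` (`UU K ⊆ UU K₁`), so `m (i + 1) = 0`, and `UU K (m 0 * z)`, so
  `m 0 = 0` by `Good.not_mul`. `hK.ax` gives `n + 1` elements `s j` among `z, v i, exp z, exp (v i)`, algebraically
  independent over `K`. By `exists_drop_mem` `n` of them are algebraically independent over `K₁` and different from
  `p`; they are not in `K` (an element of `K` is not part of a family which is algebraically independent over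
  `K`), so they are neither `z` nor `exp z` and are among `v i, exp (v i)`.
* The second claim: let `UU K₁ w` and suppose there are no such `M`, `l`. Let `v' = ![z, w]`. If
  `UU K (m 0 * z + m 1 * w)` then `m 1 = 0`: otherwise take `M = (m 1).natAbs` and `l = ∓ m 0` (`UU.int_mul` with
  `± 1`); then `m 0 = 0` by `Good.not_mul`. `hK.ax` gives two elements of `{z, w, exp z, exp w} ⊆ K₁` which are
  algebraically independent over `K`; by `exists_drop` (`n = 1`) one of them is transcendental over `K₁`: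
  contradiction. -/
theorem Good.step {K K₁ : Subfield ℂ} (hK : Good K) {z p : ℂ}
    (hz : (z ∈ K ∧ p = Complex.exp z) ∨ (Complex.exp z ∈ K ∧ p = z)) (hp : p ∉ K)
    (h : IsExt K K₁ p) :
    Good K₁ ∧ ∀ w, UU K₁ w → ∃ (M : ℕ) (l : ℤ), 0 < M ∧ UU K (M * w - l * z) := by
  have hz1 : UU K₁ z := by
    rcases hz with ⟨h1, h2⟩ | ⟨h1, h2⟩
    · exact ⟨h.le h1, h2 ▸ h.mem⟩
    · exact ⟨h2 ▸ h.mem, h.le h1⟩
  refine ⟨⟨Good_countable hK.countable h, h.closed, h.le hK.period, ?_⟩, ?_⟩
  · intro n v hv
    obtain ⟨s, hs, hs2⟩ := hK.ax (n + 1) (Fin.cons z v) (by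
      intro m hm
      rw [Fin.sum_univ_succ] at hm
      simp only [Fin.cons_zero, Fin.cons_succ] at hm
      have h1 : (fun i : Fin n => m i.succ) = 0 := by
        apply hv
        have h2 := (Good_mono h.le hm).add (hz1.int_mul (-m 0))
        have h3 : (m 0 : ℂ) * z + ∑ i : Fin n, (m i.succ : ℂ) * v i + ((-m 0 : ℤ) : ℂ) * z =
            ∑ i : Fin n, (m i.succ : ℂ) * v i := by
          push_cast
          ring
        rwa [h3] at h2
      have h2 : ∀ i : Fin n, m i.succ = 0 := fun i => congrFun h1 i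
      have h3 : ∑ i : Fin n, (m i.succ : ℂ) * v i = 0 := by
        refine Finset.sum_eq_zero (fun i _ => ?_)
        rw [h2 i]
        simp
      rw [h3, add_zero] at hm
      have h4 : m 0 = 0 := hK.not_mul hz hp hm
      funext i
      refine Fin.cases ?_ ?_ i
      · exact h4
      · intro j
        exact h2 j)
    obtain ⟨e, he⟩ := exists_drop h s hs
    refine ⟨fun i => s (e i), he, ?_⟩
    intro j
    have h1 : s (e j) ∉ K₁ := Good_notMem he j
    show s (e j) ∈ _
    rcases hs2 (e j) with ⟨i, hi⟩ | ⟨i, hi⟩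
    · rw [← hi] at h1 ⊢
      revert h1
      refine Fin.cases ?_ ?_ i
      · intro h1
        exact absurd hz1.1 (by simpa using h1)
      · intro i' _
        left
        exact ⟨i', by simp⟩
    · simp only at hi
      rw [← hi] at h1 ⊢
      revert h1
      refine Fin.cases ?_ ?_ i
      · intro h1
        exact absurd hz1.2 (by simpa using h1)
      · intro i' _
        right
        exact ⟨i', by simp⟩
  · intro w hw
    by_contra hne
    have hne' : ∀ (M : ℕ) (l : ℤ), 0 < M → ¬ UU K (M * w - l * z) := by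
      intro M l hM hU
      exact hne ⟨M, l, hM, hU⟩
    obtain ⟨s, hs, hs2⟩ := hK.ax 2 ![z, w] (by
      intro m hm
      rw [Fin.sum_univ_two] at hm
      simp only [Matrix.cons_val_zero, Matrix.cons_val_one] at hm
      have h1 : m 1 = 0 := by
        by_contra h2
        have h3 := Int.natAbs_pos.2 h2
        rcases Int.natAbs_eq (m 1) with h4 | h4
        · have h5 : (m 1 : ℂ) = ((m 1).natAbs : ℂ) := by
            conv_lhs => rw [h4, Int.cast_natCast]
          refine hne' (m 1).natAbs (-m 0) h3 ?_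
          rw [← h5]
          have h6 : (m 1 : ℂ) * w - ((-m 0 : ℤ) : ℂ) * z = (m 0 : ℂ) * z + (m 1 : ℂ) * w := by
            push_cast
            ring
          rw [h6]
          exact hm
        · have h5 : (m 1 : ℂ) = -((m 1).natAbs : ℂ) := by
            conv_lhs => rw [h4, Int.cast_neg, Int.cast_natCast]
          refine hne' (m 1).natAbs (m 0) h3 ?_
          have h6 : ((m 1).natAbs : ℂ) * w - (m 0 : ℂ) * z =
              ((-1 : ℤ) : ℂ) * ((m 0 : ℂ) * z + (m 1 : ℂ) * w) := by
            rw [h5]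
            push_cast
            ring
          rw [h6]
          exact hm.int_mul (-1)
      rw [h1] at hm
      have h2 : (m 0 : ℂ) * z + ((0 : ℤ) : ℂ) * w = (m 0 : ℂ) * z := by
        push_cast
        ring
      rw [h2] at hm
      have h4 : m 0 = 0 := hK.not_mul hz hp hm
      funext i
      fin_cases i
      · exact h4
      · exact h1)
    obtain ⟨e, he⟩ := exists_drop h s hs
    have h1 : s (e 0) ∉ K₁ := Good_notMem he 0
    rcases hs2 (e 0) with ⟨i, hi⟩ | ⟨i, hi⟩
    · rw [← hi] at h1
      revert h1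
      fin_cases i
      · intro h1
        exact h1 hz1.1
      · intro h1
        exact h1 hw.1
    · rw [← hi] at h1
      revert h1
      fin_cases i
      · intro h1
        exact h1 hz1.2
      · intro h1
        exact h1 hw.2

end Pool.Agent.Lib.MP_209724_lc.QM
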