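import Mathlib
import Pool.Agent.Lib.MP_209724_lc.QM.Good

section

namespace Pool.Agent.Lib.MP_209724_lc.QM

open Cardinal in
/-- A transcendence basis of the complex numbers over a countable field which contains a given
transcendental element; its cardinality is that of the continuum. -/
private theorem move_basis (K : Subfield ℂ) (hK : (K : Set ℂ).Countable)
    (hcl : ∀ z : ℂ, IsAlgebraic K z → z ∈ K) {p : ℂ} (hp : p ∉ K) :
    ∃ B : Set ℂ, p ∈ B ∧ IsTranscendenceBasis K ((↑) : B → ℂ) ∧ #B = #ℂ := by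
  have htr : Transcendental K p := fun h => hp (hcl p h)
  have hind : AlgebraicIndepOn K id ({p} : Set ℂ) :=
    algebraicIndependent_unique_type_iff.mpr htr
  obtain ⟨B, hB1, hB2⟩ := exists_isTranscendenceBasis_superset hind
  refine ⟨B, hB1 (Set.mem_singleton p), hB2, ?_⟩
  have h1 := IsAlgClosed.cardinal_eq_cardinal_transcendence_basis_of_aleph0_lt
    ((↑) : B → ℂ) hB2 (le_aleph0_iff_set_countable.2 hK)
    (by rw [Cardinal.mk_complex]; exact Cardinal.aleph0_lt_continuum)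
  rw [Cardinal.lift_id, Cardinal.lift_id] at h1
  exact h1.symm

/-- **Automorphisms of `ℂ` over a countable algebraically closed field move transcendental elements.**

Proof. `p` and `q` are transcendental over `K`, so `![p]`, `![q]` are algebraically independent over `K`; extend
them to transcendence bases `Bp ∋ p`, `Bq ∋ q` of `ℂ` over `K` (`exists_isTranscendenceBasis'`,
`AlgebraicIndependent... exists_isTranscendenceBasis_superset` or similar). Both have the cardinality of the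
continuum because `K` is countable (`IsAlgClosed.cardinal_le_max_transcendence_basis` and
`Cardinal.mk_complex`; if `Bp` had cardinality less than the continuum, `ℂ` would, too). The complements of `p`
in `Bp` and of `q` in `Bq` have the same (infinite) cardinality, so there is a bijection `e : Bp ≃ Bq` with
`e p = q` (for instance any bijection composed with a transposition, `Equiv.swap`). Take
`IsAlgClosed.equivOfTranscendenceBasis`, a `K`-algebra isomorphism `ℂ ≃ₐ[K] ℂ`, which maps `p` to `q`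
(`IsAlgClosed.equivOfTranscendenceBasis` and a lemma about its values, or construct it by hand:
`AlgEquiv` of the adjoined algebras, `IsAlgClosure.equivOfEquiv`). -/
theorem exists_move (K : Subfield ℂ) (hK : (K : Set ℂ).Countable)
    (hcl : ∀ z : ℂ, IsAlgebraic K z → z ∈ K) {p q : ℂ} (hp : p ∉ K) (hq : q ∉ K) :
    ∃ ρ : ℂ ≃+* ℂ, (∀ z ∈ K, ρ z = z) ∧ ρ p = q := by
  classical
  obtain ⟨B, hpB, hB, hBc⟩ := move_basis K hK hcl hp
  obtain ⟨B', hqB, hB', hBc'⟩ := move_basis K hK hcl hq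
  obtain ⟨e0⟩ := Cardinal.eq.1 (hBc.trans hBc'.symm)
  obtain ⟨e, he⟩ : ∃ e : B ≃ B', e ⟨p, hpB⟩ = ⟨q, hqB⟩ :=
    ⟨e0.trans (Equiv.swap (e0 ⟨p, hpB⟩) ⟨q, hqB⟩), by simp⟩
  let := IsAlgClosed.isAlgClosure_of_transcendence_basis _ hB
  let := IsAlgClosed.isAlgClosure_of_transcendence_basis _ hB'
  let ε : Algebra.adjoin K (Set.range ((↑) : B → ℂ)) ≃ₐ[K]
      Algebra.adjoin K (Set.range ((↑) : B' → ℂ)) :=
    (hB.1.aevalEquiv.symm.trans (MvPolynomial.renameEquiv K e)).trans hB'.1.aevalEquiv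
  refine ⟨IsAlgClosure.equivOfEquiv ℂ ℂ ε.toRingEquiv, ?_, ?_⟩
  · intro z hz
    have h1 := IsAlgClosure.equivOfEquiv_algebraMap ℂ ℂ ε.toRingEquiv
      (algebraMap K _ (⟨z, hz⟩ : K))
    have h2 : ε.toRingEquiv (algebraMap K _ (⟨z, hz⟩ : K)) = algebraMap K _ (⟨z, hz⟩ : K) :=
      ε.commutes _
    rw [h2] at h1
    exact h1
  · have h1 := IsAlgClosure.equivOfEquiv_algebraMap ℂ ℂ ε.toRingEquiv
      (hB.1.aevalEquiv (MvPolynomial.X ⟨p, hpB⟩))
    have h2 : ε.toRingEquiv (hB.1.aevalEquiv (MvPolynomial.X ⟨p, hpB⟩)) =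
        hB'.1.aevalEquiv (MvPolynomial.X ⟨q, hqB⟩) := by
      change hB'.1.aevalEquiv (MvPolynomial.renameEquiv K e (hB.1.aevalEquiv.symm
        (hB.1.aevalEquiv (MvPolynomial.X ⟨p, hpB⟩)))) = _
      rw [AlgEquiv.symm_apply_apply, MvPolynomial.renameEquiv_apply, MvPolynomial.rename_X, he]
    rw [h2, hB.1.algebraMap_aevalEquiv, hB'.1.algebraMap_aevalEquiv, MvPolynomial.aeval_X,
      MvPolynomial.aeval_X] at h1
    exact h1

/-- Extension of automorphisms. Proof. `K' = K.map σ` is countable and algebraically closed in `ℂ`, `σ p ∉ K'`;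
take `ρ` from `exists_move` for `K'`, `σ p`, `q` and `σ₁ = σ.trans ρ`. -/
theorem exists_extend (K : Subfield ℂ) (hK : (K : Set ℂ).Countable)
    (hcl : ∀ z : ℂ, IsAlgebraic K z → z ∈ K) (σ : ℂ ≃+* ℂ) {p q : ℂ} (hp : p ∉ K)
    (hq : q ∉ K.map (σ : ℂ →+* ℂ)) : ∃ σ₁ : ℂ ≃+* ℂ, (∀ z ∈ K, σ₁ z = σ z) ∧ σ₁ p = q := by
  have hK' : ((K.map (σ : ℂ →+* ℂ) : Subfield ℂ) : Set ℂ).Countable := by
    rw [Subfield.coe_map]
    exact hK.image _
  have hmem : ∀ z : ℂ, z ∈ K.map (σ : ℂ →+* ℂ) ↔ σ.symm z ∈ K := by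
    intro z
    rw [Subfield.mem_map]
    constructor
    · rintro ⟨x, hx, rfl⟩
      simpa using hx
    · intro h
      exact ⟨_, h, by simp⟩
  have hcl' : ∀ z : ℂ, IsAlgebraic (K.map (σ : ℂ →+* ℂ)) z → z ∈ K.map (σ : ℂ →+* ℂ) := by
    intro z hz
    rw [hmem]
    apply hcl
    obtain ⟨P, hP, hPz⟩ := hz
    let τ : K.map (σ : ℂ →+* ℂ) →+* K :=
      ((σ.symm : ℂ →+* ℂ).comp (K.map (σ : ℂ →+* ℂ)).subtype).codRestrict K
        (fun x => (hmem x).1 x.2)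
    have hτ : Function.Injective τ := τ.injective
    refine ⟨P.map τ, (Polynomial.map_ne_zero_iff hτ).2 hP, ?_⟩
    rw [Polynomial.aeval_def, Polynomial.eval₂_map]
    have h1 : (algebraMap K ℂ).comp τ =
        (σ.symm : ℂ →+* ℂ).comp (algebraMap (K.map (σ : ℂ →+* ℂ)) ℂ) := by
      ext x
      rfl
    rw [h1]
    have h2 := Polynomial.hom_eval₂ P (algebraMap (K.map (σ : ℂ →+* ℂ)) ℂ) (σ.symm : ℂ →+* ℂ) z
    rw [Polynomial.aeval_def] at hPz
    rw [hPz, map_zero] at h2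
    exact h2.symm
  have hp' : σ p ∉ K.map (σ : ℂ →+* ℂ) := by
    rw [hmem]
    simpa using hp
  obtain ⟨ρ, h1, h2⟩ := exists_move (K.map (σ : ℂ →+* ℂ)) hK' hcl' hp' hq
  refine ⟨σ.trans ρ, fun z hz => ?_, h2⟩
  exact h1 (σ z) ((hmem _).2 (by simpa using hz))

end Pool.Agent.Lib.MP_209724_lc.QM
end

section

namespace Pool.Agent.Lib.MP_209724_lc.QM

private theorem pairStep_transport {R S : Type} [CommRing R] [CommRing S] [Algebra R ℂ]
    [Algebra S ℂ] (g : ℂ →+* ℂ) (τ : R →+* S) (hτ : Function.Injective τ)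
    (h : ∀ x, algebraMap S ℂ (τ x) = g (algebraMap R ℂ x)) {x : ℂ} (hx : IsAlgebraic R x) :
    IsAlgebraic S (g x) := by
  obtain ⟨P, hP, hPx⟩ := hx
  refine ⟨P.map τ, (Polynomial.map_ne_zero_iff hτ).2 hP, ?_⟩
  rw [Polynomial.aeval_def, Polynomial.eval₂_map]
  have h1 : (algebraMap S ℂ).comp τ = g.comp (algebraMap R ℂ) := RingHom.ext h
  rw [h1]
  have h2 := Polynomial.hom_eval₂ P (algebraMap R ℂ) g x
  rw [Polynomial.aeval_def] at hPx
  rw [hPx, map_zero] at h2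
  exact h2.symm

/-- The image of an extension under an automorphism. Proof: transport of structure along `σ₁`
(`IsAlgebraic` over `K₁.map σ₁`: apply `σ₁⁻¹` to the coefficients of a polynomial; `K.map σ = K.map σ₁`). -/
theorem IsExt.map {K K₁ : Subfield ℂ} {p : ℂ} (h : IsExt K K₁ p) (σ σ₁ : ℂ ≃+* ℂ)
    (hσ : ∀ c ∈ K, σ₁ c = σ c) :
    IsExt (K.map (σ : ℂ →+* ℂ)) (K₁.map (σ₁ : ℂ →+* ℂ)) (σ₁ p) := by
  have hmem : ∀ z : ℂ, z ∈ K₁.map (σ₁ : ℂ →+* ℂ) ↔ σ₁.symm z ∈ K₁ := by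
    intro z
    rw [Subfield.mem_map]
    constructor
    · rintro ⟨x, hx, rfl⟩
      simpa using hx
    · intro h
      exact ⟨_, h, by simp⟩
  refine ⟨?_, ?_, ?_, ?_⟩
  · intro x hx
    rw [Subfield.mem_map] at hx
    obtain ⟨c, hc, rfl⟩ := hx
    exact Subfield.mem_map.2 ⟨c, h.le hc, hσ c hc⟩
  · exact Subfield.mem_map.2 ⟨p, h.mem, rfl⟩
  · intro x hx
    rw [hmem]
    apply h.closed
    let τ : K₁.map (σ₁ : ℂ →+* ℂ) →+* K₁ :=
      ((σ₁.symm : ℂ →+* ℂ).comp (K₁.map (σ₁ : ℂ →+* ℂ)).subtype).codRestrict K₁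
        (fun x => (hmem x).1 x.2)
    exact pairStep_transport (σ₁.symm : ℂ →+* ℂ) τ τ.injective (fun y => rfl) hx
  · intro x hx
    obtain ⟨y, hy, rfl⟩ := Subfield.mem_map.1 hx
    have hE : ∀ z ∈ IntermediateField.adjoin K ({p} : Set ℂ),
        σ₁ z ∈ IntermediateField.adjoin (K.map (σ : ℂ →+* ℂ)) ({σ₁ p} : Set ℂ) := by
      intro z hz
      induction hz using IntermediateField.adjoin_induction with
      | mem z hz =>
        rw [Set.mem_singleton_iff] at hz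
        subst hz
        exact IntermediateField.subset_adjoin _ _ (Set.mem_singleton _)
      | algebraMap c =>
        have h1 : σ₁ (c : ℂ) ∈ K.map (σ : ℂ →+* ℂ) :=
          Subfield.mem_map.2 ⟨c, c.2, (hσ c c.2).symm⟩
        exact (IntermediateField.adjoin (K.map (σ : ℂ →+* ℂ)) ({σ₁ p} : Set ℂ)).algebraMap_mem
          ⟨_, h1⟩
      | add x y _ _ hx hy => rw [map_add]; exact add_mem hx hy
      | inv x _ hx => rw [map_inv₀]; exact inv_mem hx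
      | mul x y _ _ hx hy => rw [map_mul]; exact mul_mem hx hy
    let τ : IntermediateField.adjoin K ({p} : Set ℂ) →+*
        IntermediateField.adjoin (K.map (σ : ℂ →+* ℂ)) ({σ₁ p} : Set ℂ) :=
      ((σ₁ : ℂ →+* ℂ).comp (algebraMap (IntermediateField.adjoin K ({p} : Set ℂ)) ℂ)).codRestrict
        (IntermediateField.adjoin (K.map (σ : ℂ →+* ℂ)) ({σ₁ p} : Set ℂ)).toSubfield.toSubring
        (fun x => hE x x.2)
    exact pairStep_transport (σ₁ : ℂ →+* ℂ) τ τ.injective (fun y => rfl) (h.alg y hy)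

/-- Compatibility up to torsion from a generating set. `K ⊆ K₁` are good, also `K' ⊆ K₁'`; `UU K₁ = UU K + ℚ z`,
`UU K₁' = UU K' + ℚ σ₁ z`, `σ₁ (exp z) = exp (σ₁ z)`, and `(K, σ)` is a pair. Then `(K₁, σ₁)` is a pair.

Proof. `iff`: let `w ∈ K₁`. If `exp w ∈ K₁` then `u = M w - l z`, `UU K u`, so `exp (σ u) ∈ K'` by `h.iff`, and
`exp (σ₁ w) ^ M = exp (σ₁ (M w)) = exp (σ₁ u) * exp (σ₁ z) ^ l = exp (σ u) * σ₁ (exp z) ^ l ∈ K₁'`
(`σ₁ u = σ u` because `u ∈ K`; `σ₁ (M w) = M σ₁ w`), and `exp (σ₁ w) ∈ K₁'` because `K₁'` is algebraically closed in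
`ℂ`. Conversely if `exp (σ₁ w) ∈ K₁'`, then `UU K₁' (σ₁ w)`, so `UU K' u'` for some `u' = M σ₁ w - l σ₁ z`; as
`u' ∈ K' = σ K`, `u' = σ u = σ₁ u` with `u ∈ K`, so `u = M w - l z`, and `exp u ∈ K` by `h.iff`; hence
`exp w ^ M = exp u * exp z ^ l ∈ K₁`.
`tor`: let `UU K₁ w`, `u = M w - l z` with `UU K u`; `h.tor u` gives `N` with `σ (exp (N u)) = exp (N σ u)`. Then
`σ₁ (exp (N M w)) = σ₁ (exp (N u)) * σ₁ (exp z) ^ (N l) = exp (N σ₁ u) * exp (σ₁ z) ^ (N l) = exp (N M σ₁ w)`; the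
number is `N * M`. -/
theorem Pair.extend {K K₁ : Subfield ℂ} {σ σ₁ : ℂ ≃+* ℂ} (h : Pair K σ) (hle : K ≤ K₁) {z : ℂ}
    (hz : UU K₁ z) (hσ : ∀ c ∈ K, σ₁ c = σ c) (hexp : σ₁ (Complex.exp z) = Complex.exp (σ₁ z))
    (hg : Good K₁) (hg' : Good (K₁.map (σ₁ : ℂ →+* ℂ)))
    (hu : ∀ w, UU K₁ w → ∃ (M : ℕ) (l : ℤ), 0 < M ∧ UU K (M * w - l * z))
    (hu' : ∀ w, UU (K₁.map (σ₁ : ℂ →+* ℂ)) w → ∃ (M : ℕ) (l : ℤ), 0 < M ∧
      UU (K.map (σ : ℂ →+* ℂ)) (M * w - l * σ₁ z)) : Pair K₁ σ₁ := by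
  have hle' : K.map (σ : ℂ →+* ℂ) ≤ K₁.map (σ₁ : ℂ →+* ℂ) := by
    intro x hx
    obtain ⟨c, hc, rfl⟩ := Subfield.mem_map.1 hx
    exact Subfield.mem_map.2 ⟨c, hle hc, hσ c hc⟩
  have hmem : ∀ w ∈ K₁, σ₁ w ∈ K₁.map (σ₁ : ℂ →+* ℂ) := fun w hw =>
    Subfield.mem_map.2 ⟨w, hw, rfl⟩
  have hz' : UU (K₁.map (σ₁ : ℂ →+* ℂ)) (σ₁ z) := ⟨hmem z hz.1, hexp ▸ hmem _ hz.2⟩
  refine ⟨hg, hg', ?_, ?_⟩
  · intro w hw
    constructor
    · intro he
      obtain ⟨M, l, hM, hU⟩ := hu w ⟨hw, he⟩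
      have h1 : UU (K₁.map (σ₁ : ℂ →+* ℂ)) (σ₁ (M * w - l * z)) := by
        refine ⟨hmem _ (hle hU.1), hle' ?_⟩
        rw [hσ _ hU.1]
        exact (h.iff _ hU.1).1 hU.2
      have h2 := h1.add (hz'.int_mul l)
      have h3 : σ₁ (M * w - l * z) + l * σ₁ z = (M : ℂ) * σ₁ w := by
        rw [map_sub, map_mul, map_mul, map_natCast, map_intCast]
        ring
      rw [h3] at h2
      exact (hg'.of_mul hM h2).2
    · intro he
      obtain ⟨M, l, hM, hU⟩ := hu' (σ₁ w) ⟨hmem w hw, he⟩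
      obtain ⟨c, hc, hc'⟩ := Subfield.mem_map.1 hU.1
      have h1 : σ c = M * σ₁ w - l * σ₁ z := hc'
      have h2 : c = M * w - l * z := by
        apply σ₁.injective
        rw [hσ c hc, h1, map_sub, map_mul, map_mul, map_natCast, map_intCast]
      have h3 : Complex.exp c ∈ K := by
        rw [h.iff c hc, h1]
        exact hU.2
      have h4 : UU K₁ c := ⟨hle hc, hle h3⟩
      have h5 := h4.add (hz.int_mul l)
      have h6 : c + l * z = (M : ℂ) * w := by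
        rw [h2]
        ring
      rw [h6] at h5
      exact (hg.of_mul hM h5).2
  · intro w hw
    obtain ⟨M, l, hM, hU⟩ := hu w hw
    obtain ⟨N, hN, hN'⟩ := h.tor _ hU
    refine ⟨N * M, Nat.mul_pos hN hM, ?_⟩
    have h1 : Complex.exp (N * (M * w - l * z)) ∈ K := by
      rw [Complex.exp_nat_mul]
      exact pow_mem hU.2 N
    have h2 : ((N * M : ℕ) : ℂ) * w = N * (M * w - l * z) + ((N * l : ℤ) : ℂ) * z := by
      push_cast
      ring
    have h3 : ((N * M : ℕ) : ℂ) * σ₁ w = N * σ (M * w - l * z) + ((N * l : ℤ) : ℂ) * σ₁ z := by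
      rw [← hσ _ hU.1, map_sub, map_mul, map_mul, map_natCast, map_intCast]
      push_cast
      ring
    rw [h2, h3, Complex.exp_add, Complex.exp_add, Complex.exp_int_mul z, Complex.exp_int_mul (σ₁ z),
      map_mul, map_zpow₀, hσ _ h1, hN', hexp]

/-- **The step for pairs.**

Proof. Write `K' = K.map σ`. First case, `z ∈ K`, `p = exp z ∉ K`: put `z' = σ z`; by `h.iff`, `exp z' ∉ K'`. Take
`σ₁` from `exists_extend` with `q = exp z'`; `σ₁ z = σ z = z'`. Second case, `exp z ∈ K`, `p = z ∉ K`: choose `z'`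
with `exp z' = σ (exp z)` (`Complex.exp_log`, `exp z ≠ 0`). Claim: `z' ∉ K'`. Otherwise `z' = σ z₀`, `z₀ ∈ K`, and
`exp (σ z₀) = σ (exp z) ∈ K'`, so `exp z₀ ∈ K` (`h.iff`), and by `h.tor` there is `N > 0` with
`σ (exp (N z₀)) = exp (N z') = σ (exp z) ^ N = σ (exp (N z))`, so `exp (N z₀) = exp (N z)`,
`N z₀ = N z + n (2 π i)` (`Complex.exp_eq_exp_iff_exists_int`), and `z ∈ K` because `2 π i ∈ K`: contradiction.
Take `σ₁` from `exists_extend` with `q = z'`.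
In both cases `σ₁ = σ` on `K` and `σ₁ (exp z) = exp (σ₁ z)`. By `IsExt.map`, `K₁.map σ₁` is the extension of `K'`
by `σ₁ p`, where `(σ₁ z ∈ K' ∧ σ₁ p = exp (σ₁ z)) ∨ (exp (σ₁ z) ∈ K' ∧ σ₁ p = σ₁ z)` and `σ₁ p ∉ K'`. Apply
`Good.step` to `K`, `z`, `p` and to `K'`, `σ₁ z`, `σ₁ p`, and `Pair.extend`. -/
theorem Pair.step {K K₁ : Subfield ℂ} {σ : ℂ ≃+* ℂ} (h : Pair K σ) {z p : ℂ}
    (hz : (z ∈ K ∧ p = Complex.exp z) ∨ (Complex.exp z ∈ K ∧ p = z)) (hp : p ∉ K)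
    (h₁ : IsExt K K₁ p) :
    ∃ σ₁ : ℂ ≃+* ℂ, (∀ c ∈ K, σ₁ c = σ c) ∧ σ₁ (Complex.exp z) = Complex.exp (σ₁ z) ∧
      Pair K₁ σ₁ ∧ ∀ w, UU K₁ w → ∃ (M : ℕ) (l : ℤ), 0 < M ∧ UU K (M * w - l * z) := by
  have hK := h.good
  obtain ⟨σ₁, hσ, hexp⟩ : ∃ σ₁ : ℂ ≃+* ℂ, (∀ c ∈ K, σ₁ c = σ c) ∧
      σ₁ (Complex.exp z) = Complex.exp (σ₁ z) := by
    rcases hz with ⟨h1, h2⟩ | ⟨h1, h2⟩
    · have hq : Complex.exp (σ z) ∉ K.map (σ : ℂ →+* ℂ) := by
        intro h3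
        exact hp (h2 ▸ (h.iff z h1).2 h3)
      obtain ⟨σ₁, h3, h4⟩ := exists_extend K hK.countable hK.closed σ hp hq
      refine ⟨σ₁, h3, ?_⟩
      rw [← h2, h4, h3 z h1]
    · have h0 : σ (Complex.exp z) ≠ 0 := by
        rw [Ne, EmbeddingLike.map_eq_zero_iff]
        exact Complex.exp_ne_zero z
      obtain ⟨z', hz'⟩ : ∃ z', Complex.exp z' = σ (Complex.exp z) := ⟨_, Complex.exp_log h0⟩
      have hq : z' ∉ K.map (σ : ℂ →+* ℂ) := by
        intro h3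
        obtain ⟨z₀, h4, h5⟩ := Subfield.mem_map.1 h3
        have h6 : σ z₀ = z' := h5
        have h7 : Complex.exp z₀ ∈ K := by
          rw [h.iff z₀ h4, h6, hz']
          exact Subfield.mem_map.2 ⟨_, h1, rfl⟩
        obtain ⟨N, hN, hN'⟩ := h.tor z₀ ⟨h4, h7⟩
        rw [h6, Complex.exp_nat_mul z', hz', ← map_pow, ← Complex.exp_nat_mul] at hN'
        have h8 := σ.injective hN'
        rw [Complex.exp_eq_exp_iff_exists_int] at h8
        obtain ⟨n, hn⟩ := h8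
        have hN0 : (N : ℂ) ≠ 0 := Nat.cast_ne_zero.2 hN.ne'
        have h9 : z = (N : ℂ)⁻¹ * (N * z₀ - n * (2 * Real.pi * Complex.I)) := by
          rw [hn]
          field_simp
          ring
        apply hp
        rw [h2, h9]
        exact mul_mem (inv_mem (natCast_mem K N))
          (sub_mem (mul_mem (natCast_mem K N) h4) (mul_mem (intCast_mem K n) hK.period))
      obtain ⟨σ₁, h3, h4⟩ := exists_extend K hK.countable hK.closed σ hp hq
      refine ⟨σ₁, h3, ?_⟩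
      rw [← h2, h4, h2, hz', h3 _ h1]
  have hmem : ∀ c ∈ K, σ₁ c ∈ K.map (σ : ℂ →+* ℂ) := fun c hc =>
    Subfield.mem_map.2 ⟨c, hc, (hσ c hc).symm⟩
  have hz1 : UU K₁ z := by
    rcases hz with ⟨h1, h2⟩ | ⟨h1, h2⟩
    · exact ⟨h₁.le h1, h2 ▸ h₁.mem⟩
    · exact ⟨h2 ▸ h₁.mem, h₁.le h1⟩
  have hz' : (σ₁ z ∈ K.map (σ : ℂ →+* ℂ) ∧ σ₁ p = Complex.exp (σ₁ z)) ∨
      (Complex.exp (σ₁ z) ∈ K.map (σ : ℂ →+* ℂ) ∧ σ₁ p = σ₁ z) := by
    rcases hz with ⟨h1, h2⟩ | ⟨h1, h2⟩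
    · exact Or.inl ⟨hmem z h1, by rw [h2, hexp]⟩
    · exact Or.inr ⟨hexp ▸ hmem _ h1, by rw [h2]⟩
  have hp' : σ₁ p ∉ K.map (σ : ℂ →+* ℂ) := by
    intro h1
    obtain ⟨c, hc, hc'⟩ := Subfield.mem_map.1 h1
    have h2 : σ c = σ₁ p := hc'
    rw [← hσ c hc] at h2
    exact hp (σ₁.injective h2 ▸ hc)
  obtain ⟨hg, hu⟩ := hK.step hz hp h₁
  obtain ⟨hg', hu'⟩ := h.good'.step hz' hp' (h₁.map σ σ₁ hσ)
  exact ⟨σ₁, hσ, hexp, h.extend h₁.le hz1 hσ hexp hg hg' hu hu', hu⟩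

end Pool.Agent.Lib.MP_209724_lc.QM
end
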