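import Mathlib
import Pool.Agent.Lib.MP_209724_lc.QM.PairStep

section

namespace Pool.Agent.Lib.MP_209724_lc.QM

theorem aut_general {A K L : Type} [CommRing A] [IsDomain A] [Countable A] [Field K] [Field L]
    [IsAlgClosed K] [IsAlgClosed L] [Algebra A K] [Algebra A L]
    (hK : Function.Injective (algebraMap A K)) (hL : Function.Injective (algebraMap A L))
    (hcK : Cardinal.aleph0 < Cardinal.mk K) (hKL : Cardinal.mk K = Cardinal.mk L) :
    ∃ ρ : K ≃+* L, ∀ a, ρ (algebraMap A K a) = algebraMap A L a := by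
  classical
  have : FaithfulSMul A K := (faithfulSMul_iff_algebraMap_injective A K).2 hK
  have : FaithfulSMul A L := (faithfulSMul_iff_algebraMap_injective A L).2 hL
  obtain ⟨B, hB⟩ := exists_isTranscendenceBasis A K
  obtain ⟨B', hB'⟩ := exists_isTranscendenceBasis A L
  have hA : Cardinal.mk A ≤ Cardinal.aleph0 := Cardinal.mk_le_aleph0
  have hc1 : Cardinal.mk K = Cardinal.mk B :=
    IsAlgClosed.cardinal_eq_cardinal_transcendence_basis_of_aleph0_lt' _ hB hA hcK
  have hc2 : Cardinal.mk L = Cardinal.mk B' :=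
    IsAlgClosed.cardinal_eq_cardinal_transcendence_basis_of_aleph0_lt' _ hB' hA (hKL ▸ hcK)
  obtain ⟨e⟩ : Nonempty (B ≃ B') := Cardinal.eq.1 (hc1.symm.trans (hKL.trans hc2))
  let := IsAlgClosed.isAlgClosure_of_transcendence_basis _ hB
  let := IsAlgClosed.isAlgClosure_of_transcendence_basis _ hB'
  let ε : Algebra.adjoin A (Set.range ((↑) : B → K)) ≃ₐ[A]
      Algebra.adjoin A (Set.range ((↑) : B' → L)) :=
    (hB.1.aevalEquiv.symm.trans (MvPolynomial.renameEquiv A e)).trans hB'.1.aevalEquiv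
  refine ⟨IsAlgClosure.equivOfEquiv K L ε.toRingEquiv, fun a => ?_⟩
  have h1 := IsAlgClosure.equivOfEquiv_algebraMap K L ε.toRingEquiv (algebraMap A _ a)
  have h2 : ε.toRingEquiv (algebraMap A _ a) = algebraMap A _ a := ε.commutes _
  rw [h2] at h1
  exact h1

/-- **Extension of isomorphisms between countable subrings of `ℂ` to automorphisms of `ℂ`.**

Proof (compare the proof of `exists_move` in `QM/Move.lean`). Prove it first for two algebraically closed fields
`K`, `L` of cardinality of the continuum which are algebras over the countable domain `A` with injective algebra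
maps (`FaithfulSMul A K`, `FaithfulSMul A L`): transcendence bases `B` of `K`, `B'` of `L` over `A`
(`exists_isTranscendenceBasis'` or similar) have the cardinality of the continuum
(`IsAlgClosed.cardinal_eq_cardinal_transcendence_basis_of_aleph0_lt`), so there is a bijection `e : B ≃ B'`;
`K` is an algebraic closure of `Algebra.adjoin A (range B) ≅ MvPolynomial B A`
(`IsAlgClosed.isAlgClosure_of_transcendence_basis`, `AlgebraicIndependent.aevalEquiv`), and
`IsAlgClosure.equivOfEquiv` gives the isomorphism `K ≃+* L`, which is compatible with the algebra maps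
(`IsAlgClosure.equivOfEquiv_algebraMap`). Then apply this to `ℂ`, `ℂ` with the algebra structures `f.toAlgebra` and
`g.toAlgebra`. -/
theorem exists_aut {A : Type} [CommRing A] [IsDomain A] [Countable A] (f g : A →+* ℂ)
    (hf : Function.Injective f) (hg : Function.Injective g) :
    ∃ ρ : ℂ ≃+* ℂ, ∀ a, ρ (f a) = g a := by
  have hc : Cardinal.aleph0 < Cardinal.mk ℂ := by
    rw [Cardinal.mk_complex]
    exact Cardinal.aleph0_lt_continuum
  exact @aut_general A ℂ ℂ _ _ _ _ _ _ _ f.toAlgebra g.toAlgebra hf hg hc rfl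

end Pool.Agent.Lib.MP_209724_lc.QM
end

section

namespace Pool.Agent.Lib.MP_209724_lc.QM

/-- **Independence of the powers `exp (q z)`, `q ∈ ℚ`.**

Proof. Let `f : AddMonoidAlgebra K ℚ`, `∑ q, f q * exp (q z) = 0`. Let `N` be a common denominator of the `q` in the
support, `q = k q / N` with `k q ∈ ℤ` (different for different `q`). `p = exp (z / N)` is transcendental over `K`
(`p ^ N = exp z ∉ K`, and `K` is algebraically closed in `ℂ`), and `∑ q, f q * p ^ k q = 0`; multiply by a power of `p` to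
have nonnegative exponents: a polynomial relation for `p` over `K`, so all `f q` vanish. -/
theorem expHom_injective (K : Subfield ℂ) (hcl : ∀ z : ℂ, IsAlgebraic K z → z ∈ K)
    (τ : K →+* ℂ) (K' : Subfield ℂ) (hτ : ∀ c, τ c ∈ K')
    (hcl' : ∀ z : ℂ, IsAlgebraic K' z → z ∈ K') {z : ℂ} (hz : Complex.exp z ∉ K')
    (Φ : AddMonoidAlgebra K ℚ →+* ℂ)
    (hΦ : ∀ (q : ℚ) (c : K), Φ (AddMonoidAlgebra.single q c) = τ c * Complex.exp (q * z)) :
    Function.Injective Φ := by
  classical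
  rw [injective_iff_map_eq_zero]
  intro f hf
  by_contra hne
  have hsupp : f.coeff.support.Nonempty := by
    rw [Finsupp.support_nonempty_iff]
    intro h0
    exact hne (AddMonoidAlgebra.coeff_eq_zero.mp h0)
  set S := f.coeff.support with hS
  -- the common denominator
  let N : ℕ := ∏ q ∈ S, q.den
  have hN : 0 < N := Finset.prod_pos fun q _ => q.den_pos
  have hNC : (N : ℂ) ≠ 0 := by exact_mod_cast hN.ne'
  have hk : ∀ q ∈ S, ∃ k : ℤ, (k : ℚ) = q * N := by
    intro q hq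
    obtain ⟨c, hc⟩ : q.den ∣ N := Finset.dvd_prod_of_mem _ hq
    refine ⟨q.num * c, ?_⟩
    rw [hc]
    push_cast
    have h1 : q * q.den = q.num := Rat.mul_den_eq_num q
    calc (q.num : ℚ) * c = (q * q.den) * c := by rw [h1]
      _ = q * (q.den * c) := by ring
  choose! k hk using hk
  have hkinj : ∀ q ∈ S, ∀ q' ∈ S, k q = k q' → q = q' := by
    intro q hq q' hq' h
    have h1 := hk q hq
    have h2 := hk q' hq'
    rw [h, h2] at h1
    have hNQ : (N : ℚ) ≠ 0 := by exact_mod_cast hN.ne'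
    exact (mul_right_cancel₀ hNQ h1).symm
  set p : ℂ := Complex.exp (z / N) with hp
  have hpN : p ^ N = Complex.exp z := by
    rw [hp, ← Complex.exp_nat_mul]
    congr 1
    field_simp
  have hp0 : p ≠ 0 := Complex.exp_ne_zero _
  have hpow : ∀ q ∈ S, Complex.exp (q * z) = p ^ (k q) := by
    intro q hq
    rw [hp, ← Complex.exp_int_mul]
    congr 1
    have h1 : ((k q : ℚ) : ℂ) = ((q * N : ℚ) : ℂ) := by rw [hk q hq]
    push_cast at h1
    rw [h1]
    field_simp
  have htr : ¬ IsAlgebraic K' p := by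
    intro h
    apply hz
    rw [← hpN]
    exact pow_mem (hcl' p h) N
  -- the shift
  let M : ℤ := ∑ q ∈ S, |k q|
  have hM : ∀ q ∈ S, 0 ≤ k q + M := by
    intro q hq
    have h1 : |k q| ≤ M := Finset.single_le_sum (f := fun q => |k q|) (fun _ _ => abs_nonneg _) hq
    have h2 := neg_abs_le (k q)
    linarith
  let e : ℚ → ℕ := fun q => (k q + M).toNat
  have he : ∀ q ∈ S, ((e q : ℕ) : ℤ) = k q + M := fun q hq => Int.toNat_of_nonneg (hM q hq)
  have heinj : ∀ q ∈ S, ∀ q' ∈ S, e q = e q' → q = q' := by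
    intro q hq q' hq' h
    apply hkinj q hq q' hq'
    have h1 := he q hq
    have h2 := he q' hq'
    rw [h] at h1
    linarith
  let t : ℚ → K' := fun q => ⟨τ (f.coeff q), hτ _⟩
  let P : Polynomial K' := ∑ q ∈ S, Polynomial.monomial (e q) (t q)
  have hP0 : P ≠ 0 := by
    obtain ⟨q₀, hq₀⟩ := hsupp
    intro h0
    have h1 : P.coeff (e q₀) = t q₀ := by
      simp only [P, Polynomial.finsetSum_coeff, Polynomial.coeff_monomial]
      rw [Finset.sum_eq_single q₀]
      · simp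
      · intro q hq hqq
        rw [if_neg]
        intro h2
        exact hqq (heinj q hq q₀ hq₀ h2)
      · intro h2; exact absurd hq₀ h2
    rw [h0, Polynomial.coeff_zero] at h1
    have h2 : τ (f.coeff q₀) = 0 := by
      have := congrArg (fun x : K' => (x : ℂ)) h1
      exact this.symm
    have h3 : f.coeff q₀ = 0 := (map_eq_zero τ).mp h2
    exact (Finsupp.mem_support_iff.mp hq₀) h3
  apply htr
  refine ⟨P, hP0, ?_⟩
  have hsum : f = ∑ q ∈ S, AddMonoidAlgebra.single q (f.coeff q) := by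
    have := AddMonoidAlgebra.sum_coeff_single f
    rw [Finsupp.sum] at this
    exact this.symm
  have hΦf : ∑ q ∈ S, τ (f.coeff q) * Complex.exp (q * z) = 0 := by
    rw [hsum, map_sum] at hf
    rw [← hf]
    refine Finset.sum_congr rfl fun q _ => ?_
    rw [hΦ]
  have : Polynomial.aeval p P = p ^ M * ∑ q ∈ S, τ (f.coeff q) * Complex.exp (q * z) := by
    simp only [P, map_sum, Polynomial.aeval_monomial, Finset.mul_sum]
    refine Finset.sum_congr rfl fun q hq => ?_
    have h1 : (algebraMap K' ℂ) (t q) = τ (f.coeff q) := rfl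
    rw [h1, hpow q hq, ← zpow_natCast, he q hq, zpow_add₀ hp0]
    ring
  rw [this, hΦf, mul_zero]

/-- The homomorphism exists (`AddMonoidAlgebra.lift` or `AddMonoidAlgebra.liftNCRingHom`). -/
theorem exists_expHom (K : Subfield ℂ) (τ : K →+* ℂ) (z : ℂ) :
    ∃ Φ : AddMonoidAlgebra K ℚ →+* ℂ, ∀ (q : ℚ) (c : K),
      Φ (AddMonoidAlgebra.single q c) = τ c * Complex.exp (q * z) := by
  let g : Multiplicative ℚ →* ℂ :=
    { toFun := fun q => Complex.exp ((Multiplicative.toAdd q : ℚ) * z)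
      map_one' := by simp
      map_mul' := by
        intro a b
        rw [← Complex.exp_add]
        congr 1
        rw [toAdd_mul]
        push_cast
        ring }
  refine ⟨AddMonoidAlgebra.liftNCRingHom τ g fun _ _ => Commute.all _ _, ?_⟩
  intro q c
  exact AddMonoidAlgebra.liftNC_single _ _ _ _

/-- **Extension of automorphisms with prescribed values on all roots of `exp z`.**

Proof. `A = AddMonoidAlgebra K ℚ` is a countable domain (`K` is countable; that it is a domain follows from an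
injective homomorphism to `ℂ`). Let `Φ`, `Φ'` be the homomorphisms of `exists_expHom` for `K.subtype`, `z` and for
`σ` restricted to `K`, `z'`; both are injective (`expHom_injective`; `K.map σ` is algebraically closed in `ℂ`).
`exists_aut` gives `σ₁` with `σ₁ (Φ a) = Φ' a` for all `a`; take `a = single 0 c` and `a = single (1 / N) 1`. -/
theorem exists_extend_roots (K : Subfield ℂ) (hK : (K : Set ℂ).Countable)
    (hcl : ∀ z : ℂ, IsAlgebraic K z → z ∈ K) (σ : ℂ ≃+* ℂ) {z z' : ℂ}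
    (hz : Complex.exp z ∉ K) (hz' : Complex.exp z' ∉ K.map (σ : ℂ →+* ℂ)) :
    ∃ σ₁ : ℂ ≃+* ℂ, (∀ c ∈ K, σ₁ c = σ c) ∧
      ∀ N : ℕ, 0 < N → σ₁ (Complex.exp (z / N)) = Complex.exp (z' / N) := by
  have : Countable K := hK.to_subtype
  obtain ⟨Φ, hΦ⟩ := exists_expHom K K.subtype z
  obtain ⟨Φ', hΦ'⟩ := exists_expHom K ((σ : ℂ →+* ℂ).comp K.subtype) z'
  have hinj : Function.Injective Φ :=
    expHom_injective K hcl K.subtype K (fun c => c.2) hcl hz Φ hΦ
  have hcl' : ∀ w : ℂ, IsAlgebraic (K.map (σ : ℂ →+* ℂ)) w → w ∈ K.map (σ : ℂ →+* ℂ) := by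
    intro w hw
    obtain ⟨P, hP0, hP⟩ := hw
    have hmem : ∀ x : K.map (σ : ℂ →+* ℂ), σ.symm (x : ℂ) ∈ K := by
      rintro ⟨x, y, hy, rfl⟩
      change σ.symm (σ y) ∈ K
      rw [σ.symm_apply_apply]; exact hy
    let g : K.map (σ : ℂ →+* ℂ) →+* K :=
      RingHom.codRestrict (((σ.symm : ℂ ≃+* ℂ) : ℂ →+* ℂ).comp (K.map (σ : ℂ →+* ℂ)).subtype) K hmem
    have hg : IsAlgebraic K (σ.symm w) := by
      refine ⟨P.map g, ?_, ?_⟩
      · rw [Ne, Polynomial.map_eq_zero]; exact hP0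
      · rw [Polynomial.aeval_def, Polynomial.eval₂_map]
        have h1 : (algebraMap K ℂ).comp g =
            ((σ.symm : ℂ ≃+* ℂ) : ℂ →+* ℂ).comp (algebraMap (K.map (σ : ℂ →+* ℂ)) ℂ) := by
          ext x; rfl
        rw [h1]
        have h2 := congrArg ((σ.symm : ℂ ≃+* ℂ) : ℂ →+* ℂ) hP
        rw [Polynomial.aeval_def, Polynomial.hom_eval₂, map_zero] at h2
        exact h2
    refine ⟨σ.symm w, hcl _ hg, ?_⟩
    exact σ.apply_symm_apply w
  have hinj' : Function.Injective Φ' :=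
    expHom_injective K hcl ((σ : ℂ →+* ℂ).comp K.subtype) (K.map (σ : ℂ →+* ℂ))
      (fun c => ⟨c, c.2, rfl⟩) hcl' hz' Φ' hΦ'
  have : IsDomain (AddMonoidAlgebra K ℚ) := hinj.isDomain Φ
  have : Countable (AddMonoidAlgebra K ℚ) :=
    (AddMonoidAlgebra.coeff_injective (R := K) (M := ℚ)).countable
  obtain ⟨ρ, hρ⟩ := exists_aut Φ Φ' hinj hinj'
  refine ⟨ρ, ?_, ?_⟩
  · intro c hc
    have h1 := hρ (AddMonoidAlgebra.single 0 ⟨c, hc⟩)
    rw [hΦ, hΦ'] at h1
    simpa using h1
  · intro N hN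
    have h1 := hρ (AddMonoidAlgebra.single (1 / N : ℚ) 1)
    rw [hΦ, hΦ'] at h1
    simp only [map_one, one_mul] at h1
    push_cast at h1
    have e1 : (1 / (N : ℂ)) * z = z / N := by ring
    have e2 : (1 / (N : ℂ)) * z' = z' / N := by ring
    rw [e1, e2] at h1
    exact h1

end Pool.Agent.Lib.MP_209724_lc.QM
end

section

namespace Pool.Agent.Lib.MP_209724_lc.QM

/-- `σ` is exactly compatible with `exp` on `K`. -/
structure EPair (K : Subfield ℂ) (σ : ℂ ≃+* ℂ) : Prop where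
  good : Good K
  good' : Good (K.map (σ : ℂ →+* ℂ))
  exact : ∀ z : ℂ, UU K z → σ (Complex.exp z) = Complex.exp (σ z)
  mem : ∀ z ∈ K, Complex.exp (σ z) ∈ K.map (σ : ℂ →+* ℂ) → Complex.exp z ∈ K

/-- `iff`: `exp (σ z) = σ (exp z)` if `UU K z`, and `mem`. `tor`: `N = 1`. -/
theorem EPair.pair {K : Subfield ℂ} {σ : ℂ ≃+* ℂ} (h : EPair K σ) : Pair K σ := by
  refine ⟨h.good, h.good', ?_, ?_⟩
  · intro z hz
    constructor
    · intro h1
      rw [← h.exact z ⟨hz, h1⟩]
      exact Subfield.mem_map.2 ⟨_, h1, rfl⟩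
    · exact h.mem z hz
  · intro z hz
    refine ⟨1, one_pos, ?_⟩
    simp only [Nat.cast_one, one_mul]
    exact h.exact z hz

/-- **The step for exact pairs.**

Proof. Write `K' = K.map σ`, `z' = σ z ∈ K'`; `exp z' ∉ K'` by `h.mem`. Let `K₁` be the extension of `K` by `p = exp z`
(`exists_ext`), `σ₁` from `exists_extend_roots`. `K₁.map σ₁` is the extension of `K'` by `σ₁ p = exp z'` (`IsExt.map`,
`N = 1`). `Good.step` for `K`, `z`, `p` and for `K'`, `z'`, `exp z'` gives `Good K₁`, `Good (K₁.map σ₁)` and that for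
every `w` with `UU K₁ w` there are `M > 0`, `l` with `UU K (M w - l z)`, similarly for `K₁.map σ₁`.
`exact`: let `UU K₁ w`, `u = (M w - l z) / M`; `UU K u` (`Good.of_mul`), `w = u + l (z / M)`, and
`σ₁ (exp w) = σ (exp u) * σ₁ (exp (z / M)) ^ l = exp (σ u) * exp (z' / M) ^ l = exp (σ₁ w)`
(`σ₁ w = σ u + l z' / M`).
`mem`: let `w ∈ K₁`, `exp (σ₁ w) ∈ K₁.map σ₁`; so `UU (K₁.map σ₁) (σ₁ w)`, and `u' = M σ₁ w - l z'` satisfies `UU K' u'`.
`u' = σ u₀` with `u₀ ∈ K`, and `σ₁ (M w - l z) = u' = σ u₀ = σ₁ u₀`, so `M w - l z = u₀ ∈ K`; by `h.mem`, `exp u₀ ∈ K`, and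
`exp w ^ M = exp u₀ * exp z ^ l ∈ K₁`, so `exp w ∈ K₁` (`K₁` is algebraically closed in `ℂ`). -/
theorem EPair.step {K : Subfield ℂ} {σ : ℂ ≃+* ℂ} (h : EPair K σ) {z : ℂ} (hz : z ∈ K)
    (hp : Complex.exp z ∉ K) :
    ∃ (K₁ : Subfield ℂ) (σ₁ : ℂ ≃+* ℂ), EPair K₁ σ₁ ∧ K ≤ K₁ ∧ (∀ c ∈ K, σ₁ c = σ c) ∧
      Complex.exp z ∈ K₁ := by
  obtain ⟨K₁, hK₁⟩ := exists_ext K (Complex.exp z)
  have hp' : Complex.exp (σ z) ∉ K.map (σ : ℂ →+* ℂ) := fun h1 => hp (h.mem z hz h1)
  obtain ⟨σ₁, hσ₁, hr⟩ := exists_extend_roots K h.good.countable h.good.closed σ hp hp'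
  have hexp : σ₁ (Complex.exp z) = Complex.exp (σ z) := by
    have h1 := hr 1 one_pos
    simpa using h1
  have hext' : IsExt (K.map (σ : ℂ →+* ℂ)) (K₁.map (σ₁ : ℂ →+* ℂ)) (Complex.exp (σ z)) := by
    have h1 := hK₁.map σ σ₁ hσ₁
    rwa [hexp] at h1
  have hzm : σ z ∈ K.map (σ : ℂ →+* ℂ) := Subfield.mem_map.2 ⟨z, hz, rfl⟩
  obtain ⟨hg, hu⟩ := h.good.step (Or.inl ⟨hz, rfl⟩) hp hK₁
  obtain ⟨hg', hu'⟩ := h.good'.step (Or.inl ⟨hzm, rfl⟩) hp' hext'
  have hz₁ : σ₁ z = σ z := hσ₁ z hz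
  refine ⟨K₁, σ₁, ⟨hg, hg', ?_, ?_⟩, hK₁.le, hσ₁, hK₁.mem⟩
  · intro w hw
    obtain ⟨M, l, hM, hU⟩ := hu w hw
    have hM0 : (M : ℂ) ≠ 0 := Nat.cast_ne_zero.2 hM.ne'
    have hUu : UU K (w - l * (z / M)) := by
      apply h.good.of_mul hM
      have h1 : (M : ℂ) * (w - l * (z / M)) = M * w - l * z := by
        field_simp
      rwa [h1]
    have hw1 : w = (w - l * (z / M)) + l * (z / M) := by ring
    have h2 : σ₁ (w - l * (z / M)) = σ (w - l * (z / M)) := hσ₁ _ hUu.1
    have h3 : σ₁ (Complex.exp (w - l * (z / M))) = Complex.exp (σ (w - l * (z / M))) := by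
      rw [hσ₁ _ hUu.2, h.exact _ hUu]
    have h4 : σ₁ w = σ (w - l * (z / M)) + l * (σ z / M) := by
      rw [← h2]
      conv_lhs => rw [hw1]
      rw [map_add, map_mul, map_div₀, map_intCast, map_natCast, hz₁]
    rw [h4, Complex.exp_add, Complex.exp_int_mul, ← h3, ← hr M hM, ← map_zpow₀, ← map_mul,
      ← Complex.exp_int_mul, ← Complex.exp_add, ← hw1]
  · intro w hw hw2
    obtain ⟨M, l, hM, hU⟩ := hu' (σ₁ w) ⟨Subfield.mem_map.2 ⟨w, hw, rfl⟩, hw2⟩
    obtain ⟨u₀, hu₀, hu₁⟩ := Subfield.mem_map.1 hU.1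
    have hu₂ : σ u₀ = M * σ₁ w - l * σ z := hu₁
    have h1 : σ₁ (M * w - l * z) = σ₁ u₀ := by
      rw [map_sub, map_mul, map_mul, map_natCast, map_intCast, hz₁, ← hu₂, hσ₁ u₀ hu₀]
    have h2 : M * w - l * z = u₀ := σ₁.injective h1
    have h3 : Complex.exp u₀ ∈ K := by
      apply h.mem u₀ hu₀
      rw [hu₂]
      exact hU.2
    have h4 : Complex.exp w ^ M ∈ K₁ := by
      have h5 : Complex.exp w ^ M = Complex.exp u₀ * Complex.exp z ^ l := by
        rw [← Complex.exp_nat_mul, ← Complex.exp_int_mul, ← Complex.exp_add, ← h2]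
        congr 1
        ring
      rw [h5]
      exact mul_mem (hK₁.le h3) (zpow_mem hK₁.mem l)
    apply hg.closed
    exact IsAlgebraic.of_pow hM (isAlgebraic_algebraMap (⟨_, h4⟩ : K₁))

end Pool.Agent.Lib.MP_209724_lc.QM
end
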