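import Mathlib
import Pool.Agent.Lib.MP_209724_lc.QM.PairStep
import Pool.Agent.Lib.MP_209724_lc.QM.EPair
import Pool.Agent.Lib.MP_209724_lc.SC.Ax4
import Pool.Agent.Lib.MP_209724_lc.SC.Ed10
import Pool.Agent.Lib.MP_209724_lc.SC.Ed3
import Pool.Agent.Lib.MP_209724_lc.SC.Final2

section

namespace Pool.Agent.Lib.MP_209724_lc.QM

/-- The properties of the field of `exists_base`. -/
structure IsBase (C : Subfield ℂ) : Prop where
  countable : (C : Set ℂ).Countable
  closed : ∀ z : ℂ, IsAlgebraic C z → z ∈ C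
  exp_mem : ∀ z : ℂ, Complex.exp z ∈ C ↔ z ∈ C
  ax : ∀ (n : ℕ) (v : Fin (n + 1) → ℂ),
    (∀ m : Fin (n + 1) → ℤ, ∑ i, (m i : ℂ) * v i ∈ C → m = 0) →
    ∃ s : Fin (n + 2) → ℂ, AlgebraicIndependent C s ∧
      ∀ j, s j ∈ Set.range v ∪ Set.range fun i => Complex.exp (v i)

private theorem start_notMem {K : Subfield ℂ} {n : ℕ} {s : Fin n → ℂ}
    (hs : AlgebraicIndependent K s) (i : Fin n) : s i ∉ K := by
  intro h
  have h1 : Transcendental K (s i) := hs.transcendental i
  exact h1 (isAlgebraic_algebraMap (⟨_, h⟩ : K))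

private theorem start_countable {K K₁ : Subfield ℂ} {p : ℂ} (hK : (K : Set ℂ).Countable)
    (h : IsExt K K₁ p) : (K₁ : Set ℂ).Countable := by
  have : Countable K := hK.to_subtype
  have h1 : Countable (IntermediateField.adjoin K ({p} : Set ℂ)) := by
    rw [← Cardinal.mk_le_aleph0_iff]
    refine (IntermediateField.cardinalMk_adjoin_le K ({p} : Set ℂ)).trans ?_
    refine max_le (max_le ?_ ?_) le_rfl
    · exact Cardinal.mk_le_aleph0_iff.2 inferInstance
    · exact Cardinal.mk_le_aleph0_iff.2 inferInstance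
  have h2 : Countable (algebraicClosure (IntermediateField.adjoin K ({p} : Set ℂ)) ℂ) := by
    have h := Algebra.IsAlgebraic.cardinalMk_le_max (IntermediateField.adjoin K ({p} : Set ℂ))
      (algebraicClosure (IntermediateField.adjoin K ({p} : Set ℂ)) ℂ)
    rw [← Cardinal.mk_le_aleph0_iff]
    exact h.trans (max_le (Cardinal.mk_le_aleph0_iff.2 inferInstance) le_rfl)
  have h3 : ((algebraicClosure (IntermediateField.adjoin K ({p} : Set ℂ)) ℂ : Set ℂ)).Countable :=
    Set.countable_coe_iff.1 h2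
  refine h3.mono ?_
  intro x hx
  exact mem_algebraicClosure_iff.2 (h.alg x hx)

private theorem start_int_mul {C : Subfield ℂ} {a : ℂ} (ha : a ∉ C) {m : ℤ}
    (hm : (m : ℂ) * a ∈ C) : m = 0 := by
  by_contra h0
  apply ha
  have h1 : (m : ℂ) ≠ 0 := Int.cast_ne_zero.2 h0
  have h2 := C.mul_mem (C.inv_mem (intCast_mem C m)) hm
  rwa [inv_mul_cancel_left₀ h1] at h2

/-- **The first field.** `K₀` is the algebraic closure of `C(a)`, `K` the algebraic closure of `K₀(exp a)`.

Proof. (1) `exp a ∉ K₀`: `C.ax` for `n = 0`, `v = ![a]` (`m 0 * a ∈ C` implies `m 0 = 0` as `a ∉ C`) gives two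
elements of `{a, exp a}` which are algebraically independent over `C`, so `a ≠ exp a` and by `exists_drop_mem`
(`K₁ = K₀`, `p = a`) `exp a` is transcendental over `K₀`.
(2) `K` is countable, algebraically closed in `ℂ`; `2 π i ∈ C ≤ K` because `exp (2 π i) = 1 ∈ C`.
(3) `ax` for `K`: let `v : Fin n → ℂ` with `UU K (∑ m i * v i) → m = 0`, `v' = Fin.cons a v`. If
`∑ m i * v' i = c ∈ C` then `∑ m (i + 1) * v i = c - m 0 * a`, which is in `UU K` (`c, exp c ∈ C`, `a, exp a ∈ K`),
so `m (i + 1) = 0`, `m 0 * a ∈ C`, `m 0 = 0`. By `C.ax` there are `n + 2` elements of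
`{a, exp a, v i, exp (v i)}` which are algebraically independent over `C`; apply `exists_drop_mem` twice: `n` of
them are algebraically independent over `K`; they are different from `a` and `exp a` (these are in `K`).
(4) The second claim: let `UU K z`, and suppose there are no such `M`, `l`. Then for `v = ![a, z]`,
`m 0 * a + m 1 * z ∈ C` implies `m 1 = 0` (otherwise `M = (m 1).natAbs`, `l = ∓ m 0`) and then `m 0 = 0`; so
by `C.ax` (`n = 1`) there are three elements of `{a, exp a, z, exp z} ⊆ K` which are algebraically independent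
over `C`. By `exists_drop` twice one of them is transcendental over `K`: contradiction. -/
theorem IsBase.good {C K₀ K : Subfield ℂ} (hC : IsBase C) {a : ℂ} (ha : a ∉ C)
    (h₀ : IsExt C K₀ a) (h : IsExt K₀ K (Complex.exp a)) :
    Complex.exp a ∉ K₀ ∧ Good K ∧
      ∀ z, UU K z → ∃ (M : ℕ) (l : ℤ), 0 < M ∧ M * z - l * a ∈ C := by
  have hCK : C ≤ K := h₀.le.trans h.le
  have hUa : UU K a := ⟨h.le h₀.mem, h.mem⟩
  have hUC : ∀ c ∈ C, UU K c := fun c hc => ⟨hCK hc, hCK ((hC.exp_mem c).2 hc)⟩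
  refine ⟨?_, ⟨start_countable (start_countable hC.countable h₀) h, h.closed, ?_, ?_⟩, ?_⟩
  · obtain ⟨s, hs, hs2⟩ := hC.ax 0 ![a] (by
      intro m hm
      rw [Fin.sum_univ_one] at hm
      simp only [Matrix.cons_val_fin_one] at hm
      funext i
      fin_cases i
      exact start_int_mul ha hm)
    obtain ⟨e, he, he2⟩ := exists_drop_mem h₀ s hs
    have h1 : s (e 0) ∉ K₀ := start_notMem he 0
    rcases hs2 (e 0) with ⟨i, hi⟩ | ⟨i, hi⟩
    · exfalso
      apply he2 0
      rw [← hi]
      fin_cases i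
      rfl
    · have h2 : Complex.exp a = s (e 0) := by
        rw [← hi]
        fin_cases i
        rfl
      rw [h2]
      exact h1
  · apply hCK
    rw [← hC.exp_mem, Complex.exp_two_pi_mul_I]
    exact one_mem C
  · intro n v hv
    obtain ⟨s, hs, hs2⟩ := hC.ax n (Fin.cons a v) (by
      intro m hm
      rw [Fin.sum_univ_succ] at hm
      simp only [Fin.cons_zero, Fin.cons_succ] at hm
      have h1 : (fun i : Fin n => m i.succ) = 0 := by
        apply hv
        have h2 := (hUC _ hm).add (hUa.int_mul (-m 0))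
        have h3 : (m 0 : ℂ) * a + ∑ i : Fin n, (m i.succ : ℂ) * v i + ((-m 0 : ℤ) : ℂ) * a =
            ∑ i : Fin n, (m i.succ : ℂ) * v i := by
          push_cast
          ring
        rwa [h3] at h2
      have h2 : ∀ i : Fin n, m i.succ = 0 := fun i => congrFun h1 i
      have h3 : ∑ i : Fin n, (m i.succ : ℂ) * v i = 0 := by
        refine Finset.sum_eq_zero (fun i _ => ?_)
        rw [h2 i]
        simp
      rw [h3, add_zero] at hm
      have h4 : m 0 = 0 := start_int_mul ha hm
      funext i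
      refine Fin.cases ?_ ?_ i
      · exact h4
      · intro j
        exact h2 j)
    obtain ⟨e, he⟩ := exists_drop h₀ s hs
    obtain ⟨e', he'⟩ := exists_drop h (fun i => s (e i)) he
    refine ⟨fun i => s (e (e' i)), he', ?_⟩
    intro j
    have h1 : s (e (e' j)) ∉ K := start_notMem he' j
    show s (e (e' j)) ∈ _
    rcases hs2 (e (e' j)) with ⟨i, hi⟩ | ⟨i, hi⟩
    · rw [← hi] at h1 ⊢
      revert h1
      refine Fin.cases ?_ ?_ i
      · intro h1
        exact absurd hUa.1 (by simpa using h1)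
      · intro i' _
        left
        exact ⟨i', by simp⟩
    · simp only at hi
      rw [← hi] at h1 ⊢
      revert h1
      refine Fin.cases ?_ ?_ i
      · intro h1
        exact absurd hUa.2 (by simpa using h1)
      · intro i' _
        right
        exact ⟨i', by simp⟩
  · intro w hw
    by_contra hne
    have hne' : ∀ (M : ℕ) (l : ℤ), 0 < M → ¬ ((M : ℂ) * w - l * a ∈ C) := by
      intro M l hM hU
      exact hne ⟨M, l, hM, hU⟩
    obtain ⟨s, hs, hs2⟩ := hC.ax 1 ![a, w] (by
      intro m hm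
      rw [Fin.sum_univ_two] at hm
      simp only [Matrix.cons_val_zero, Matrix.cons_val_one] at hm
      have h1 : m 1 = 0 := by
        by_contra h2
        have h3 := Int.natAbs_pos.2 h2
        rcases Int.natAbs_eq (m 1) with h4 | h4
        · have h5 : (m 1 : ℂ) = ((m 1).natAbs : ℂ) := by
            conv_lhs => rw [h4, Int.cast_natCast]
          refine hne' (m 1).natAbs (-m 0) h3 ?_
          rw [← h5]
          have h6 : (m 1 : ℂ) * w - ((-m 0 : ℤ) : ℂ) * a = (m 0 : ℂ) * a + (m 1 : ℂ) * w := by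
            push_cast
            ring
          rw [h6]
          exact hm
        · have h5 : (m 1 : ℂ) = -((m 1).natAbs : ℂ) := by
            conv_lhs => rw [h4, Int.cast_neg, Int.cast_natCast]
          refine hne' (m 1).natAbs (m 0) h3 ?_
          have h6 : ((m 1).natAbs : ℂ) * w - (m 0 : ℂ) * a =
              -((m 0 : ℂ) * a + (m 1 : ℂ) * w) := by
            rw [h5]
            ring
          rw [h6]
          exact neg_mem hm
      rw [h1] at hm
      have h2 : (m 0 : ℂ) * a + ((0 : ℤ) : ℂ) * w = (m 0 : ℂ) * a := by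
        push_cast
        ring
      rw [h2] at hm
      have h4 : m 0 = 0 := start_int_mul ha hm
      funext i
      fin_cases i
      · exact h4
      · exact h1)
    obtain ⟨e, he⟩ := exists_drop h₀ s hs
    obtain ⟨e', he'⟩ := exists_drop h (fun i => s (e i)) he
    have h1 : s (e (e' 0)) ∉ K := start_notMem he' 0
    rcases hs2 (e (e' 0)) with ⟨i, hi⟩ | ⟨i, hi⟩
    · rw [← hi] at h1
      revert h1
      fin_cases i
      · intro h1
        exact h1 hUa.1
      · intro h1
        exact h1 hw.1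
    · rw [← hi] at h1
      revert h1
      fin_cases i
      · intro h1
        exact h1 hUa.2
      · intro h1
        exact h1 hw.2

/-- **The first pair.**

Proof. `K₀`, `K` from `exists_ext` for `C`, `a` and for `K₀`, `exp a`. By `exists_move` (`C`, `a`, `b`) there is `τ`
with `τ = id` on `C`, `τ a = b`. `K₀.map τ` is the extension of `C` by `b` (`IsExt.map` for `σ = RingEquiv.refl ℂ`;
`C.map id = C`), so by `IsBase.good` (for `b`, with some extension from `exists_ext`) `exp b ∉ K₀.map τ`; also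
`exp a ∉ K₀`. By `exists_extend` there is `σ` with `σ = τ` on `K₀`, `σ (exp a) = exp b`. `K.map σ` is the extension
of `K₀.map τ` by `exp b` (`IsExt.map`), so `K` and `K.map σ` are good, with `UU K ⊆ {z | M z - l a ∈ C}`,
`UU (K.map σ) ⊆ {z | M z - l b ∈ C}` (`IsBase.good`).
`iff`: `z ∈ K`. If `exp z ∈ K`, `c = M z - l a ∈ C`, then `M σ z = c + l b` and
`exp (σ z) ^ M = exp c * exp b ^ l ∈ K.map σ`, which is algebraically closed in `ℂ`. If `exp (σ z) ∈ K.map σ`, then
`c = M σ z - l b ∈ C`, so `σ (M z - l a) = c = σ c` and `M z = c + l a`, `exp z ^ M = exp c * exp a ^ l ∈ K`.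
`tor`: `UU K z`, `c = M z - l a ∈ C`: `σ (exp (M z)) = σ (exp c * exp a ^ l) = exp c * exp b ^ l = exp (c + l b) =
exp (M σ z)`. -/
theorem exists_start {C : Subfield ℂ} (hC : IsBase C) {a b : ℂ} (ha : a ∉ C) (hb : b ∉ C) :
    ∃ (K : Subfield ℂ) (σ : ℂ ≃+* ℂ), C ≤ K ∧ a ∈ K ∧ Complex.exp a ∈ K ∧ Pair K σ ∧
      (∀ c ∈ C, σ c = c) ∧ σ a = b ∧ σ (Complex.exp a) = Complex.exp b ∧
      ∀ z, UU K z → ∃ (M : ℕ) (l : ℤ), 0 < M ∧ M * z - l * a ∈ C := by
  obtain ⟨K₀, h₀⟩ := exists_ext C a
  obtain ⟨K, h⟩ := exists_ext K₀ (Complex.exp a)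
  obtain ⟨hea, hgK, huK⟩ := hC.good ha h₀ h
  obtain ⟨τ, hτC, hτa⟩ := exists_move C hC.countable hC.closed ha hb
  have hmapC : C.map ((RingEquiv.refl ℂ : ℂ ≃+* ℂ) : ℂ →+* ℂ) = C := by
    ext x
    rw [Subfield.mem_map]
    constructor
    · rintro ⟨y, hy, rfl⟩
      exact hy
    · intro hx
      exact ⟨x, hx, rfl⟩
  have h₀' : IsExt C (K₀.map (τ : ℂ →+* ℂ)) b := by
    have h1 := h₀.map (RingEquiv.refl ℂ) τ (fun c hc => hτC c hc)
    rwa [hmapC, hτa] at h1
  have heb : Complex.exp b ∉ K₀.map (τ : ℂ →+* ℂ) := by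
    obtain ⟨K', h'⟩ := exists_ext (K₀.map (τ : ℂ →+* ℂ)) (Complex.exp b)
    exact (hC.good hb h₀' h').1
  obtain ⟨σ, hσ, hσe⟩ := exists_extend K₀ (start_countable hC.countable h₀) h₀.closed τ hea heb
  have h' : IsExt (K₀.map (τ : ℂ →+* ℂ)) (K.map (σ : ℂ →+* ℂ)) (Complex.exp b) := by
    have h1 := h.map τ σ hσ
    rwa [hσe] at h1
  obtain ⟨-, hgK', huK'⟩ := hC.good hb h₀' h'
  have hCK : C ≤ K := h₀.le.trans h.le
  have hσC : ∀ c ∈ C, σ c = c := fun c hc => by rw [hσ c (h₀.le hc), hτC c hc]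
  have hσa : σ a = b := by rw [hσ a h₀.mem, hτa]
  have haK : a ∈ K := h.le h₀.mem
  have heK : Complex.exp a ∈ K := h.mem
  have hCK' : C ≤ K.map (σ : ℂ →+* ℂ) := h₀'.le.trans h'.le
  have heK' : Complex.exp b ∈ K.map (σ : ℂ →+* ℂ) := h'.mem
  have hroot : ∀ {L : Subfield ℂ}, Good L → ∀ {z : ℂ} {M : ℕ}, 0 < M → Complex.exp z ^ M ∈ L →
      Complex.exp z ∈ L := by
    intro L hL z M hM hz
    exact hL.closed _ (IsAlgebraic.of_pow hM (isAlgebraic_algebraMap (⟨_, hz⟩ : L)))
  refine ⟨K, σ, hCK, haK, heK, ⟨hgK, hgK', ?_, ?_⟩, hσC, hσa, hσe, huK⟩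
  · intro z hz
    constructor
    · intro hez
      obtain ⟨M, l, hM, hc⟩ := huK z ⟨hz, hez⟩
      have h1 : (M : ℂ) * σ z = ((M : ℂ) * z - l * a) + l * b := by
        have h2 := hσC _ hc
        rw [map_sub, map_mul, map_mul, map_natCast, map_intCast, hσa] at h2
        rw [← h2]
        ring
      refine hroot hgK' hM ?_
      rw [← Complex.exp_nat_mul, h1, Complex.exp_add, Complex.exp_int_mul]
      exact mul_mem (hCK' ((hC.exp_mem _).2 hc)) (zpow_mem heK' l)
    · intro hez
      have hz' : σ z ∈ K.map (σ : ℂ →+* ℂ) := Subfield.mem_map.2 ⟨z, hz, rfl⟩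
      obtain ⟨M, l, hM, hc⟩ := huK' (σ z) ⟨hz', hez⟩
      have h1 : (M : ℂ) * z = ((M : ℂ) * σ z - l * b) + l * a := by
        apply σ.injective
        rw [map_add, hσC _ hc, map_mul, map_mul, map_natCast, map_intCast, hσa]
        ring
      refine hroot hgK hM ?_
      rw [← Complex.exp_nat_mul, h1, Complex.exp_add, Complex.exp_int_mul]
      exact mul_mem (hCK ((hC.exp_mem _).2 hc)) (zpow_mem heK l)
  · intro z hz
    obtain ⟨M, l, hM, hc⟩ := huK z hz
    refine ⟨M, hM, ?_⟩
    have h1 : (M : ℂ) * σ z = ((M : ℂ) * z - l * a) + l * b := by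
      have h2 := hσC _ hc
      rw [map_sub, map_mul, map_mul, map_natCast, map_intCast, hσa] at h2
      rw [← h2]
      ring
    have h3 : (M : ℂ) * z = ((M : ℂ) * z - l * a) + l * a := by ring
    rw [h1]
    conv_lhs => rw [h3]
    rw [Complex.exp_add, Complex.exp_int_mul, Complex.exp_add, Complex.exp_int_mul, map_mul,
      map_zpow₀, hσe, hσC _ ((hC.exp_mem _).2 hc)]

end Pool.Agent.Lib.MP_209724_lc.QM
end

section

namespace Pool.Agent.Lib.MP_209724_lc.QM

/-- A family which is algebraically independent over all members of a chain is algebraically independent over the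
union. -/
theorem chain_algInd (K : ℕ → Subfield ℂ) (hmono : Monotone K) (K' : Subfield ℂ)
    (hK' : ∀ z, z ∈ K' ↔ ∃ n, z ∈ K n) {ι : Type} (s : ι → ℂ)
    (h : ∀ n, AlgebraicIndependent (K n) s) : AlgebraicIndependent K' s := by
  classical
  rw [algebraicIndependent_iff]
  intro P hP
  have h1 : ∀ c : K', ∃ n, (c : ℂ) ∈ K n := fun c => (hK' c).1 c.2
  choose ν hν using h1
  set N := P.support.sup (fun m => ν (P.coeff m)) with hN
  have h2 : ∀ m, K'.subtype (P.coeff m) ∈ K N := by
    intro m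
    by_cases hm : m ∈ P.support
    · exact hmono (Finset.le_sup (f := fun m => ν (P.coeff m)) hm) (hν _)
    · rw [MvPolynomial.notMem_support_iff.1 hm]
      exact (K N).zero_mem
  let Q : MvPolynomial ι (K N) :=
    ∑ m ∈ P.support, MvPolynomial.monomial m (⟨K'.subtype (P.coeff m), h2 m⟩ : K N)
  have h3 : ∀ m, (K N).subtype (Q.coeff m) = K'.subtype (P.coeff m) := by
    intro m
    have h4 : Q.coeff m = if m ∈ P.support then (⟨K'.subtype (P.coeff m), h2 m⟩ : K N) else 0 := by
      simp only [Q]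
      rw [MvPolynomial.coeff_sum]
      simp_rw [MvPolynomial.coeff_monomial]
      rw [Finset.sum_ite_eq']
    rw [h4]
    split_ifs with hm
    · rfl
    · rw [MvPolynomial.notMem_support_iff.1 hm]
      rfl
  have h5 : MvPolynomial.map (algebraMap (K N) ℂ) Q = MvPolynomial.map (algebraMap K' ℂ) P := by
    ext m
    rw [MvPolynomial.coeff_map, MvPolynomial.coeff_map]
    exact h3 m
  have h6 : MvPolynomial.aeval s Q = 0 := by
    rw [MvPolynomial.aeval_def, MvPolynomial.eval₂_eq_eval_map, h5,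
      ← MvPolynomial.eval₂_eq_eval_map, ← MvPolynomial.aeval_def]
    exact hP
  have h7 : Q = 0 := (algebraicIndependent_iff.1 (h N)) Q h6
  refine MvPolynomial.ext _ _ fun m => ?_
  have h8 := h3 m
  rw [h7, MvPolynomial.coeff_zero, map_zero] at h8
  rw [MvPolynomial.coeff_zero]
  apply K'.subtype.injective
  rw [← h8, map_zero]

/-- Restriction of scalars for algebraic independence. -/
theorem chain_restrict {K K₁ : Subfield ℂ} (hle : K ≤ K₁) {ι : Type} (s : ι → ℂ)
    (h : AlgebraicIndependent K₁ s) : AlgebraicIndependent K s := by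
  rw [algebraicIndependent_iff] at h ⊢
  intro P hP
  have h1 : MvPolynomial.aeval s (MvPolynomial.map (Subfield.inclusion hle) P) = 0 := by
    rw [MvPolynomial.aeval_def, MvPolynomial.eval₂_map]
    exact hP
  have h2 := h _ h1
  exact (MvPolynomial.map_injective _ (Subfield.inclusion hle).injective) (by rw [h2, map_zero])

/-- The union of a chain of good fields is good. Proof. `countable`: countable union. `closed`: an element which is
algebraic over the union is algebraic over some `K n` (finitely many coefficients). `ax`: let `v : Fin r → ℂ` with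
`UU K∞ (∑ m i * v i) → m = 0`; then the same holds for every `K n`, so for every `n` there is
`s n : Fin r → ℂ`, algebraically independent over `K n`, with values in the finite set
`range v ∪ range (exp ∘ v)`. One `s` occurs for infinitely many `n` (finite set of functions; pigeonhole), so it is
algebraically independent over every `K n` (monotone), and so over `K∞` (a polynomial relation over `K∞` has
coefficients in some `K n`). -/
theorem Good.iSup (K : ℕ → Subfield ℂ) (hmono : Monotone K) (h : ∀ n, Good (K n))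
    (K' : Subfield ℂ) (hK' : ∀ z, z ∈ K' ↔ ∃ n, z ∈ K n) : Good K' := by
  classical
  have hle : ∀ n, K n ≤ K' := fun n z hz => (hK' z).2 ⟨n, hz⟩
  refine ⟨?_, ?_, (hle 0) (h 0).period, ?_⟩
  · have h1 : (K' : Set ℂ) = ⋃ n, (K n : Set ℂ) := by
      ext z
      rw [Set.mem_iUnion]
      exact hK' z
    rw [h1]
    exact Set.countable_iUnion fun n => (h n).countable
  · intro z hz
    by_contra hcon
    have h1 : ∀ n, AlgebraicIndependent (K n) (fun _ : Unit => z) := by
      intro n
      rw [algebraicIndependent_unique_type_iff]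
      intro hz'
      exact hcon (hle n ((h n).closed z hz'))
    have h2 := chain_algInd K hmono K' hK' _ h1
    rw [algebraicIndependent_unique_type_iff] at h2
    exact h2 hz
  · intro r v hv
    have h1 : ∀ n, ∃ s : Fin r → ℂ, AlgebraicIndependent (K n) s ∧
        ∀ j, s j ∈ Set.range v ∪ Set.range fun i => Complex.exp (v i) := by
      intro n
      apply (h n).ax r v
      intro m hm
      exact hv m ⟨hle n hm.1, hle n hm.2⟩
    choose s hs hsr using h1
    set S : Set ℂ := Set.range v ∪ Set.range fun i => Complex.exp (v i) with hS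
    have hSfin : S.Finite := (Set.finite_range _).union (Set.finite_range _)
    have : Finite S := hSfin
    let F : ℕ → (Fin r → S) := fun n j => ⟨s n j, hsr n j⟩
    obtain ⟨y, hy⟩ := Finite.exists_infinite_fiber F
    have hy' : (F ⁻¹' {y}).Infinite := Set.infinite_coe_iff.1 hy
    refine ⟨fun j => (y j : ℂ), ?_, fun j => (y j).2⟩
    apply chain_algInd K hmono K' hK'
    intro n
    obtain ⟨m, hm, hnm⟩ := hy'.exists_gt n
    have h2 : (fun j => (y j : ℂ)) = s m := by
      funext j
      have h3 : F m = y := hm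
      rw [← h3]
    rw [h2]
    exact chain_restrict (hmono hnm.le) _ (hs m)

/-- **The union of a chain of exact pairs.**

Proof. Let `K∞` be the union (a subfield, e.g. `⨆ n, K n` with `Subfield.mem_iSup_of_directed`), a countable field,
`g : K∞ →+* ℂ` with `g z = σ n z` for `z ∈ K n` (well defined; a ring homomorphism because any two elements are in a
common `K n`). `exists_aut` for `A = K∞`, `f = K∞.subtype`, `g` gives `σ∞`. `K∞.map σ∞` is the union of the
`(K n).map (σ n)`. `Good.iSup` for both. `exact`, `mem`: the elements concerned are in some `K n` (for `mem`: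
`exp (σ∞ z) ∈ K∞.map σ∞` is in `(K n).map (σ n)` for some `n` with `z ∈ K n`). -/
theorem EPair.iSup (K : ℕ → Subfield ℂ) (σ : ℕ → ℂ ≃+* ℂ) (h : ∀ n, EPair (K n) (σ n))
    (hK : ∀ n, K n ≤ K (n + 1)) (hσ : ∀ n, ∀ z ∈ K n, σ (n + 1) z = σ n z) :
    ∃ (K' : Subfield ℂ) (σ' : ℂ ≃+* ℂ), EPair K' σ' ∧ (∀ n, K n ≤ K') ∧
      (∀ z ∈ K', ∃ n, z ∈ K n) ∧ ∀ n, ∀ z ∈ K n, σ' z = σ n z := by
  classical
  have hmono : Monotone K := monotone_nat_of_le_succ hK
  have hcomp : ∀ n m, n ≤ m → ∀ z ∈ K n, σ m z = σ n z := by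
    intro n m hnm
    induction m, hnm using Nat.le_induction with
    | base => intro z _; rfl
    | succ m hm ih =>
      intro z hz
      rw [hσ m z (hmono hm hz), ih z hz]
  set K' : Subfield ℂ := ⨆ n, K n with hK'def
  have hK' : ∀ z, z ∈ K' ↔ ∃ n, z ∈ K n := fun z =>
    Subfield.mem_iSup_of_directed hmono.directed_le
  have hle : ∀ n, K n ≤ K' := fun n z hz => (hK' z).2 ⟨n, hz⟩
  have hgood : Good K' := Good.iSup K hmono (fun n => (h n).good) K' hK'
  have h1 : ∀ c : K', ∃ n, (c : ℂ) ∈ K n := fun c => (hK' c).1 c.2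
  choose ν hν using h1
  have hg0 : ∀ (c : K') (n : ℕ), (c : ℂ) ∈ K n → σ (ν c) c = σ n c := by
    intro c n hn
    rcases le_total (ν c) n with h2 | h2
    · exact (hcomp _ _ h2 _ (hν c)).symm
    · exact hcomp _ _ h2 _ hn
  let g : K' →+* ℂ :=
    { toFun := fun c => σ (ν c) c
      map_one' := by
        show σ (ν 1) ((1 : K') : ℂ) = 1
        rw [Subfield.coe_one, map_one]
      map_zero' := by
        show σ (ν 0) ((0 : K') : ℂ) = 0
        rw [Subfield.coe_zero, map_zero]
      map_mul' := by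
        intro c d
        show σ (ν (c * d)) ((c * d : K') : ℂ) = σ (ν c) c * σ (ν d) d
        have hc : (c : ℂ) ∈ K (max (ν c) (ν d)) := hmono (le_max_left _ _) (hν c)
        have hd : (d : ℂ) ∈ K (max (ν c) (ν d)) := hmono (le_max_right _ _) (hν d)
        have hcd : ((c * d : K') : ℂ) ∈ K (max (ν c) (ν d)) := mul_mem hc hd
        rw [hg0 _ _ hcd, hg0 _ _ hc, hg0 _ _ hd, Subfield.coe_mul, map_mul]
      map_add' := by
        intro c d
        show σ (ν (c + d)) ((c + d : K') : ℂ) = σ (ν c) c + σ (ν d) d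
        have hc : (c : ℂ) ∈ K (max (ν c) (ν d)) := hmono (le_max_left _ _) (hν c)
        have hd : (d : ℂ) ∈ K (max (ν c) (ν d)) := hmono (le_max_right _ _) (hν d)
        have hcd : ((c + d : K') : ℂ) ∈ K (max (ν c) (ν d)) := add_mem hc hd
        rw [hg0 _ _ hcd, hg0 _ _ hc, hg0 _ _ hd, Subfield.coe_add, map_add] }
  have hcount : Countable K' := hgood.countable.to_subtype
  obtain ⟨σ', hσ'⟩ := exists_aut (A := K') K'.subtype g K'.subtype.injective g.injective
  have hσ2 : ∀ n, ∀ z ∈ K n, σ' z = σ n z := by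
    intro n z hz
    have h3 := hσ' ⟨z, hle n hz⟩
    exact h3.trans (hg0 _ _ hz)
  have hmap : ∀ n z, z ∈ (K n).map (σ n : ℂ →+* ℂ) ↔ ∃ w ∈ K n, σ n w = z := by
    intro n z
    rw [Subfield.mem_map]
    rfl
  have hmono' : Monotone fun n => (K n).map (σ n : ℂ →+* ℂ) := by
    intro n m hnm z hz
    obtain ⟨w, hw, rfl⟩ := (hmap n z).1 hz
    exact (hmap m _).2 ⟨w, hmono hnm hw, hcomp n m hnm w hw⟩
  have hK'map : ∀ z, z ∈ K'.map (σ' : ℂ →+* ℂ) ↔ ∃ n, z ∈ (K n).map (σ n : ℂ →+* ℂ) := by
    intro z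
    rw [Subfield.mem_map]
    constructor
    · rintro ⟨w, hw, rfl⟩
      obtain ⟨n, hn⟩ := (hK' w).1 hw
      exact ⟨n, (hmap n _).2 ⟨w, hn, (hσ2 n w hn).symm⟩⟩
    · rintro ⟨n, hn⟩
      obtain ⟨w, hw, rfl⟩ := (hmap n z).1 hn
      exact ⟨w, hle n hw, hσ2 n w hw⟩
  refine ⟨K', σ', ⟨hgood, ?_, ?_, ?_⟩, hle, fun z hz => (hK' z).1 hz, hσ2⟩
  · exact Good.iSup _ hmono' (fun n => (h n).good') _ hK'map
  · intro z hz
    obtain ⟨n, hn⟩ := (hK' _).1 hz.1
    obtain ⟨m, hm⟩ := (hK' _).1 hz.2
    have hn' : z ∈ K (max n m) := hmono (le_max_left _ _) hn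
    have hm' : Complex.exp z ∈ K (max n m) := hmono (le_max_right _ _) hm
    rw [hσ2 _ _ hn', hσ2 _ _ hm']
    exact (h _).exact z ⟨hn', hm'⟩
  · intro z hz hexp
    obtain ⟨n, hn⟩ := (hK' _).1 hz
    obtain ⟨m, hm⟩ := (hK'map _).1 hexp
    have hn' : z ∈ K (max n m) := hmono (le_max_left _ _) hn
    have hm' := hmono' (le_max_right n m) hm
    rw [hσ2 _ _ hn'] at hm'
    exact hle _ ((h _).mem z hn' hm')

/-- One round of the closing process. -/
theorem chain_round {K : Subfield ℂ} {σ : ℂ ≃+* ℂ} (h : EPair K σ) :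
    ∃ (K' : Subfield ℂ) (σ' : ℂ ≃+* ℂ), EPair K' σ' ∧ K ≤ K' ∧ (∀ c ∈ K, σ' c = σ c) ∧
      ∀ z ∈ K, Complex.exp z ∈ K' := by
  classical
  let E : Type := {p : Subfield ℂ × (ℂ ≃+* ℂ) // EPair p.1 p.2}
  have hstep : ∀ (p : E) (z : ℂ), ∃ p' : E, p.1.1 ≤ p'.1.1 ∧ (∀ c ∈ p.1.1, p'.1.2 c = p.1.2 c) ∧
      (z ∈ p.1.1 → Complex.exp z ∈ p'.1.1) := by
    intro p z
    by_cases hz : z ∈ p.1.1 ∧ Complex.exp z ∉ p.1.1
    · obtain ⟨K₁, σ₁, h1, h2, h3, h4⟩ := p.2.step hz.1 hz.2
      exact ⟨⟨(K₁, σ₁), h1⟩, h2, h3, fun _ => h4⟩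
    · refine ⟨p, le_refl _, fun _ _ => rfl, fun hz1 => ?_⟩
      by_contra hcon
      exact hz ⟨hz1, hcon⟩
  choose next hn1 hn2 hn3 using hstep
  obtain ⟨f, hf⟩ := h.good.countable.exists_eq_range ⟨0, K.zero_mem⟩
  let q : ℕ → E := fun n => Nat.rec ⟨(K, σ), h⟩ (fun n p => next p (f n)) n
  have hq0 : q 0 = ⟨(K, σ), h⟩ := rfl
  have hqs : ∀ n, q (n + 1) = next (q n) (f n) := fun n => rfl
  obtain ⟨K', σ', h1, h2, _, h4⟩ := EPair.iSup (fun n => (q n).1.1) (fun n => (q n).1.2)
    (fun n => (q n).2) (fun n => by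
      show (q n).1.1 ≤ (q (n + 1)).1.1
      rw [hqs]
      exact hn1 _ _) (fun n => by
      show ∀ z ∈ (q n).1.1, (q (n + 1)).1.2 z = (q n).1.2 z
      rw [hqs]
      exact hn2 _ _)
  have hmono : Monotone fun n => (q n).1.1 := monotone_nat_of_le_succ fun n => by
    show (q n).1.1 ≤ (q (n + 1)).1.1
    rw [hqs]
    exact hn1 _ _
  refine ⟨K', σ', h1, ?_, ?_, ?_⟩
  · exact h2 0
  · intro c hc
    exact h4 0 c hc
  · intro z hz
    have hz' : z ∈ (K : Set ℂ) := hz
    rw [hf] at hz'
    obtain ⟨n, rfl⟩ := hz'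
    apply h2 (n + 1)
    show Complex.exp (f n) ∈ (q (n + 1)).1.1
    rw [hqs]
    apply hn3
    exact hmono (Nat.zero_le n) hz

/-- **Closing under `exp`.**

Proof. (1) One round: for every exact pair `(K, σ)` there is an exact pair `(K⁺, σ⁺)` extending it with `exp z ∈ K⁺` for
all `z ∈ K`: enumerate `K` as `z 0, z 1, …` (`K` is countable and not empty), define recursively
`(K n, σ n)` with `K 0 = K` and `(K (n + 1), σ (n + 1)) = (K n, σ n)` if `exp (z n) ∈ K n`, otherwise given by
`EPair.step` for `z n` (`z n ∈ K ≤ K n`), and take the union (`EPair.iSup`). (2) Iterate the rounds and take the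
union again. (The sequences: define them on the subtype of the pairs `(K, σ)` with `EPair K σ`, by `Nat.rec` and
`Classical.choose`.) -/
theorem EPair.close {K : Subfield ℂ} {σ : ℂ ≃+* ℂ} (h : EPair K σ) :
    ∃ (K' : Subfield ℂ) (σ' : ℂ ≃+* ℂ), EPair K' σ' ∧ K ≤ K' ∧ (∀ c ∈ K, σ' c = σ c) ∧
      ∀ z ∈ K', Complex.exp z ∈ K' := by
  classical
  let E : Type := {p : Subfield ℂ × (ℂ ≃+* ℂ) // EPair p.1 p.2}
  have hstep : ∀ (p : E), ∃ p' : E, p.1.1 ≤ p'.1.1 ∧ (∀ c ∈ p.1.1, p'.1.2 c = p.1.2 c) ∧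
      (∀ z ∈ p.1.1, Complex.exp z ∈ p'.1.1) := by
    intro p
    obtain ⟨K₁, σ₁, h1, h2, h3, h4⟩ := chain_round p.2
    exact ⟨⟨(K₁, σ₁), h1⟩, h2, h3, h4⟩
  choose next hn1 hn2 hn3 using hstep
  let q : ℕ → E := fun n => Nat.rec ⟨(K, σ), h⟩ (fun _ p => next p) n
  have hqs : ∀ n, q (n + 1) = next (q n) := fun n => rfl
  obtain ⟨K', σ', h1, h2, h3, h4⟩ := EPair.iSup (fun n => (q n).1.1) (fun n => (q n).1.2)
    (fun n => (q n).2) (fun n => by
      show (q n).1.1 ≤ (q (n + 1)).1.1
      rw [hqs]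
      exact hn1 _) (fun n => by
      show ∀ z ∈ (q n).1.1, (q (n + 1)).1.2 z = (q n).1.2 z
      rw [hqs]
      exact hn2 _)
  refine ⟨K', σ', h1, ?_, ?_, ?_⟩
  · exact h2 0
  · intro c hc
    exact h4 0 c hc
  · intro z hz
    obtain ⟨n, hn⟩ := h3 z hz
    apply h2 (n + 1)
    show Complex.exp z ∈ (q (n + 1)).1.1
    rw [hqs]
    exact hn3 _ z hn

end Pool.Agent.Lib.MP_209724_lc.QM
end

section

namespace Pool.Agent.Lib.MP_209724_lc.QM

private theorem estart_notMem {K : Subfield ℂ} {n : ℕ} {s : Fin n → ℂ}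
    (hs : AlgebraicIndependent K s) (i : Fin n) : s i ∉ K := by
  intro h
  have h1 : Transcendental K (s i) := hs.transcendental i
  exact h1 (isAlgebraic_algebraMap (⟨_, h⟩ : K))

private theorem estart_countable {K K₁ : Subfield ℂ} {p : ℂ} (hK : (K : Set ℂ).Countable)
    (h : IsExt K K₁ p) : (K₁ : Set ℂ).Countable := by
  have : Countable K := hK.to_subtype
  have h1 : Countable (IntermediateField.adjoin K ({p} : Set ℂ)) := by
    rw [← Cardinal.mk_le_aleph0_iff]
    refine (IntermediateField.cardinalMk_adjoin_le K ({p} : Set ℂ)).trans ?_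
    refine max_le (max_le ?_ ?_) le_rfl
    · exact Cardinal.mk_le_aleph0_iff.2 inferInstance
    · exact Cardinal.mk_le_aleph0_iff.2 inferInstance
  have h2 : Countable (algebraicClosure (IntermediateField.adjoin K ({p} : Set ℂ)) ℂ) := by
    have h := Algebra.IsAlgebraic.cardinalMk_le_max (IntermediateField.adjoin K ({p} : Set ℂ))
      (algebraicClosure (IntermediateField.adjoin K ({p} : Set ℂ)) ℂ)
    rw [← Cardinal.mk_le_aleph0_iff]
    exact h.trans (max_le (Cardinal.mk_le_aleph0_iff.2 inferInstance) le_rfl)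
  have h3 : ((algebraicClosure (IntermediateField.adjoin K ({p} : Set ℂ)) ℂ : Set ℂ)).Countable :=
    Set.countable_coe_iff.1 h2
  refine h3.mono ?_
  intro x hx
  exact mem_algebraicClosure_iff.2 (h.alg x hx)

private theorem estart_int_mul {C : Subfield ℂ} {a : ℂ} (ha : a ∉ C) {m : ℤ}
    (hm : (m : ℂ) * a ∈ C) : m = 0 := by
  by_contra h0
  apply ha
  have h1 : (m : ℂ) ≠ 0 := Int.cast_ne_zero.2 h0
  have h2 := C.mul_mem (C.inv_mem (intCast_mem C m)) hm
  rwa [inv_mul_cancel_left₀ h1] at h2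

/-- **The first field.** `K` is the algebraic closure of `C(a)`.

Proof. If `UU K z` and `z ∉ C`, then `hC.ax` for `n = 0`, `v = ![z]` (`m 0 * z ∈ C` implies `m 0 = 0`) gives two
elements of `{z, exp z} ⊆ K` which are algebraically independent over `C`; by `exists_drop` one of them is
transcendental over `K`: contradiction. `Good K`: countable (as in `Good.step`), `h.closed`, `2 π i ∈ C`
(`exp (2 π i) = 1 ∈ C`, `hC.exp_mem`); `ax`: let `v : Fin n → ℂ`; `n = 0`: the empty family; `n = n' + 1`: if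
`∑ m i * v i ∈ C` then `UU K (∑ m i * v i)` (`C ≤ K`, `hC.exp_mem`), so `m = 0`; `hC.ax` gives `n' + 2` elements which
are algebraically independent over `C`, and `exists_drop` `n' + 1` of them over `K`. -/
theorem IsBase.good_one {C K : Subfield ℂ} (hC : IsBase C) {a : ℂ} (h : IsExt C K a) :
    Good K ∧ ∀ z, UU K z → z ∈ C := by
  refine ⟨⟨estart_countable hC.countable h, h.closed, ?_, ?_⟩, ?_⟩
  · apply h.le
    rw [← hC.exp_mem, Complex.exp_two_pi_mul_I]
    exact one_mem C
  · intro n v hv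
    cases n with
    | zero =>
      refine ⟨fun j => j.elim0, ?_, fun j => j.elim0⟩
      exact algebraicIndependent_empty_type_iff.2 (algebraMap K ℂ).injective
    | succ n =>
      obtain ⟨s, hs, hs2⟩ := hC.ax n v (by
        intro m hm
        exact hv m ⟨h.le hm, h.le ((hC.exp_mem _).2 hm)⟩)
      obtain ⟨e, he⟩ := exists_drop h s hs
      exact ⟨fun i => s (e i), he, fun j => hs2 (e j)⟩
  · intro z hz
    by_contra hzC
    obtain ⟨s, hs, hs2⟩ := hC.ax 0 ![z] (by
      intro m hm
      rw [Fin.sum_univ_one] at hm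
      simp only [Matrix.cons_val_fin_one] at hm
      funext i
      fin_cases i
      exact estart_int_mul hzC hm)
    obtain ⟨e, he⟩ := exists_drop h s hs
    have h1 : s (e 0) ∉ K := estart_notMem he 0
    rcases hs2 (e 0) with ⟨i, hi⟩ | ⟨i, hi⟩
    · rw [← hi] at h1
      revert h1
      fin_cases i
      intro h1
      exact h1 hz.1
    · rw [← hi] at h1
      revert h1
      fin_cases i
      intro h1
      exact h1 hz.2

/-- **An exact pair which is closed under `exp`.**

Proof. Let `K₀` be the extension of `C` by `a` (`exists_ext`), `σ₀` from `exists_move` (`σ₀ = id` on `C`, `σ₀ a = b`).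
`K₀.map σ₀` is the extension of `C` by `b` (`IsExt.map` with `σ = RingEquiv.refl ℂ`; `C.map id = C`).
`EPair K₀ σ₀`: the two fields are good by `IsBase.good_one`; `exact`: `UU K₀ z` implies `z ∈ C`, `exp z ∈ C`, so
`σ₀ (exp z) = exp z = exp (σ₀ z)`; `mem`: `z ∈ K₀`, `exp (σ₀ z) ∈ K₀.map σ₀`; `UU (K₀.map σ₀) (σ₀ z)`, so `σ₀ z ∈ C`,
`σ₀ z = σ₀ (σ₀ z)`, `z = σ₀ z ∈ C`, `exp z ∈ C ≤ K₀`. Apply `EPair.close`. -/
theorem exists_estart {C : Subfield ℂ} (hC : IsBase C) {a b : ℂ} (ha : a ∉ C) (hb : b ∉ C) :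
    ∃ (K : Subfield ℂ) (σ : ℂ ≃+* ℂ), EPair K σ ∧ C ≤ K ∧ a ∈ K ∧ (∀ c ∈ C, σ c = c) ∧
      σ a = b ∧ ∀ z ∈ K, Complex.exp z ∈ K := by
  obtain ⟨K₀, h₀⟩ := exists_ext C a
  obtain ⟨σ₀, hσC, hσa⟩ := exists_move C hC.countable hC.closed ha hb
  have hmapC : C.map ((RingEquiv.refl ℂ : ℂ ≃+* ℂ) : ℂ →+* ℂ) = C := by
    ext x
    rw [Subfield.mem_map]
    constructor
    · rintro ⟨y, hy, rfl⟩
      exact hy
    · intro hx
      exact ⟨x, hx, rfl⟩
  have h₀' : IsExt C (K₀.map (σ₀ : ℂ →+* ℂ)) b := by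
    have h1 := h₀.map (RingEquiv.refl ℂ) σ₀ (fun c hc => hσC c hc)
    rwa [hmapC, hσa] at h1
  obtain ⟨hg, hu⟩ := hC.good_one h₀
  obtain ⟨hg', hu'⟩ := hC.good_one h₀'
  have hE : EPair K₀ σ₀ := by
    refine ⟨hg, hg', ?_, ?_⟩
    · intro z hz
      have h1 := hu z hz
      rw [hσC z h1, hσC _ ((hC.exp_mem z).2 h1)]
    · intro z hz hez
      have hz' : σ₀ z ∈ K₀.map (σ₀ : ℂ →+* ℂ) := Subfield.mem_map.2 ⟨z, hz, rfl⟩
      have h1 : σ₀ z ∈ C := hu' _ ⟨hz', hez⟩
      have h2 : σ₀ z = z := σ₀.injective (hσC _ h1)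
      rw [h2] at h1
      exact h₀.le ((hC.exp_mem z).2 h1)
  obtain ⟨K, σ, hKσ, hK, hσ, hexp⟩ := hE.close
  refine ⟨K, σ, hKσ, h₀.le.trans hK, hK h₀.mem, ?_, ?_, hexp⟩
  · intro c hc
    rw [hσ c (h₀.le hc), hσC c hc]
  · rw [hσ a h₀.mem, hσa]

end Pool.Agent.Lib.MP_209724_lc.QM
end

section

namespace Pool.Agent.Lib.MP_209724_lc.QM

open MvPolynomial

/-- **The countable field of the exponentially algebraic numbers.**

Proof. Let `k = IntermediateField.adjoin ℚ T`, countable (`SC.countable_adjoin_set`), let `E` be the type of the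
derivations `D : Derivation k ℂ ℂ` with `D (exp z) = exp z * D z` for all `z`, and
`C = (SC.consts fun D : E => D.1).toSubfield`, the set of all `a` with `D a = 0` for all `D ∈ E`. `T ⊆ k ⊆ C`.
* `C ⊆ SC.eclSet k` by `SC.eder_exists` (if `t ∉ eclSet k` there is `D ∈ E` with `D t = 1`), which is countable
  (`SC.countable_eclSet`).
* A derivation which vanishes on `C` vanishes on elements algebraic over `C` (characteristic zero; the derivation
  `SC.toConsts` is linear over the constants; minimal polynomial).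
* `D (exp z) = exp z * D z` and `exp z ≠ 0`.
* Let `v` be as in the last claim. The vectors `(D (v i))_i`, `D ∈ E`, span a subspace of `Fin (n + 1) → ℂ`; let
  `D_1, …, D_e` be elements of `E` whose vectors are a basis of it (`exists_linearIndependent'`, or
  `exists_linearIndependent`; the index type is finite). Apply `SC.ax` (`k`, `L = ℂ`, `κ = Fin e`, `x = v`,
  `y = exp ∘ v`): if `D_l (∑ m i * v i) = 0` for all `l`, then `D (∑ m i * v i) = ∑ m i * D (v i) = 0` for all
  `D ∈ E` (the vector of `D` is a combination of those of the `D_l`), so `∑ m i * v i ∈ C` and `m = 0`. This gives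
  `s : Fin (n + 1) ⊕ Fin e → ℂ`, algebraically independent over the constants of the `D_l`, a field which contains
  `C`; so it is algebraically independent over `C` (restriction of scalars:
  `AlgebraicIndependent.restrictScalars` or by hand with polynomials). `e ≥ 1`, because `v 0 ∉ C`
  (otherwise `m = Pi.single 0 1` would be `0`), so `D (v 0) ≠ 0` for some `D ∈ E`. Compose with an injection
  `Fin (n + 2) → Fin (n + 1) ⊕ Fin e`. -/
theorem exists_base (T : Set ℂ) (hT : T.Countable) :
    ∃ C : Subfield ℂ, T ⊆ C ∧ (C : Set ℂ).Countable ∧ (∀ z : ℂ, IsAlgebraic C z → z ∈ C) ∧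
      (∀ z : ℂ, Complex.exp z ∈ C ↔ z ∈ C) ∧
      ∀ (n : ℕ) (v : Fin (n + 1) → ℂ),
        (∀ m : Fin (n + 1) → ℤ, ∑ i, (m i : ℂ) * v i ∈ C → m = 0) →
        ∃ s : Fin (n + 2) → ℂ, AlgebraicIndependent C s ∧
          ∀ j, s j ∈ Set.range v ∪ Set.range fun i => Complex.exp (v i) := by
  let k := IntermediateField.adjoin ℚ T
  have hk : Countable k := SC.countable_adjoin_set T hT
  let E := {D : Derivation k ℂ ℂ // ∀ z, D (Complex.exp z) = Complex.exp z * D z}
  let K : IntermediateField k ℂ := SC.consts fun D : E => D.1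
  have hmem : ∀ a : ℂ, a ∈ K ↔ ∀ D : E, D.1 a = 0 := fun a => SC.mem_consts
  have hexp : ∀ z : ℂ, Complex.exp z ∈ K ↔ z ∈ K := by
    intro z
    rw [hmem, hmem]
    refine forall_congr' fun D => ?_
    rw [D.2 z, mul_eq_zero, or_iff_right (Complex.exp_ne_zero z)]
  have hcount : (K : Set ℂ).Countable := by
    refine (SC.countable_eclSet k).mono fun t ht => ?_
    by_contra hcon
    obtain ⟨D, h1, h2⟩ := SC.eder_exists hcon
    have h3 := (hmem t).1 ht ⟨D, h2⟩
    have h4 : D t = 0 := h3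
    rw [h1] at h4
    exact one_ne_zero h4
  have halg : ∀ z : ℂ, IsAlgebraic K z → z ∈ K := by
    intro z hz
    rw [hmem]
    intro D
    let D' : Derivation K ℂ ℂ := SC.toConsts (fun D : E => D.1) D
    have h1 : D' z = D.1 z := rfl
    have hint : IsIntegral K z := hz.isIntegral
    have h2 := D'.map_aeval (minpoly K z) z
    rw [minpoly.aeval, map_zero] at h2
    have h3 : (Polynomial.aeval z) (Polynomial.derivative (minpoly K z)) ≠ 0 :=
      (minpoly.irreducible hint).separable.aeval_derivative_ne_zero (minpoly.aeval _ _)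
    rw [← h1]
    rw [smul_eq_mul] at h2
    exact (mul_eq_zero.1 h2.symm).resolve_left h3
  refine ⟨K.toSubfield, ?_, hcount, halg, hexp, ?_⟩
  · intro t ht
    have h1 : t ∈ k := IntermediateField.subset_adjoin ℚ T ht
    exact K.algebraMap_mem ⟨t, h1⟩
  · intro n v hv
    let u : E → Fin (n + 1) → ℂ := fun D i => D.1 (v i)
    obtain ⟨κ, a, ha1, ha2, ha3⟩ := exists_linearIndependent' ℂ u
    have hfin : Finite κ := ha3.finite
    have : Fintype κ := Fintype.ofFinite κ
    have hcomb : ∀ m : Fin (n + 1) → ℤ, ∀ D : E,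
        D.1 (∑ i, (m i : ℂ) * v i) = ∑ i, (m i : ℂ) * u D i := by
      intro m D
      rw [map_sum]
      refine Finset.sum_congr rfl fun i _ => ?_
      rw [← zsmul_eq_mul, map_zsmul, zsmul_eq_mul]
    obtain ⟨s, hs1, hs2⟩ := SC.ax (fun l => (a l).1) v (fun i => Complex.exp (v i))
      (fun i => Complex.exp_ne_zero _) (fun l i => (a l).2 (v i))
      (fun m hm => by
        refine hv m ?_
        change ∑ i, (m i : ℂ) * v i ∈ K
        rw [hmem]
        intro D
        rw [hcomb]
        let φ : (Fin (n + 1) → ℂ) →ₗ[ℂ] ℂ := ∑ i, (m i : ℂ) • LinearMap.proj i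
        have hφ : ∀ w, φ w = ∑ i, (m i : ℂ) * w i := by
          intro w
          simp [φ]
        have h1 : Submodule.span ℂ (Set.range (u ∘ a)) ≤ LinearMap.ker φ := by
          rw [Submodule.span_le]
          rintro _ ⟨l, rfl⟩
          change φ (u (a l)) = 0
          rw [hφ, ← hcomb]
          exact hm l
        rw [ha2] at h1
        have h2 : u D ∈ LinearMap.ker φ := h1 (Submodule.subset_span ⟨D, rfl⟩)
        rw [LinearMap.mem_ker, hφ] at h2
        exact h2)
      ha3
    have hne : Nonempty κ := by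
      by_contra hcon
      rw [not_nonempty_iff] at hcon
      have h1 : Submodule.span ℂ (Set.range u) = ⊥ := by
        rw [← ha2, Set.range_eq_empty, Submodule.span_empty]
      have h2 : v 0 ∈ K := by
        rw [hmem]
        intro D
        have h3 : u D ∈ Submodule.span ℂ (Set.range u) := Submodule.subset_span ⟨D, rfl⟩
        rw [h1, Submodule.mem_bot] at h3
        exact congrFun h3 0
      have h3 := hv (Pi.single 0 1) (by
        change ∑ i, ((Pi.single 0 1 : Fin (n + 1) → ℤ) i : ℂ) * v i ∈ K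
        rw [Finset.sum_eq_single 0]
        · simpa using h2
        · intro b _ hb
          simp [hb]
        · intro h
          exact absurd (Finset.mem_univ _) h)
      have h4 := congrFun h3 0
      simp at h4
    obtain ⟨l₀⟩ := hne
    have hle : K ≤ SC.consts (fun l => (a l).1) := by
      intro b hb
      rw [SC.mem_consts]
      intro l
      exact (hmem b).1 hb (a l)
    let f : Fin (n + 2) → Fin (n + 1) ⊕ κ := Fin.cases (Sum.inr l₀) fun i => Sum.inl i
    have hf : Function.Injective f := by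
      intro i j hij
      induction i using Fin.cases with
      | zero =>
        induction j using Fin.cases with
        | zero => rfl
        | succ j => simp [f] at hij
      | succ i =>
        induction j using Fin.cases with
        | zero => simp [f] at hij
        | succ j => simpa [f] using hij
    have hs3 : AlgebraicIndependent K s := by
      let _ : Algebra K (SC.consts (fun l => (a l).1)) :=
        (IntermediateField.inclusion hle).toRingHom.toAlgebra
      have : IsScalarTower K (SC.consts (fun l => (a l).1)) ℂ :=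
        IsScalarTower.of_algebraMap_eq fun x => rfl
      exact hs1.restrictScalars (RingHom.injective _)
    exact ⟨s ∘ f, hs3.comp f hf, fun j => hs2 (f j)⟩

end Pool.Agent.Lib.MP_209724_lc.QM
end
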