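import Mathlib

namespace Pool.Agent.Lib.MP_209724_lc.QM

/-- **A basis.** Proof. In the `ℚ`-vector space `ℂ ⧸ C` the class of `a` is not zero. Choose a subset `J` of `Fin m`
such that the classes of `a` and of the `x j`, `j ∈ J`, are a basis of the span of the classes of `a` and all `x i`
(`exists_linearIndependent` extending `{a}`; or induction on `m`). `r = |J|`, enumerate `J`. Every
`x i = μ i * a + ∑ α i j * x j + c i` with rational `μ i`, `α i j` and `c i ∈ C`. Let `N` be a common denominator,
`v j = x j / N`, `M i = N μ i`, `A i j = N α i j`. The last claim is the linear independence over `ℚ`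
(`v j` is a multiple of `x j`). A proof by induction on `m`: for `m + 1` take the data for the first `m` elements;
if there are `l`, `k`, `n` with `n ≠ 0` and `l * a + ∑ k j * v j + n * x m ∈ C`, then `x m` is a rational combination:
replace `N` by `N |n|`, `v j` by `v j / |n|`; otherwise add `v_r = x m / N`. -/
theorem exists_basis (C : Subfield ℂ) {a : ℂ} (ha : a ∉ C) {m : ℕ} (x : Fin m → ℂ) :
    ∃ (N r : ℕ) (v : Fin r → ℂ) (M : Fin m → ℤ) (A : Fin m → Fin r → ℤ) (c : Fin m → ℂ),
      0 < N ∧ r ≤ m ∧ (∀ i, c i ∈ C) ∧
      (∀ i, x i = M i * (a / N) + ∑ j, (A i j : ℂ) * v j + c i) ∧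
      ∀ (l : ℤ) (k : Fin r → ℤ), l * a + ∑ j, (k j : ℂ) * v j ∈ C → l = 0 ∧ k = 0 := by
  classical
  induction m with
  | zero =>
    refine ⟨1, 0, Fin.elim0, Fin.elim0, Fin.elim0, Fin.elim0, one_pos, le_refl _,
      fun i => i.elim0, fun i => i.elim0, ?_⟩
    intro l k h
    refine ⟨?_, Subsingleton.elim _ _⟩
    by_contra hl
    apply ha
    simp only [Finset.univ_eq_empty, Finset.sum_empty, add_zero] at h
    have hl' : (l : ℂ) ≠ 0 := by exact_mod_cast hl
    have h2 : (l : ℂ)⁻¹ * ((l : ℂ) * a) ∈ C :=
      C.mul_mem (C.inv_mem (intCast_mem C l)) h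
    rwa [inv_mul_cancel_left₀ hl'] at h2
  | succ m ih =>
    obtain ⟨N, r, v, M, A, c, hN, hr, hc, hx, hind⟩ := ih (fun i => x i.castSucc)
    have hN0 : (N : ℂ) ≠ 0 := by exact_mod_cast hN.ne'
    by_cases hcase : ∃ (l : ℤ) (k : Fin r → ℤ) (n : ℤ), n ≠ 0 ∧
        l * a + ∑ j, (k j : ℂ) * v j + n * x (Fin.last m) ∈ C
    · obtain ⟨l, k, n, hn, hmem⟩ := hcase
      obtain ⟨ν, hνd⟩ : ∃ ν : ℕ, ν = n.natAbs := ⟨_, rfl⟩
      have hν : 0 < ν := hνd ▸ Int.natAbs_pos.mpr hn
      have hν0 : (ν : ℂ) ≠ 0 := by exact_mod_cast hν.ne'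
      have hn0 : (n : ℂ) ≠ 0 := by exact_mod_cast hn
      have hsn : (n : ℂ) = (n.sign : ℂ) * (ν : ℂ) := by
        have h := congrArg (Int.cast : ℤ → ℂ) (Int.sign_mul_natAbs n)
        rw [← hνd, Int.cast_mul, Int.cast_natCast] at h
        exact h.symm
      have hs2 : (n.sign : ℂ) * (n.sign : ℂ) = 1 := by
        have h1 : n.sign * n.sign = 1 := by
          rcases lt_or_gt_of_ne hn with h | h
          · rw [Int.sign_eq_neg_one_of_neg h]; rfl
          · rw [Int.sign_eq_one_of_pos h]; rfl
        exact_mod_cast h1
      have hinv : (n : ℂ)⁻¹ = (n.sign : ℂ) * (ν : ℂ)⁻¹ := by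
        rw [inv_eq_iff_eq_inv, mul_inv, inv_inv, inv_eq_of_mul_eq_one_left hs2]
        exact hsn
      refine ⟨N * ν, r, fun j => v j / ν,
        Fin.lastCases (-l * N * n.sign) (fun i => M i * ν),
        Fin.lastCases (fun j => -k j * n.sign) (fun i j => A i j * ν),
        Fin.lastCases ((n : ℂ)⁻¹ * (l * a + ∑ j, (k j : ℂ) * v j + n * x (Fin.last m)))
          (fun i => c i), Nat.mul_pos hN hν, by omega, ?_, ?_, ?_⟩
      · intro i
        refine Fin.lastCases ?_ (fun i => ?_) i
        · simp only [Fin.lastCases_last]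
          exact C.mul_mem (C.inv_mem (intCast_mem C n)) hmem
        · simp only [Fin.lastCases_castSucc]
          exact hc i
      · intro i
        refine Fin.lastCases ?_ (fun i => ?_) i
        · simp only [Fin.lastCases_last]
          have h1 : ∑ j, ((-k j * n.sign : ℤ) : ℂ) * (v j / ν)
              = -((n : ℂ)⁻¹ * ∑ j, (k j : ℂ) * v j) := by
            rw [Finset.mul_sum, ← Finset.sum_neg_distrib]
            refine Finset.sum_congr rfl fun j _ => ?_
            rw [hinv]
            push_cast
            ring
          have h2 : ((-l * N * n.sign : ℤ) : ℂ) * (a / ((N * ν : ℕ) : ℂ))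
              = -((n : ℂ)⁻¹ * (l * a)) := by
            rw [hinv]
            push_cast
            field_simp
          rw [h1, h2]
          have h3 : (n : ℂ)⁻¹ * (l * a + ∑ j, (k j : ℂ) * v j + n * x (Fin.last m))
              = (n : ℂ)⁻¹ * (l * a) + (n : ℂ)⁻¹ * (∑ j, (k j : ℂ) * v j) + x (Fin.last m) := by
            rw [mul_add, mul_add, inv_mul_cancel_left₀ hn0]
          rw [h3]
          ring
        · simp only [Fin.lastCases_castSucc]
          have h0 : x i.castSucc = _ := hx i
          rw [h0]
          congr 1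
          congr 1
          · push_cast
            field_simp
          · refine Finset.sum_congr rfl fun j _ => ?_
            push_cast
            field_simp
      · intro l' k' h'
        have h1 : (ν : ℂ) * (l' * a + ∑ j, (k' j : ℂ) * (v j / ν)) ∈ C :=
          C.mul_mem (natCast_mem C _) h'
        have h2 : (ν : ℂ) * (l' * a + ∑ j, (k' j : ℂ) * (v j / ν))
            = ((l' * ν : ℤ) : ℂ) * a + ∑ j, (k' j : ℂ) * v j := by
          rw [mul_add, Finset.mul_sum]
          congr 1
          · push_cast
            ring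
          · refine Finset.sum_congr rfl fun j _ => ?_
            field_simp
        rw [h2] at h1
        obtain ⟨h3, h4⟩ := hind _ _ h1
        refine ⟨?_, h4⟩
        rcases mul_eq_zero.mp h3 with h | h
        · exact h
        · exact absurd (by exact_mod_cast h) hν.ne'
    · have hcase' : ∀ (l : ℤ) (k : Fin r → ℤ) (n : ℤ),
          l * a + ∑ j, (k j : ℂ) * v j + n * x (Fin.last m) ∈ C → n = 0 := by
        intro l k n h
        by_contra hn
        exact hcase ⟨l, k, n, hn, h⟩
      refine ⟨N, r + 1, Fin.snoc (α := fun _ => ℂ) v (x (Fin.last m) / N),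
        Fin.lastCases 0 (fun i => M i),
        Fin.lastCases (Fin.snoc (α := fun _ => ℤ) (fun _ => 0) N)
          (fun i => Fin.snoc (α := fun _ => ℤ) (A i) 0),
        Fin.lastCases 0 (fun i => c i), hN, by omega, ?_, ?_, ?_⟩
      · intro i
        refine Fin.lastCases ?_ (fun i => ?_) i
        · simp only [Fin.lastCases_last]
          exact C.zero_mem
        · simp only [Fin.lastCases_castSucc]
          exact hc i
      · intro i
        refine Fin.lastCases ?_ (fun i => ?_) i
        · simp only [Fin.lastCases_last, Fin.sum_univ_castSucc, Fin.snoc_castSucc, Fin.snoc_last]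
          simp only [Int.cast_zero, zero_mul, Finset.sum_const_zero, zero_add, add_zero,
            Int.cast_natCast]
          field_simp
        · simp only [Fin.lastCases_castSucc, Fin.sum_univ_castSucc, Fin.snoc_castSucc,
            Fin.snoc_last]
          have h0 : x i.castSucc = _ := hx i
          rw [h0]
          simp
      · intro l k h
        rw [Fin.sum_univ_castSucc] at h
        simp only [Fin.snoc_castSucc, Fin.snoc_last] at h
        have h1 : (N : ℂ) * (l * a + (∑ j : Fin r, (k j.castSucc : ℂ) * v j +
            (k (Fin.last r) : ℂ) * (x (Fin.last m) / N))) ∈ C :=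
          C.mul_mem (natCast_mem C _) h
        have h2 : (N : ℂ) * (l * a + (∑ j : Fin r, (k j.castSucc : ℂ) * v j +
            (k (Fin.last r) : ℂ) * (x (Fin.last m) / N)))
            = ((N * l : ℤ) : ℂ) * a + ∑ j : Fin r, ((N * k j.castSucc : ℤ) : ℂ) * v j
              + (k (Fin.last r) : ℂ) * x (Fin.last m) := by
          rw [mul_add, mul_add, Finset.mul_sum, add_assoc]
          congr 1
          · push_cast
            ring
          · congr 1
            · refine Finset.sum_congr rfl fun j _ => ?_
              push_cast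
              ring
            · field_simp
        rw [h2] at h1
        have h3 : k (Fin.last r) = 0 := hcase' _ _ _ h1
        rw [h3] at h
        simp only [Int.cast_zero, zero_mul, add_zero] at h
        obtain ⟨h4, h5⟩ := hind l (fun j => k j.castSucc) h
        refine ⟨h4, ?_⟩
        funext j
        refine Fin.lastCases ?_ (fun j => ?_) j
        · exact h3
        · exact congrFun h5 j

end Pool.Agent.Lib.MP_209724_lc.QM
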