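import Mathlib
import Pool.Agent.Lib.MP_209724_lc.QM.BasisK
import Pool.Agent.Lib.MP_209724_lc.QM.Good
import Pool.Agent.Lib.MP_209724_lc.QM.PairStep
import Pool.Agent.Lib.MP_209724_lc.CT.Main
import Pool.Agent.Lib.MP_209724_lc.QM.EPair

section

namespace Pool.Agent.Lib.MP_209724_lc.QM

open MvPolynomial

private theorem gen_isAlgClosed (K : Subfield ℂ) (hcl : ∀ z : ℂ, IsAlgebraic K z → z ∈ K) :
    IsAlgClosed K := by
  apply IsAlgClosed.of_exists_root
  intro q hq hirr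
  have hdeg : (q.map (algebraMap K ℂ)).degree ≠ 0 := by
    rw [Polynomial.degree_map]
    exact (Polynomial.degree_pos_of_irreducible hirr).ne'
  obtain ⟨z, hz⟩ := IsAlgClosed.exists_root _ hdeg
  have hz' : Polynomial.aeval z q = 0 := by
    rw [Polynomial.aeval_def, Polynomial.eval₂_eq_eval_map]; exact hz
  have hzK : z ∈ K := hcl z ⟨q, hirr.ne_zero, hz'⟩
  refine ⟨⟨z, hzK⟩, ?_⟩
  have h1 : algebraMap K ℂ (Polynomial.eval (⟨z, hzK⟩ : K) q) = 0 := by
    rw [← Polynomial.eval₂_at_apply]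
    exact hz'
  exact (map_eq_zero _).mp h1

private theorem gen_point {R : Type} [CommRing R] (p : Ideal R) [p.IsPrime] :
    ∃ (Ω : Type) (_ : Field Ω) (_ : IsAlgClosed Ω) (g₀ : R →+* Ω), ∀ g : R, g₀ g = 0 ↔ g ∈ p := by
  refine ⟨AlgebraicClosure (FractionRing (R ⧸ p)), inferInstance, inferInstance,
    (algebraMap (FractionRing (R ⧸ p)) (AlgebraicClosure (FractionRing (R ⧸ p)))).comp
      ((algebraMap (R ⧸ p) (FractionRing (R ⧸ p))).comp (Ideal.Quotient.mk p)), ?_⟩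
  intro g
  change (algebraMap (FractionRing (R ⧸ p)) (AlgebraicClosure (FractionRing (R ⧸ p))))
    ((algebraMap (R ⧸ p) (FractionRing (R ⧸ p))) (Ideal.Quotient.mk p g)) = 0 ↔ g ∈ p
  rw [map_eq_zero, map_eq_zero_iff _ (IsFractionRing.injective (R ⧸ p) (FractionRing (R ⧸ p))),
    Ideal.Quotient.eq_zero_iff_mem]

/-- **The generic point of a prime ideal, and a place which maps it to a given point.**

Proof. Let `ev` be the homomorphism of `hp`, `R = MvPolynomial (Fin r ⊕ Fin r ⊕ Fin r) K`,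
`Ω = AlgebraicClosure (FractionRing (R ⧸ p))`, `ι` the composition of the algebra maps, `A` the range (a subring) of
`R → Ω`. As `p ≤ q = ker ev`, `ev` factors through `A` (`R ⧸ p ≅ A`): `φ : A →+* ℂ`; take `V` from `exists_place A φ`.
`ξ j`, `η j` are the images of `X (inl j)`, `X (inr (inl j))`; the image of `X (inr (inr j))` is `(η j)⁻¹` because
`X (inr (inl j)) * X (inr (inr j)) - 1 ∈ p`. So `eval₂ ι (...) g` is the image of `g` in `Ω`, which is `0` if and only if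
`g ∈ p`. `V.ψ ⟨ι c, _⟩ = ev (C c) = c`. `ι.fieldRange ≅ K` is an algebraically closed field, because `K` is
algebraically closed in `ℂ` (`hcl`): every `x ∈ Ω` which is algebraic over it is in it (a monic irreducible
polynomial over it has degree one). -/
theorem exists_generic (K : Subfield ℂ) (hcl : ∀ z : ℂ, IsAlgebraic K z → z ∈ K) {r : ℕ}
    (v : Fin r → ℂ) (p : Ideal (MvPolynomial (Fin r ⊕ Fin r ⊕ Fin r) K)) [p.IsPrime]
    (hp : p ≤ RingHom.ker (aeval (Sum.elim v (Sum.elim (fun j => Complex.exp (v j))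
      fun j => Complex.exp (-v j))) : MvPolynomial (Fin r ⊕ Fin r ⊕ Fin r) K →ₐ[K] ℂ))
    (hinv : ∀ j : Fin r, X (Sum.inr (Sum.inl j)) * X (Sum.inr (Sum.inr j)) - 1 ∈ p) :
    ∃ (Ω : Type) (_ : Field Ω) (_ : IsAlgClosed Ω) (V : Place Ω) (ι : K →+* Ω)
      (hι : ι.fieldRange.toSubring ≤ V.B) (ξ η : Fin r → V.B),
      (∀ c : K, V.ψ ⟨ι c, hι ⟨c, rfl⟩⟩ = c) ∧
      (∀ x : Ω, IsAlgebraic ι.fieldRange x → x ∈ ι.fieldRange) ∧
      (∀ j, V.ψ (ξ j) = v j) ∧ (∀ j, V.ψ (η j) = Complex.exp (v j)) ∧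
      ∀ g : MvPolynomial (Fin r ⊕ Fin r ⊕ Fin r) K,
        eval₂ ι (Sum.elim (fun j => (ξ j : Ω)) (Sum.elim (fun j => (η j : Ω))
          fun j => (η j : Ω)⁻¹)) g = 0 ↔ g ∈ p := by
  classical
  obtain ⟨Ω, iF, iA, g₀, hg₀⟩ := gen_point p
  let ev : MvPolynomial (Fin r ⊕ Fin r ⊕ Fin r) K →+* ℂ :=
    (aeval (Sum.elim v (Sum.elim (fun j => Complex.exp (v j))
      fun j => Complex.exp (-v j))) : MvPolynomial (Fin r ⊕ Fin r ⊕ Fin r) K →ₐ[K] ℂ).toRingHom
  have hker : RingHom.ker g₀.rangeRestrict ≤ RingHom.ker ev := by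
    intro g hg
    have h1 : g₀ g = 0 := by
      have h2 := congrArg (fun x : g₀.range => (x : Ω)) ((RingHom.mem_ker).mp hg)
      simpa using h2
    exact hp ((hg₀ g).mp h1)
  let φ : g₀.range →+* ℂ :=
    RingHom.liftOfSurjective g₀.rangeRestrict g₀.rangeRestrict_surjective ⟨ev, hker⟩
  have hφ : ∀ g : MvPolynomial (Fin r ⊕ Fin r ⊕ Fin r) K, φ (g₀.rangeRestrict g) = ev g := by
    intro g
    exact RingHom.liftOfRightInverse_comp_apply _ _ _ ⟨ev, hker⟩ g
  obtain ⟨V, hA, hψ⟩ := exists_place g₀.range φ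
  have hmem : ∀ g : MvPolynomial (Fin r ⊕ Fin r ⊕ Fin r) K, g₀ g ∈ V.B := fun g => hA ⟨g, rfl⟩
  have hval : ∀ g : MvPolynomial (Fin r ⊕ Fin r ⊕ Fin r) K, V.ψ ⟨g₀ g, hmem g⟩ = ev g := by
    intro g
    rw [← hφ g, ← hψ (g₀.rangeRestrict g)]
    rfl
  let ι : K →+* Ω := g₀.comp (C : K →+* MvPolynomial (Fin r ⊕ Fin r ⊕ Fin r) K)
  have hι : ι.fieldRange.toSubring ≤ V.B := by
    rintro x ⟨c, rfl⟩
    exact hmem (C c)
  have : IsAlgClosed K := gen_isAlgClosed K hcl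
  have : IsAlgClosed ι.fieldRange := IsAlgClosed.of_ringEquiv K _ ι.rangeRestrictFieldEquiv
  refine ⟨Ω, iF, iA, V, ι, hι, fun j => ⟨g₀ (X (Sum.inl j)), hmem _⟩,
    fun j => ⟨g₀ (X (Sum.inr (Sum.inl j))), hmem _⟩, ?_, ?_, ?_, ?_, ?_⟩
  · intro c
    have h1 := hval (C c)
    have h2 : ev (C c) = (c : ℂ) := by
      change aeval _ (C c) = _
      rw [aeval_C]; rfl
    rw [h2] at h1
    exact h1
  · intro x hx
    have h1 : (minpoly ι.fieldRange x).degree = 1 :=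
      IsAlgClosed.degree_eq_one_of_irreducible _ (minpoly.irreducible hx.isIntegral)
    obtain ⟨y, hy⟩ := minpoly.mem_range_of_degree_eq_one _ x h1
    rw [← hy]
    exact y.2
  · intro j
    rw [hval]
    change aeval _ (X (Sum.inl j)) = _
    rw [aeval_X]; rfl
  · intro j
    rw [hval]
    change aeval _ (X (Sum.inr (Sum.inl j))) = _
    rw [aeval_X]; rfl
  · intro g
    have hfun : (Sum.elim (fun j => g₀ (X (Sum.inl j)))
        (Sum.elim (fun j => g₀ (X (Sum.inr (Sum.inl j))))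
          fun j => (g₀ (X (Sum.inr (Sum.inl j))))⁻¹)) = fun i => g₀ (X i) := by
      funext i
      rcases i with j | j | j
      · rfl
      · rfl
      · have h1 : g₀ (X (Sum.inr (Sum.inl j)) * X (Sum.inr (Sum.inr j)) - 1) = 0 :=
          (hg₀ _).mpr (hinv j)
        rw [map_sub, map_mul, map_one, sub_eq_zero] at h1
        exact (eq_inv_of_mul_eq_one_right h1).symm
    have hhom : (eval₂Hom ι fun i => g₀ (X i)) = g₀ := by
      apply MvPolynomial.ringHom_ext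
      · intro c; rw [eval₂Hom_C]; rfl
      · intro i; rw [eval₂Hom_X']
    have h2 : eval₂ ι (fun i => g₀ (X i)) g = g₀ g := by
      have := congrArg (fun f : MvPolynomial (Fin r ⊕ Fin r ⊕ Fin r) K →+* Ω => f g) hhom
      exact this
    rw [← hg₀ g, ← h2, ← hfun]

end Pool.Agent.Lib.MP_209724_lc.QM
end

section

namespace Pool.Agent.Lib.MP_209724_lc.QM

variable {Ω : Type} [Field Ω]

/-- integer powers of units of the subring -/
private theorem ip_zpow (V : Place Ω) (η : V.B) (h : V.ψ η ≠ 0) (z : ℤ) :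
    ∃ y : V.B, (y : Ω) = (η : Ω) ^ z ∧ V.ψ y = V.ψ η ^ z := by
  have hη : (η : Ω) ≠ 0 := by
    intro h0
    apply h
    have h1 : η = 0 := Subtype.ext h0
    rw [h1, map_zero]
  have hinv : ∃ y : V.B, (y : Ω) = (η : Ω)⁻¹ ∧ V.ψ y = (V.ψ η)⁻¹ := by
    refine ⟨⟨(η : Ω)⁻¹, V.loc η h⟩, rfl, ?_⟩
    have h1 : (⟨(η : Ω)⁻¹, V.loc η h⟩ : V.B) * η = 1 := Subtype.ext (inv_mul_cancel₀ hη)
    have h2 := congrArg V.ψ h1
    rw [map_mul, map_one] at h2
    exact eq_inv_of_mul_eq_one_left h2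
  obtain ⟨ι, hι, hι'⟩ := hinv
  obtain ⟨n, rfl | rfl⟩ := z.eq_nat_or_neg
  · exact ⟨η ^ n, by rw [zpow_natCast]; rfl, by rw [zpow_natCast, map_pow]⟩
  · refine ⟨ι ^ n, ?_, ?_⟩
    · rw [zpow_neg, zpow_natCast, ← inv_pow, ← hι]
      rfl
    · rw [zpow_neg, zpow_natCast, ← inv_pow, ← hι', map_pow]

/-- A field with a place with values in `ℂ` has characteristic zero (`ψ (n) = n`). -/
theorem Place.charZero (V : Place Ω) : CharZero Ω := by
  refine charZero_of_inj_zero fun n hn => ?_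
  have h1 : ((n : ℕ) : V.B) = 0 := Subtype.ext (by
    rw [Subring.coe_natCast]
    exact hn)
  have h2 := congrArg V.ψ h1
  rw [map_natCast, map_zero] at h2
  exact_mod_cast h2

/-- **Roots.** Proof. `N` is invertible in `Ω`, `N⁻¹ ∈ V.B` by `V.loc`; `ξ' = ξ / N`. Let `ρ ∈ Ω` with `ρ ^ N = η`;
it is integral over `V.B`, so `ρ ∈ V.B`, and `ψ ρ ^ N = exp (ψ ξ) = exp (ψ ξ') ^ N`, so `ψ ρ = ε * exp (ψ ξ')` with
`ε ^ N = 1`. The polynomial `X ^ N - 1` splits over `L` (`L` is algebraically closed in `Ω`), so it splits over the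
image of `L` in `ℂ`, and there is `ε' ∈ L` with `ε' ^ N = 1`, `ψ ε' = ε`. Put `η' = ρ / ε'`. -/
theorem exists_root [IsAlgClosed Ω] (V : Place Ω) (L : Subfield Ω) (hL : L.toSubring ≤ V.B)
    (hLc : ∀ x : Ω, IsAlgebraic L x → x ∈ L) {N : ℕ} (hN : 0 < N) (ξ η : V.B)
    (h : V.ψ η = Complex.exp (V.ψ ξ)) :
    ∃ ξ' η' : V.B, (ξ : Ω) = N * ξ' ∧ (η : Ω) = (η' : Ω) ^ N ∧
      V.ψ η' = Complex.exp (V.ψ ξ') := by
  have hchar := V.charZero
  have hNΩ : (N : Ω) ≠ 0 := Nat.cast_ne_zero.2 hN.ne'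
  have hNC : (N : ℂ) ≠ 0 := Nat.cast_ne_zero.2 hN.ne'
  have hψN : V.ψ ((N : ℕ) : V.B) ≠ 0 := by
    rw [map_natCast]
    exact hNC
  have hinv : ((N : Ω))⁻¹ ∈ V.B := by
    have h1 := V.loc _ hψN
    rwa [Subring.coe_natCast] at h1
  set ξ' : V.B := ⟨(N : Ω)⁻¹, hinv⟩ * ξ with hξ'
  have hNξ : ((N : ℕ) : V.B) * ξ' = ξ := by
    apply Subtype.ext
    rw [Subring.coe_mul, Subring.coe_natCast, hξ', Subring.coe_mul]
    show (N : Ω) * ((N : Ω)⁻¹ * (ξ : Ω)) = ξ
    rw [mul_inv_cancel_left₀ hNΩ]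
  have hψξ : V.ψ ξ = N * V.ψ ξ' := by
    conv_lhs => rw [← hNξ]
    rw [map_mul, map_natCast]
  obtain ⟨ρ, hρ⟩ := IsAlgClosed.exists_pow_nat_eq (η : Ω) hN
  have hρB : ρ ∈ V.B := by
    apply V.int
    refine IsIntegral.of_pow hN ?_
    rw [hρ]
    exact isIntegral_algebraMap (x := η)
  obtain ⟨ζ, hζ⟩ : ∃ ζ : Ω, IsPrimitiveRoot ζ N := by
    have : NeZero (N : Ω) := ⟨hNΩ⟩
    have : NeZero N := ⟨hN.ne'⟩
    exact HasEnoughRootsOfUnity.exists_primitiveRoot Ω N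
  have hζL : ζ ∈ L := by
    apply hLc
    have h1 : IsIntegral L ζ := by
      refine IsIntegral.of_pow hN ?_
      rw [hζ.pow_eq_one]
      exact isIntegral_one
    exact h1.isAlgebraic
  have hζ' : IsPrimitiveRoot (⟨ζ, hζL⟩ : L) N :=
    IsPrimitiveRoot.of_map_of_injective (f := L.subtype) (by exact hζ) L.subtype.injective
  have hζψ : IsPrimitiveRoot (V.res L hL ⟨ζ, hζL⟩) N :=
    hζ'.map_of_injective (V.res L hL).injective
  have hψρ : V.ψ ⟨ρ, hρB⟩ ^ N = Complex.exp (V.ψ ξ') ^ N := by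
    rw [← map_pow, ← Complex.exp_nat_mul, ← hψξ, ← h]
    congr 1
    exact Subtype.ext hρ
  have hexp : Complex.exp (V.ψ ξ') ≠ 0 := Complex.exp_ne_zero _
  have hε : (V.ψ ⟨ρ, hρB⟩ / Complex.exp (V.ψ ξ')) ^ N = 1 := by
    rw [div_pow, hψρ, div_self (pow_ne_zero _ hexp)]
  have : NeZero N := ⟨hN.ne'⟩
  obtain ⟨i, -, hi⟩ := hζψ.eq_pow_of_pow_eq_one hε
  have hζ0 : ζ ≠ 0 := hζ.ne_zero hN.ne'
  have hζinv : ((ζ ^ i)⁻¹ : Ω) ∈ L := L.inv_mem (L.pow_mem hζL i)
  refine ⟨ξ', ⟨ρ * (ζ ^ i)⁻¹, V.B.mul_mem hρB (hL hζinv)⟩, ?_, ?_, ?_⟩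
  · have h1 := congrArg (fun x : V.B => (x : Ω)) hNξ
    simp only [Subring.coe_mul, Subring.coe_natCast] at h1
    exact h1.symm
  · show (η : Ω) = (ρ * (ζ ^ i)⁻¹) ^ N
    rw [mul_pow, hρ, inv_pow, ← pow_mul, mul_comm i N, pow_mul, hζ.pow_eq_one, one_pow, inv_one,
      mul_one]
  · have h1 : (⟨ρ * (ζ ^ i)⁻¹, V.B.mul_mem hρB (hL hζinv)⟩ : V.B) *
        Subring.inclusion hL (⟨ζ, hζL⟩ ^ i) = ⟨ρ, hρB⟩ := by
      apply Subtype.ext
      show ρ * (ζ ^ i)⁻¹ * ζ ^ i = ρ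
      rw [mul_assoc, inv_mul_cancel₀ (pow_ne_zero _ hζ0), mul_one]
    have h2 := congrArg V.ψ h1
    rw [map_mul] at h2
    have h3 : V.ψ (Subring.inclusion hL (⟨ζ, hζL⟩ ^ i)) =
        V.ψ ⟨ρ, hρB⟩ / Complex.exp (V.ψ ξ') := by
      rw [← hi]
      exact map_pow (V.res L hL) _ i
    rw [h3] at h2
    have h4 : V.ψ ⟨ρ, hρB⟩ ≠ 0 := by
      intro h5
      rw [h5, zero_pow hN.ne'] at hψρ
      exact pow_ne_zero _ hexp hψρ.symm
    rw [mul_div_assoc', div_eq_iff hexp] at h2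
    exact mul_right_cancel₀ h4 (h2.trans (mul_comm _ _))

/-- **Extensions in the place.**

Proof. Write `K` for the image of `L`. `ψ q` is transcendental over `K` (`hcl`). Take `L₁` from `exists_ext L q`. Every
nonzero `x ∈ L[q]` is in `V.B` and has `ψ x ≠ 0` (if `x = f(q)`, `f ≠ 0` over `L`, then `ψ x = f^ψ (ψ q)` with
`f^ψ ≠ 0` over `K`), so its inverse is in `V.B` and `L(q) ⊆ V.B`. Every `x ∈ L₁` is algebraic over the field `L(q)`,
hence integral over `V.B`, so `x ∈ V.B`. The image `K₁` of `L₁`: `K ≤ K₁`, `ψ q ∈ K₁`; `L₁` is an algebraically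
closed field (it is algebraically closed in `Ω`), `K₁ ≅ L₁`, so every `z ∈ ℂ` which is algebraic over `K₁` is in
`K₁`; if `x ∈ L₁` is algebraic over `L(q)`, then `ψ x` is algebraic over `K(ψ q)` (apply `ψ` to the coefficients of a
nonzero polynomial over `L(q)`; `ψ` is injective on `L(q)`). -/
theorem exists_ext_place [IsAlgClosed Ω] (V : Place Ω) (L : Subfield Ω)
    (hL : L.toSubring ≤ V.B)
    (hcl : ∀ z : ℂ, IsAlgebraic (V.res L hL).fieldRange z → z ∈ (V.res L hL).fieldRange)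
    (q : V.B) (hq : V.ψ q ∉ (V.res L hL).fieldRange) :
    ∃ (L₁ : Subfield Ω) (hL₁ : L₁.toSubring ≤ V.B), IsExt L L₁ (q : Ω) ∧
      IsExt (V.res L hL).fieldRange (V.res L₁ hL₁).fieldRange (V.ψ q) := by
  classical
  obtain ⟨L₁, hL₁⟩ := exists_ext L (q : Ω)
  have htr : Transcendental (V.res L hL).fieldRange (V.ψ q) := fun h => hq (hcl _ h)
  -- the values of polynomials in `q`
  let ιL : L →+* V.B := Subring.inclusion hL
  have hval : ∀ f : Polynomial L, (Polynomial.aeval (q : Ω) f : Ω) =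
      ((Polynomial.eval₂ ιL q f : V.B) : Ω) := by
    intro f
    have h1 : ((Polynomial.eval₂ ιL q f : V.B) : Ω) =
        V.B.subtype (Polynomial.eval₂ ιL q f) := rfl
    rw [h1, Polynomial.hom_eval₂, Polynomial.aeval_def]
    rfl
  have hψ : ∀ f : Polynomial L, f ≠ 0 → V.ψ (Polynomial.eval₂ ιL q f) ≠ 0 := by
    intro f hf h0
    rw [Polynomial.hom_eval₂] at h0
    apply htr
    refine ⟨f.map (V.res L hL).rangeRestrictField, ?_, ?_⟩
    · exact (Polynomial.map_ne_zero_iff (V.res L hL).rangeRestrictField.injective).2 hf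
    · rw [Polynomial.aeval_def, Polynomial.eval₂_map]
      exact h0
  have hLq : ∀ x ∈ IntermediateField.adjoin L {(q : Ω)}, x ∈ V.B := by
    intro x hx
    obtain ⟨f, g, rfl⟩ := (IntermediateField.mem_adjoin_simple_iff L x).1 hx
    rw [hval f, hval g, div_eq_mul_inv]
    refine V.B.mul_mem (Subtype.mem _) ?_
    by_cases hg : g = 0
    · rw [hg, Polynomial.eval₂_zero]
      show (((0 : V.B) : Ω))⁻¹ ∈ V.B
      rw [Subring.coe_zero, inv_zero]
      exact V.B.zero_mem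
    · exact V.loc _ (hψ g hg)
  have hB : L₁.toSubring ≤ V.B := by
    intro x hx
    apply V.int
    have h1 : IsIntegral (IntermediateField.adjoin L {(q : Ω)}) x := (hL₁.alg x hx).isIntegral
    obtain ⟨p, hp, hpx⟩ := h1
    let θ : IntermediateField.adjoin L {(q : Ω)} →+* V.B :=
      { toFun := fun x => ⟨x, hLq x x.2⟩
        map_one' := rfl
        map_mul' := fun _ _ => rfl
        map_zero' := rfl
        map_add' := fun _ _ => rfl }
    refine ⟨p.map θ, hp.map θ, ?_⟩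
    rw [Polynomial.eval₂_map]
    exact hpx
  refine ⟨L₁, hB, hL₁, ?_⟩
  have hres : ∀ c : L, V.res L₁ hB ⟨c, hL₁.le c.2⟩ = V.res L hL c := fun c => rfl
  constructor
  · rintro z ⟨c, rfl⟩
    exact ⟨⟨c, hL₁.le c.2⟩, hres c⟩
  · exact ⟨⟨q, hL₁.mem⟩, rfl⟩
  · intro z hz
    have hclosed : IsAlgClosed L₁ := by
      refine IsAlgClosed.of_exists_root _ fun p hp hirr => ?_
      obtain ⟨x, hx⟩ := IsAlgClosed.exists_root (p.map L₁.subtype) (by
        rw [Polynomial.degree_map]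
        exact hirr.degree_pos.ne')
      have hx' : Polynomial.eval₂ L₁.subtype x p = 0 := by
        rw [Polynomial.IsRoot, Polynomial.eval_map] at hx
        exact hx
      have hxL : x ∈ L₁ := hL₁.closed x ⟨p, hp.ne_zero, hx'⟩
      refine ⟨⟨x, hxL⟩, ?_⟩
      apply L₁.subtype.injective
      rw [map_zero, Polynomial.eval, Polynomial.hom_eval₂]
      exact hx'
    have hclosed' : IsAlgClosed (V.res L₁ hB).fieldRange :=
      IsAlgClosed.of_ringEquiv _ _ (RingEquiv.ofBijective (V.res L₁ hB).rangeRestrictField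
        ⟨(V.res L₁ hB).rangeRestrictField.injective, (V.res L₁ hB).rangeRestrictField_bijective.2⟩)
    have hint : IsIntegral (V.res L₁ hB).fieldRange z := hz.isIntegral
    obtain ⟨y, hy⟩ := minpoly.mem_range_of_degree_eq_one (V.res L₁ hB).fieldRange z
      (IsAlgClosed.degree_eq_one_of_irreducible _ (minpoly.irreducible hint))
    rw [← hy]
    exact y.2
  · rintro z ⟨x, rfl⟩
    -- the field generated by `q` is mapped to the field generated by the value
    have hθ : ∀ y ∈ IntermediateField.adjoin L {(q : Ω)}, ∃ h : y ∈ L₁, V.res L₁ hB ⟨y, h⟩ ∈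
        IntermediateField.adjoin (V.res L hL).fieldRange {V.ψ q} := by
      intro y hy
      induction hy using IntermediateField.adjoin_induction with
      | mem y hy =>
        rw [Set.mem_singleton_iff] at hy
        subst hy
        exact ⟨hL₁.mem, IntermediateField.subset_adjoin _ _ rfl⟩
      | algebraMap c =>
        refine ⟨hL₁.le c.2, ?_⟩
        exact IntermediateField.algebraMap_mem _ (⟨V.res L hL c, ⟨c, rfl⟩⟩ :
          (V.res L hL).fieldRange)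
      | add y z _ _ hy hz =>
        obtain ⟨h1, h2⟩ := hy
        obtain ⟨h3, h4⟩ := hz
        refine ⟨L₁.add_mem h1 h3, ?_⟩
        have h5 : (⟨y + z, L₁.add_mem h1 h3⟩ : L₁) = ⟨y, h1⟩ + ⟨z, h3⟩ := rfl
        rw [h5, map_add]
        exact add_mem h2 h4
      | inv y _ hy =>
        obtain ⟨h1, h2⟩ := hy
        refine ⟨L₁.inv_mem h1, ?_⟩
        have h5 : (⟨y⁻¹, L₁.inv_mem h1⟩ : L₁) = (⟨y, h1⟩ : L₁)⁻¹ := rfl
        rw [h5, map_inv₀]
        exact inv_mem h2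
      | mul y z _ _ hy hz =>
        obtain ⟨h1, h2⟩ := hy
        obtain ⟨h3, h4⟩ := hz
        refine ⟨L₁.mul_mem h1 h3, ?_⟩
        have h5 : (⟨y * z, L₁.mul_mem h1 h3⟩ : L₁) = ⟨y, h1⟩ * ⟨z, h3⟩ := rfl
        rw [h5, map_mul]
        exact mul_mem h2 h4
    let θ : IntermediateField.adjoin L {(q : Ω)} →+*
        IntermediateField.adjoin (V.res L hL).fieldRange {V.ψ q} :=
      { toFun := fun y => ⟨V.res L₁ hB ⟨y, (hθ y y.2).1⟩, (hθ y y.2).2⟩
        map_one' := Subtype.ext (map_one (V.res L₁ hB))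
        map_mul' := fun y z => Subtype.ext (map_mul (V.res L₁ hB) ⟨y, (hθ y y.2).1⟩
          ⟨z, (hθ z z.2).1⟩)
        map_zero' := Subtype.ext (map_zero (V.res L₁ hB))
        map_add' := fun y z => Subtype.ext (map_add (V.res L₁ hB) ⟨y, (hθ y y.2).1⟩
          ⟨z, (hθ z z.2).1⟩) }
    obtain ⟨p, hp, hpx⟩ := hL₁.alg x x.2
    refine ⟨p.map θ, (Polynomial.map_ne_zero_iff θ.injective).2 hp, ?_⟩
    let κ : IntermediateField.adjoin L {(q : Ω)} →+* L₁ :=
      { toFun := fun y => ⟨y, (hθ y y.2).1⟩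
        map_one' := rfl
        map_mul' := fun _ _ => rfl
        map_zero' := rfl
        map_add' := fun _ _ => rfl }
    have h1 : Polynomial.eval₂ κ x p = 0 := by
      apply L₁.subtype.injective
      rw [map_zero, Polynomial.hom_eval₂]
      exact hpx
    have h2 := congrArg (V.res L₁ hB) h1
    rw [map_zero, Polynomial.hom_eval₂] at h2
    rw [Polynomial.aeval_def, Polynomial.eval₂_map]
    exact h2

/-- **Rotundity.**

Proof. Write `K` for the image of `L`, `v j = ψ (ξ j)`. Apply `hK.ax` to `u i = ∑ k, w i k * v k`, `i : Fin r`: if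
`UU K (∑ m i * u i)`, this is `UU K (∑ k, (∑ i, m i * w i k) * v k)`, so `∑ i, m i • w i = 0` by `hind` and `m = 0`. It
gives `s' : Fin r → ℂ`, algebraically independent over `K`, among the `u i` and
`exp (u i) = ∏ k, ψ (η k) ^ w i k`. Let `s j ∈ Ω` be the corresponding element `∑ k, w i k * ξ k` or
`∏ k, η k ^ w i k`; it is in `V.B` (the `η k` are units of `V.B` by `V.loc`) and `ψ (s j) = s' j`. If
`f(s) = 0` with `f` over `L`, then `f^ψ(s') = 0`, so `f^ψ = 0` and `f = 0` (`ψ` is injective on `L`). -/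
theorem rot_of_place (V : Place Ω) (L : Subfield Ω) (hL : L.toSubring ≤ V.B)
    (hK : Good (V.res L hL).fieldRange) {t : ℕ} (ξ η : Fin t → V.B)
    (hexp : ∀ j, V.ψ (η j) = Complex.exp (V.ψ (ξ j)))
    (hind : ∀ m : Fin t → ℤ, UU (V.res L hL).fieldRange (∑ j, (m j : ℂ) * V.ψ (ξ j)) → m = 0)
    {r : ℕ} (w : Fin r → Fin t → ℤ) (hw : LinearIndependent ℤ w) :
    ∃ s : Fin r → Ω, AlgebraicIndependent L s ∧
      ∀ j, s j ∈ Set.range (fun i => ∑ k, (w i k : Ω) * (ξ k : Ω)) ∪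
        Set.range fun i => ∏ k, (η k : Ω) ^ w i k := by
  classical
  have hη0 : ∀ k, V.ψ (η k) ≠ 0 := fun k => by
    rw [hexp]
    exact Complex.exp_ne_zero _
  set u : Fin r → ℂ := fun i => ∑ k, (w i k : ℂ) * V.ψ (ξ k) with hu
  have hcond : ∀ m : Fin r → ℤ, UU (V.res L hL).fieldRange (∑ i, (m i : ℂ) * u i) → m = 0 := by
    intro m hm
    have h1 : ∑ i, (m i : ℂ) * u i =
        ∑ k, (((∑ i, m i * w i k : ℤ)) : ℂ) * V.ψ (ξ k) := by
      simp only [hu, Finset.mul_sum]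
      rw [Finset.sum_comm]
      refine Finset.sum_congr rfl fun k _ => ?_
      push_cast
      rw [Finset.sum_mul]
      exact Finset.sum_congr rfl fun i _ => by ring
    rw [h1] at hm
    have h2 := hind (fun k => ∑ i, m i * w i k) hm
    have h3 : ∑ i, m i • w i = 0 := by
      funext k
      have h4 := congrFun h2 k
      simp only [Pi.zero_apply] at h4
      rw [Finset.sum_apply, Pi.zero_apply, ← h4]
      exact Finset.sum_congr rfl fun i _ => by simp
    funext i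
    exact Fintype.linearIndependent_iff.1 hw m h3 i
  obtain ⟨s', hs', hs'm⟩ := hK.ax r u hcond
  have hchoice : ∀ j, ∃ y : V.B, V.ψ y = s' j ∧
      (y : Ω) ∈ Set.range (fun i => ∑ k, (w i k : Ω) * (ξ k : Ω)) ∪
        Set.range fun i => ∏ k, (η k : Ω) ^ w i k := by
    intro j
    rcases hs'm j with ⟨i, hi⟩ | ⟨i, hi⟩
    · refine ⟨∑ k, ((w i k : ℤ) : V.B) * ξ k, ?_, Or.inl ⟨i, ?_⟩⟩
      · rw [map_sum, ← hi, hu]
        refine Finset.sum_congr rfl fun k _ => ?_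
        rw [map_mul, map_intCast]
      · have h1 : ((∑ k, ((w i k : ℤ) : V.B) * ξ k : V.B) : Ω) =
            V.B.subtype (∑ k, ((w i k : ℤ) : V.B) * ξ k) := rfl
        rw [h1, map_sum]
        refine Finset.sum_congr rfl fun k _ => ?_
        rw [map_mul, map_intCast]
        rfl
    · choose y hy hy' using fun k => ip_zpow V (η k) (hη0 k) (w i k)
      refine ⟨∏ k, y k, ?_, Or.inr ⟨i, ?_⟩⟩
      · rw [map_prod, ← hi]
        simp only
        rw [hu, Complex.exp_sum]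
        refine Finset.prod_congr rfl fun k _ => ?_
        rw [hy', hexp, Complex.exp_int_mul]
      · have h1 : ((∏ k, y k : V.B) : Ω) = V.B.subtype (∏ k, y k) := rfl
        rw [h1, map_prod]
        refine Finset.prod_congr rfl fun k _ => ?_
        exact (hy k).symm
  choose y hy hym using hchoice
  refine ⟨fun j => (y j : Ω), ?_, hym⟩
  rw [algebraicIndependent_iff]
  intro f hf
  let ιL : L →+* V.B := Subring.inclusion hL
  have h1 : MvPolynomial.eval₂ ιL y f = 0 := by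
    apply V.B.subtype_injective
    rw [map_zero, MvPolynomial.hom_eval₂]
    rw [MvPolynomial.aeval_def] at hf
    exact hf
  have h2 := congrArg V.ψ h1
  rw [map_zero, MvPolynomial.hom_eval₂] at h2
  have h3 : (fun i => V.ψ (y i)) = s' := funext hy
  have h4 : MvPolynomial.aeval s' (MvPolynomial.map (V.res L hL).rangeRestrictField f) = 0 := by
    rw [MvPolynomial.aeval_def, MvPolynomial.eval₂_map]
    rw [← h3]
    exact h2
  have h5 := (algebraicIndependent_iff.1 hs') _ h4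
  exact MvPolynomial.map_injective _ (V.res L hL).rangeRestrictField.injective
    (by rw [h5, map_zero])

end Pool.Agent.Lib.MP_209724_lc.QM
end

section

namespace Pool.Agent.Lib.MP_209724_lc.QM

/-- integer powers of units of the subring -/
private theorem sd_zpow {Ω : Type} [Field Ω] (V : Place Ω) (η : V.B) (h : V.ψ η ≠ 0) (z : ℤ) :
    ∃ y : V.B, (y : Ω) = (η : Ω) ^ z ∧ V.ψ y = V.ψ η ^ z := by
  have hη : (η : Ω) ≠ 0 := by
    intro h0
    apply h
    have h1 : η = 0 := Subtype.ext h0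
    rw [h1, map_zero]
  have hinv : ∃ y : V.B, (y : Ω) = (η : Ω)⁻¹ ∧ V.ψ y = (V.ψ η)⁻¹ := by
    refine ⟨⟨(η : Ω)⁻¹, V.loc η h⟩, rfl, ?_⟩
    have h1 : (⟨(η : Ω)⁻¹, V.loc η h⟩ : V.B) * η = 1 := Subtype.ext (inv_mul_cancel₀ hη)
    have h2 := congrArg V.ψ h1
    rw [map_mul, map_one] at h2
    exact eq_inv_of_mul_eq_one_left h2
  obtain ⟨ι, hι, hι'⟩ := hinv
  obtain ⟨n, rfl | rfl⟩ := z.eq_nat_or_neg
  · exact ⟨η ^ n, by rw [zpow_natCast]; rfl, by rw [zpow_natCast, map_pow]⟩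
  · refine ⟨ι ^ n, ?_, ?_⟩
    · rw [zpow_neg, zpow_natCast, ← inv_pow, ← hι]
      rfl
    · rw [zpow_neg, zpow_natCast, ← inv_pow, ← hι', map_pow]

private theorem sd_aux {t : ℕ} {Ω : Type} [Field Ω] [IsAlgClosed Ω] (V : Place Ω) (L : Subfield Ω)
    (hL : L.toSubring ≤ V.B) (hLc : ∀ x : Ω, IsAlgebraic L x → x ∈ L)
    (ξ η : Fin (t + 1) → V.B) (hexp : ∀ j, V.ψ (η j) = Complex.exp (V.ψ (ξ j)))
    (hind : ∀ m : Fin (t + 1) → ℤ,
      UU (V.res L hL).fieldRange (∑ j, (m j : ℂ) * V.ψ (ξ j)) → m = 0)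
    (m : Fin (t + 1) → ℤ) (i₀ : Fin (t + 1)) (hi₀ : 0 < m i₀)
    (h : ∑ j, (m j : Ω) * (ξ j : Ω) ∈ L ∨ ∏ j, (η j : Ω) ^ m j ∈ L) :
    ∃ (i₀ : Fin (t + 1)) (N : ℕ) (k : Fin t → ℤ) (ξ' η' : Fin t → V.B) (ζ θ : V.B), 0 < N ∧
      (∀ j, (ξ (i₀.succAbove j) : Ω) = N * ξ' j) ∧
      (∀ j, (η (i₀.succAbove j) : Ω) = (η' j : Ω) ^ N) ∧
      (∀ j, V.ψ (η' j) = Complex.exp (V.ψ (ξ' j))) ∧
      (ζ : Ω) = ξ i₀ + ∑ j, (k j : Ω) * (ξ' j : Ω) ∧
      (θ : Ω) = η i₀ * ∏ j, (η' j : Ω) ^ k j ∧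
      V.ψ θ = Complex.exp (V.ψ ζ) ∧
      (((ζ : Ω) ∈ L ∧ V.ψ θ ∉ (V.res L hL).fieldRange) ∨
        ((θ : Ω) ∈ L ∧ V.ψ ζ ∉ (V.res L hL).fieldRange)) := by
  have hchar := V.charZero
  obtain ⟨N, hN⟩ : ∃ N : ℕ, (N : ℤ) = m i₀ := ⟨(m i₀).toNat, Int.toNat_of_nonneg hi₀.le⟩
  have hNpos : 0 < N := by omega
  have hNΩ : (N : Ω) ≠ 0 := Nat.cast_ne_zero.2 hNpos.ne'
  have hroot := fun j : Fin t =>
    exists_root V L hL hLc hNpos (ξ (i₀.succAbove j)) (η (i₀.succAbove j)) (hexp _)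
  choose ξ' η' h1 h2 h3 using hroot
  have hη0 : ∀ j, V.ψ (η' j) ≠ 0 := fun j => by
    rw [h3 j]
    exact Complex.exp_ne_zero _
  have hz := fun j : Fin t => sd_zpow V (η' j) (hη0 j) (m (i₀.succAbove j))
  choose y hy1 hy2 using hz
  set ζ : V.B := ξ i₀ + ∑ j, ((m (i₀.succAbove j) : ℤ) : V.B) * ξ' j with hζ
  set θ : V.B := η i₀ * ∏ j, y j with hθ
  have hζΩ : (ζ : Ω) = ξ i₀ + ∑ j, ((m (i₀.succAbove j) : ℤ) : Ω) * (ξ' j : Ω) := by
    rw [hζ, Subring.coe_add]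
    congr 1
    have h4 : ((∑ j, ((m (i₀.succAbove j) : ℤ) : V.B) * ξ' j : V.B) : Ω) =
        ∑ j, ((((m (i₀.succAbove j) : ℤ) : V.B) * ξ' j : V.B) : Ω) :=
      map_sum V.B.subtype _ _
    rw [h4]
    refine Finset.sum_congr rfl fun j _ => ?_
    rw [Subring.coe_mul, Subring.coe_intCast]
  have hθΩ : (θ : Ω) = η i₀ * ∏ j, (η' j : Ω) ^ (m (i₀.succAbove j)) := by
    rw [hθ, Subring.coe_mul]
    congr 1
    have h4 : ((∏ j, y j : V.B) : Ω) = ∏ j, (y j : Ω) := map_prod V.B.subtype _ _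
    rw [h4]
    exact Finset.prod_congr rfl fun j _ => hy1 j
  have hψζ : V.ψ ζ = V.ψ (ξ i₀) + ∑ j, ((m (i₀.succAbove j) : ℤ) : ℂ) * V.ψ (ξ' j) := by
    rw [hζ, map_add, map_sum]
    congr 1
    refine Finset.sum_congr rfl fun j _ => ?_
    rw [map_mul, map_intCast]
  have hψθ : V.ψ θ = Complex.exp (V.ψ ζ) := by
    rw [hψζ, Complex.exp_add, Complex.exp_sum, hθ, map_mul, map_prod, hexp]
    congr 1
    refine Finset.prod_congr rfl fun j _ => ?_
    rw [hy2 j, h3 j, Complex.exp_int_mul]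
  -- `N ζ` and `θ ^ N`
  have hNζ : (N : Ω) * (ζ : Ω) = ∑ j, (m j : Ω) * (ξ j : Ω) := by
    rw [Fin.sum_univ_succAbove _ i₀, hζΩ, mul_add, Finset.mul_sum]
    have h4 : ((m i₀ : ℤ) : Ω) = (N : Ω) := by
      rw [← hN, Int.cast_natCast]
    rw [h4]
    congr 1
    refine Finset.sum_congr rfl fun j _ => ?_
    rw [h1 j]
    ring
  have hθN : (θ : Ω) ^ N = ∏ j, (η j : Ω) ^ m j := by
    rw [Fin.prod_univ_succAbove _ i₀, hθΩ, mul_pow, ← Finset.prod_pow]
    have h4 : (η i₀ : Ω) ^ m i₀ = (η i₀ : Ω) ^ N := by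
      rw [← hN, zpow_natCast]
    rw [h4]
    congr 1
    refine Finset.prod_congr rfl fun j _ => ?_
    rw [h2 j, ← zpow_natCast, ← zpow_natCast, ← zpow_mul, ← zpow_mul, mul_comm]
  have hNψ : ((N : ℤ) : ℂ) * V.ψ ζ = ∑ j, (m j : ℂ) * V.ψ (ξ j) := by
    rw [Fin.sum_univ_succAbove _ i₀, hψζ, mul_add, Finset.mul_sum, hN]
    congr 1
    refine Finset.sum_congr rfl fun j _ => ?_
    have h4 : V.ψ (ξ (i₀.succAbove j)) = (N : ℂ) * V.ψ (ξ' j) := by
      have h5 : ξ (i₀.succAbove j) = ((N : ℕ) : V.B) * ξ' j := by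
        apply Subtype.ext
        rw [Subring.coe_mul, Subring.coe_natCast]
        exact h1 j
      rw [h5, map_mul, map_natCast]
    have h6 : (m i₀ : ℂ) = (N : ℂ) := by
      rw [← hN, Int.cast_natCast]
    rw [h4, h6]
    ring
  have hnot : ¬ UU (V.res L hL).fieldRange (V.ψ ζ) := by
    intro hU
    have h4 := hU.int_mul (N : ℤ)
    rw [hNψ] at h4
    have h5 := hind m h4
    rw [h5] at hi₀
    simp at hi₀
  refine ⟨i₀, N, fun j => m (i₀.succAbove j), ξ', η', ζ, θ, hNpos, h1, h2, h3, hζΩ, hθΩ, hψθ, ?_⟩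
  rcases h with h | h
  · left
    have hζL : (ζ : Ω) ∈ L := by
      have h4 : (ζ : Ω) = (N : Ω)⁻¹ * ∑ j, (m j : Ω) * (ξ j : Ω) := by
        rw [← hNζ, inv_mul_cancel_left₀ hNΩ]
      rw [h4]
      exact L.mul_mem (L.inv_mem (natCast_mem L N)) h
    refine ⟨hζL, fun hθK => hnot ⟨?_, ?_⟩⟩
    · exact ⟨⟨(ζ : Ω), hζL⟩, rfl⟩
    · rw [← hψθ]
      exact hθK
  · right
    have hθL : (θ : Ω) ∈ L := by
      apply hLc
      refine IsAlgebraic.of_pow hNpos ?_
      rw [hθN]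
      exact isAlgebraic_algebraMap (⟨_, h⟩ : L)
    refine ⟨hθL, fun hζK => hnot ⟨hζK, ?_⟩⟩
    rw [← hψθ]
    exact ⟨⟨(θ : Ω), hθL⟩, rfl⟩

/-- **The new variables if `V` is not free.**

Proof. Write `K` for the image of `L`. Choose `i₀` with `m i₀ ≠ 0`; replacing `m` by `-m` (the alternative `h` is
kept: `∏ η j ^ (-m j)` is the inverse) we may assume `m i₀ > 0`. Let `N = (m i₀).toNat`, `k j = m (i₀.succAbove j)`,
`ξ' j`, `η' j` from `exists_root` for `ξ (i₀.succAbove j)`, `η (i₀.succAbove j)`; `ζ = ξ i₀ + ∑ k j * ξ' j`,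
`θ = η i₀ * ∏ η' j ^ k j` (elements of `V.B`: the `η' j` are units of `V.B` by `V.loc`). Then
`N ζ = ∑ m j * ξ j` and `θ ^ N = ∏ η j ^ m j` (`Fin.sum_univ_succAbove`, `Fin.prod_univ_succAbove`), and
`ψ θ = exp (ψ ζ)`. `N ψ ζ = ∑ m j * ψ (ξ j)` is not in `UU K` (`hind`, `m ≠ 0`).
If `∑ m j * ξ j ∈ L` then `ζ ∈ L`, `ψ ζ ∈ K`, and `ψ θ = exp (ψ ζ) ∉ K`: otherwise `UU K (ψ ζ)` and `UU K (N ψ ζ)`.
If `∏ η j ^ m j ∈ L` then `θ` is algebraic over `L`, so `θ ∈ L`, `exp (ψ ζ) = ψ θ ∈ K`, and `ψ ζ ∉ K` as before. -/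
theorem step_data {t : ℕ} {Ω : Type} [Field Ω] [IsAlgClosed Ω] (V : Place Ω) (L : Subfield Ω)
    (hL : L.toSubring ≤ V.B) (hLc : ∀ x : Ω, IsAlgebraic L x → x ∈ L)
    (ξ η : Fin (t + 1) → V.B) (hexp : ∀ j, V.ψ (η j) = Complex.exp (V.ψ (ξ j)))
    (hind : ∀ m : Fin (t + 1) → ℤ,
      UU (V.res L hL).fieldRange (∑ j, (m j : ℂ) * V.ψ (ξ j)) → m = 0)
    (m : Fin (t + 1) → ℤ) (hm : m ≠ 0)
    (h : ∑ j, (m j : Ω) * (ξ j : Ω) ∈ L ∨ ∏ j, (η j : Ω) ^ m j ∈ L) :
    ∃ (i₀ : Fin (t + 1)) (N : ℕ) (k : Fin t → ℤ) (ξ' η' : Fin t → V.B) (ζ θ : V.B), 0 < N ∧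
      (∀ j, (ξ (i₀.succAbove j) : Ω) = N * ξ' j) ∧
      (∀ j, (η (i₀.succAbove j) : Ω) = (η' j : Ω) ^ N) ∧
      (∀ j, V.ψ (η' j) = Complex.exp (V.ψ (ξ' j))) ∧
      (ζ : Ω) = ξ i₀ + ∑ j, (k j : Ω) * (ξ' j : Ω) ∧
      (θ : Ω) = η i₀ * ∏ j, (η' j : Ω) ^ k j ∧
      V.ψ θ = Complex.exp (V.ψ ζ) ∧
      (((ζ : Ω) ∈ L ∧ V.ψ θ ∉ (V.res L hL).fieldRange) ∨
        ((θ : Ω) ∈ L ∧ V.ψ ζ ∉ (V.res L hL).fieldRange)) := by
  obtain ⟨i₀, hi₀⟩ : ∃ i₀, m i₀ ≠ 0 := by
    by_contra hcon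
    push Not at hcon
    exact hm (funext hcon)
  rcases lt_or_gt_of_ne hi₀ with hneg | hpos
  · refine sd_aux V L hL hLc ξ η hexp hind (-m) i₀ (by rw [Pi.neg_apply]; omega) ?_
    rcases h with h | h
    · left
      have h1 : ∑ j, (((-m) j : ℤ) : Ω) * (ξ j : Ω) = -∑ j, (m j : Ω) * (ξ j : Ω) := by
        rw [← Finset.sum_neg_distrib]
        refine Finset.sum_congr rfl fun j _ => ?_
        rw [Pi.neg_apply]
        push_cast
        ring
      rw [h1]
      exact L.neg_mem h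
    · right
      have h1 : ∏ j, (η j : Ω) ^ ((-m) j) = (∏ j, (η j : Ω) ^ m j)⁻¹ := by
        rw [← Finset.prod_inv_distrib]
        refine Finset.prod_congr rfl fun j _ => ?_
        rw [Pi.neg_apply, zpow_neg]
      rw [h1]
      exact L.inv_mem h
  · exact sd_aux V L hL hLc ξ η hexp hind m i₀ hpos h

end Pool.Agent.Lib.MP_209724_lc.QM
end

section

namespace Pool.Agent.Lib.MP_209724_lc.QM

open MvPolynomial

private theorem dt_quot_iff {K : Type*} [Field K] {σ : Type*} (p : Ideal (MvPolynomial σ K)) {k : ℕ}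
    (s : Fin k → σ) :
    (AlgebraicIndependent K fun i => Ideal.Quotient.mk p (X (s i))) ↔
      ∀ f : MvPolynomial (Fin k) K, rename s f ∈ p → f = 0 := by
  have key : ∀ f : MvPolynomial (Fin k) K,
      aeval (fun i => Ideal.Quotient.mk p (X (s i))) f = Ideal.Quotient.mk p (rename s f) := by
    intro f
    have : (aeval (fun i => Ideal.Quotient.mk p (X (s i)))) =
        ((Ideal.Quotient.mkₐ K p).comp (rename s)) := by
      apply algHom_ext
      intro j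
      simp
    rw [this]
    rfl
  rw [algebraicIndependent_iff]
  constructor
  · intro h f hf
    apply h f
    rw [key, Ideal.Quotient.eq_zero_iff_mem]
    exact hf
  · intro h f hf
    apply h f
    rw [key, Ideal.Quotient.eq_zero_iff_mem] at hf
    exact hf

/-- Transfer of polynomial relations along `ι`. -/
private theorem dt_transfer {K : Subfield ℂ} {Ω : Type} [Field Ω] (ι : K →+* Ω) {κ : Type*}
    (y : κ → Ω) (f : MvPolynomial κ ι.fieldRange) :
    aeval y f = eval₂ ι y (map (ι.rangeRestrictFieldEquiv.symm : ι.fieldRange →+* K) f) := by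
  rw [eval₂_map, aeval_def]
  congr 1
  ext x
  have h : ι.rangeRestrictFieldEquiv (ι.rangeRestrictFieldEquiv.symm x) = x :=
    ι.rangeRestrictFieldEquiv.apply_symm_apply x
  have h2 := congrArg (fun z : ι.fieldRange => (z : Ω)) h
  exact h2.symm

private theorem dt_map_inj {K : Subfield ℂ} {Ω : Type} [Field Ω] (ι : K →+* Ω) {κ : Type*}
    (f : MvPolynomial κ ι.fieldRange)
    (h : map (ι.rangeRestrictFieldEquiv.symm : ι.fieldRange →+* K) f = 0) : f = 0 :=
  (map_injective _ (ι.rangeRestrictFieldEquiv.symm).injective) (by rw [h, map_zero])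

/-- From variables which are algebraically independent modulo `p` to elements of `range ξ ∪ range η`.

Proof. The elements `y i = Sum.elim ξ (Sum.elim η η⁻¹) (s i)` are algebraically independent over
`ι.fieldRange` (`f(y) = 0` with `f` over `ι.fieldRange`; write `f = f₀.map ι`, then
`eval₂ ι (...) (rename s f₀) = 0`, so `rename s f₀ ∈ p`, so `f₀(mk (X (s i))) = 0` and `f₀ = 0`), and they are in the
field generated by `range ξ ∪ range η`. Apply `exists_of_alg`. -/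
theorem indep_of_quot {K : Subfield ℂ} {r : ℕ} (p : Ideal (MvPolynomial (Fin r ⊕ Fin r ⊕ Fin r) K))
    {Ω : Type} [Field Ω] (ι : K →+* Ω) (ξ η : Fin r → Ω)
    (hk : ∀ g : MvPolynomial (Fin r ⊕ Fin r ⊕ Fin r) K,
      eval₂ ι (Sum.elim ξ (Sum.elim η fun j => (η j)⁻¹)) g = 0 ↔ g ∈ p) {k : ℕ}
    (s : Fin k → Fin r ⊕ Fin r ⊕ Fin r)
    (hs : AlgebraicIndependent K fun i => Ideal.Quotient.mk p (X (s i))) :
    ∃ s : Fin k → Ω, AlgebraicIndependent ι.fieldRange s ∧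
      ∀ i, s i ∈ Set.range ξ ∪ Set.range η := by
  set Y : Fin r ⊕ Fin r ⊕ Fin r → Ω := Sum.elim ξ (Sum.elim η fun j => (η j)⁻¹) with hY
  rw [dt_quot_iff] at hs
  have hind : AlgebraicIndependent ι.fieldRange fun i => Y (s i) := by
    rw [algebraicIndependent_iff]
    intro f hf
    apply dt_map_inj ι f
    apply hs
    rw [← hk, eval₂_rename]
    rw [dt_transfer] at hf
    exact hf
  refine exists_of_alg ι.fieldRange (Set.range ξ ∪ Set.range η) (fun i => Y (s i)) hind ?_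
  intro i
  have hsub := IntermediateField.subset_adjoin ι.fieldRange (Set.range ξ ∪ Set.range η)
  have hmem : Y (s i) ∈ IntermediateField.adjoin ι.fieldRange (Set.range ξ ∪ Set.range η) := by
    rcases s i with j | j | j
    · exact hsub (Or.inl ⟨j, rfl⟩)
    · exact hsub (Or.inr ⟨j, rfl⟩)
    · exact inv_mem (hsub (Or.inr ⟨j, rfl⟩))
  exact isAlgebraic_algebraMap
    (⟨Y (s i), hmem⟩ : IntermediateField.adjoin ι.fieldRange (Set.range ξ ∪ Set.range η))

/-- **The generic point of a component.**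

Proof. Let `ev = aeval (Sum.elim v (Sum.elim (exp ∘ v) (fun j => exp (- v j))))`, with kernel `q`, a prime ideal, and
let `E` be the set of the `X (inr (inl j)) * X (inr (inr j)) - 1`, `j : Fin r`, at most `r` polynomials in `q`.
First case of `h`: `p = q`, and `exists_generic`. `s j = v i` or `exp (v i)` is the value of a variable, so there
are `r` variables which are algebraically independent modulo `q` (`R ⧸ q → ℂ` is injective);
`indep_of_quot` with `k = r`, `2 * r ≤ r + 3`.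
Second case: `exists_component` for `p₀ = ⊥`, `G' = G ∪ E`, `N = 3 * r` (the variables are algebraically
independent modulo `⊥`) gives `p`; `exists_generic`, `indep_of_quot` with `k = 3 * r - G'.card`,
`G'.card ≤ 3 + r`, so `2 * r ≤ k + 3`.
Third case: `p₀`, `d`, `u`, `s` from `exists_cylinder` for `v` (`F = ℂ`, `κ = Fin r ⊕ Fin r`, `Nat.card κ = 2 * r`);
`exists_component` for `p₀`, `G' = (G.filter (· = g₀)) ∪ E`, at most `1 + r` polynomials, `N = d + 2 * r`. All `g ∈ G`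
are in `p`: if `g = rename inl g'`, then `aeval v g' = ev g = 0`, so `g ∈ p₀ ≤ p`. `exists_generic`, `indep_of_quot` with
`k = d + 2 * r - G'.card ≥ d + r - 1`, so `d + r ≤ k + 1` if `d + r ≥ 1`; if `r = 0` use `2 * r ≤ k + 3`. The elements
`ξ (u i)`, `i : Fin d`: they are algebraically independent over `ι.fieldRange` (if `f₀(ξ ∘ u) = 0` then
`rename (inl ∘ u) f₀ ∈ p ≤ q`, so `f₀(v ∘ u) = 0`), and if `ξ j` were transcendental over `L(range (ξ ∘ u))`,
`L = ι.fieldRange`, the family `ξ j, ξ ∘ u` (indexed by `Option (Fin d)`) would be algebraically independent over `L`,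
and then also the family `v j, v ∘ u` over `K`, because a relation `f₀` of the latter gives
`rename _ f₀ ∈ p₀ ≤ p` and is a relation of the former: contradiction, as `v j` is algebraic over
`K(range (v ∘ u))`. -/
theorem exists_data (K : Subfield ℂ) (hcl : ∀ z : ℂ, IsAlgebraic K z → z ∈ K) {r : ℕ}
    (v : Fin r → ℂ) (G : Finset (MvPolynomial (Fin r ⊕ Fin r ⊕ Fin r) K))
    (hG : ∀ g ∈ G, aeval (Sum.elim v (Sum.elim (fun j => Complex.exp (v j))
      fun j => Complex.exp (-v j))) g = 0)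
    (h : (r ≤ 3 ∧ ∃ s : Fin r → ℂ, AlgebraicIndependent K s ∧
      ∀ j, s j ∈ Set.range v ∪ Set.range fun i => Complex.exp (v i)) ∨ G.card ≤ 3 ∨
      ∃ g₀, ∀ g ∈ G, g = g₀ ∨ ∃ g' : MvPolynomial (Fin r) K, g = rename Sum.inl g') :
    ∃ (Ω : Type) (_ : Field Ω) (_ : IsAlgClosed Ω) (V : Place Ω) (ι : K →+* Ω)
      (hι : ι.fieldRange.toSubring ≤ V.B) (ξ η : Fin r → V.B),
      (∀ c : K, V.ψ ⟨ι c, hι ⟨c, rfl⟩⟩ = c) ∧
      (∀ x : Ω, IsAlgebraic ι.fieldRange x → x ∈ ι.fieldRange) ∧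
      (∀ j, V.ψ (ξ j) = v j) ∧ (∀ j, V.ψ (η j) = Complex.exp (v j)) ∧
      (∀ g ∈ G, eval₂ ι (Sum.elim (fun j => (ξ j : Ω)) (Sum.elim (fun j => (η j : Ω))
        fun j => (η j : Ω)⁻¹)) g = 0) ∧
      Few ι.fieldRange (fun j => (ξ j : Ω)) fun j => (η j : Ω) := by
  classical
  set w : Fin r ⊕ Fin r ⊕ Fin r → ℂ := Sum.elim v (Sum.elim (fun j => Complex.exp (v j))
      fun j => Complex.exp (-v j)) with hw
  let q : Ideal (MvPolynomial (Fin r ⊕ Fin r ⊕ Fin r) K) :=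
    RingHom.ker (aeval w : MvPolynomial (Fin r ⊕ Fin r ⊕ Fin r) K →ₐ[K] ℂ)
  have hqmem : ∀ g, g ∈ q ↔ aeval w g = 0 := fun g => RingHom.mem_ker
  have hqp : q.IsPrime := RingHom.ker_isPrime _
  let ee : Fin r → MvPolynomial (Fin r ⊕ Fin r ⊕ Fin r) K :=
    fun j => X (Sum.inr (Sum.inl j)) * X (Sum.inr (Sum.inr j)) - 1
  let E : Finset (MvPolynomial (Fin r ⊕ Fin r ⊕ Fin r) K) := Finset.univ.image ee
  have hEcard : E.card ≤ r := by
    refine Finset.card_image_le.trans ?_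
    simp
  have hEq : ∀ j, ee j ∈ q := by
    intro j
    rw [hqmem]
    simp only [ee, map_sub, map_mul, aeval_X, map_one, hw, Sum.elim_inr, Sum.elim_inl]
    rw [← Complex.exp_add]
    simp
  have hEq' : ∀ g ∈ E, g ∈ q := by
    intro g hg
    obtain ⟨j, -, rfl⟩ := Finset.mem_image.mp hg
    exact hEq j
  have hGq : ∀ g ∈ G, g ∈ q := fun g hg => (hqmem g).mpr (hG g hg)
  have main : ∀ p : Ideal (MvPolynomial (Fin r ⊕ Fin r ⊕ Fin r) K), p.IsPrime → p ≤ q →
      (∀ j, ee j ∈ p) → (∀ g ∈ G, g ∈ p) →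
      (∀ (Ω : Type) [Field Ω] (ι : K →+* Ω) (ξ η : Fin r → Ω),
        (∀ g, eval₂ ι (Sum.elim ξ (Sum.elim η fun j => (η j)⁻¹)) g = 0 ↔ g ∈ p) →
        Few ι.fieldRange ξ η) →
      ∃ (Ω : Type) (_ : Field Ω) (_ : IsAlgClosed Ω) (V : Place Ω) (ι : K →+* Ω)
      (hι : ι.fieldRange.toSubring ≤ V.B) (ξ η : Fin r → V.B),
      (∀ c : K, V.ψ ⟨ι c, hι ⟨c, rfl⟩⟩ = c) ∧
      (∀ x : Ω, IsAlgebraic ι.fieldRange x → x ∈ ι.fieldRange) ∧
      (∀ j, V.ψ (ξ j) = v j) ∧ (∀ j, V.ψ (η j) = Complex.exp (v j)) ∧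
      (∀ g ∈ G, eval₂ ι (Sum.elim (fun j => (ξ j : Ω)) (Sum.elim (fun j => (η j : Ω))
        fun j => (η j : Ω)⁻¹)) g = 0) ∧
      Few ι.fieldRange (fun j => (ξ j : Ω)) fun j => (η j : Ω) := by
    intro p hp hpq hpE hpG hfew
    obtain ⟨Ω, iF, iA, V, ι, hι, ξ, η, h1, h2, h3, h4, h5⟩ := exists_generic K hcl v p hpq hpE
    exact ⟨Ω, iF, iA, V, ι, hι, ξ, η, h1, h2, h3, h4, fun g hg => (h5 g).mpr (hpG g hg),
      hfew Ω ι _ _ h5⟩
  rcases h with ⟨hr, s, hs, hsr⟩ | hcard | ⟨g₀, hg₀⟩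
  · refine main q hqp le_rfl hEq hGq ?_
    intro Ω _ ι ξ η hk
    have hch : ∀ j, ∃ i, w i = s j := by
      intro j
      rcases hsr j with ⟨i, hi⟩ | ⟨i, hi⟩
      · exact ⟨Sum.inl i, hi⟩
      · exact ⟨Sum.inr (Sum.inl i), hi⟩
    choose s' hs' using hch
    refine ⟨r, indep_of_quot q ι ξ η hk s' ?_, Or.inl (by omega)⟩
    rw [dt_quot_iff]
    intro f hf
    rw [hqmem, aeval_rename] at hf
    rw [algebraicIndependent_iff] at hs
    apply hs f
    have : w ∘ s' = s := funext hs'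
    rw [← this]
    exact hf
  · have hbot : (⊥ : Ideal (MvPolynomial (Fin r ⊕ Fin r ⊕ Fin r) K)).IsPrime := Ideal.isPrime_bot
    have hcardσ : Fintype.card (Fin r ⊕ Fin r ⊕ Fin r) = 3 * r := by
      simp only [Fintype.card_sum, Fintype.card_fin]; ring
    obtain ⟨p, hp, -, hpq, hpG, s, hs⟩ := exists_component (⊥ : Ideal _) q bot_le (G ∪ E)
      (fun g hg => by
        rcases Finset.mem_union.mp hg with hg | hg
        · exact hGq g hg
        · exact hEq' g hg) (N := 3 * r)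
      ⟨(Fintype.equivFinOfCardEq hcardσ).symm, by
        rw [dt_quot_iff]
        intro f hf
        rw [Ideal.mem_bot] at hf
        exact (rename_injective _ (Equiv.injective _)) (by rw [hf, map_zero])⟩
    refine main p hp hpq (fun j => hpG _ (Finset.mem_union_right _
      (Finset.mem_image_of_mem _ (Finset.mem_univ j))))
      (fun g hg => hpG g (Finset.mem_union_left _ hg)) ?_
    intro Ω _ ι ξ η hk
    refine ⟨3 * r - (G ∪ E).card, indep_of_quot p ι ξ η hk s hs, Or.inl ?_⟩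
    have := Finset.card_union_le G E
    omega
  · obtain ⟨p₀, d, u, hp₀, hle, hren, hind, halg, s₀, hs₀⟩ :=
      exists_cylinder (K := K) (κ := Fin r ⊕ Fin r) v
    have hp₀q : p₀ ≤ q := hle _
    have hκ : Nat.card (Fin r ⊕ Fin r) = 2 * r := by
      simp only [Nat.card_eq_fintype_card, Fintype.card_sum, Fintype.card_fin]; ring
    obtain ⟨p, hp, hp₀p, hpq, hpG, s, hs⟩ := exists_component p₀ q hp₀q
      ((G.filter (· = g₀)) ∪ E)
      (fun g hg => by
        rcases Finset.mem_union.mp hg with hg | hg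
        · exact hGq g (Finset.mem_filter.mp hg).1
        · exact hEq' g hg) ⟨s₀, hs₀⟩
    have hGp : ∀ g ∈ G, g ∈ p := by
      intro g hg
      rcases hg₀ g hg with h1 | ⟨g', h1⟩
      · exact hpG g (Finset.mem_union_left _ (Finset.mem_filter.mpr ⟨hg, h1⟩))
      · apply hp₀p
        rw [h1]
        apply hren
        have h2 := hG g hg
        rw [h1, aeval_rename] at h2
        exact h2
    refine main p hp hpq (fun j => hpG _ (Finset.mem_union_right _
      (Finset.mem_image_of_mem _ (Finset.mem_univ j)))) hGp ?_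
    intro Ω _ ι ξ η hk
    have hcardle : ((G.filter (· = g₀)) ∪ E).card ≤ 1 + r := by
      refine (Finset.card_union_le _ _).trans (add_le_add ?_ hEcard)
      rw [Finset.card_le_one]
      intro a ha b hb
      rw [(Finset.mem_filter.mp ha).2, (Finset.mem_filter.mp hb).2]
    refine ⟨_, indep_of_quot p ι ξ η hk s hs, Or.inr ⟨d, ξ ∘ u, ?_, by omega⟩⟩
    intro j
    -- `ξ ∘ u` is independent
    have hxi : AlgebraicIndependent ι.fieldRange (ξ ∘ u) := by
      rw [algebraicIndependent_iff]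
      intro f hf
      apply dt_map_inj ι f
      set f₀ := map (ι.rangeRestrictFieldEquiv.symm : ι.fieldRange →+* K) f
      rw [dt_transfer] at hf
      have h1 : rename (Sum.inl ∘ u) f₀ ∈ p := by
        rw [← hk, eval₂_rename]
        exact hf
      have h2 := hpq h1
      rw [hqmem, aeval_rename] at h2
      rw [algebraicIndependent_iff] at hind
      exact hind f₀ h2
    rw [IntermediateField.isAlgebraic_adjoin_iff]
    by_contra hcon
    have hopt := (hxi.option_iff_transcendental (ξ j)).mpr hcon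
    have hj := halg j
    rw [IntermediateField.isAlgebraic_adjoin_iff] at hj
    apply (hind.option_iff_transcendental (v j)).not.mpr (fun h => h hj)
    rw [algebraicIndependent_iff]
    intro f₀ hf₀
    have hfun : (fun o : Option (Fin d) => o.elim (v j) (v ∘ u)) = v ∘ (fun o => o.elim j u) := by
      funext o; cases o <;> rfl
    have h1 : aeval v (rename (fun o : Option (Fin d) => o.elim j u) f₀) = 0 := by
      rw [aeval_rename, ← hfun]; exact hf₀
    have h2 := hp₀p (hren _ h1)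
    rw [← hk, rename_rename, eval₂_rename] at h2
    rw [algebraicIndependent_iff] at hopt
    have h3 := hopt (map (ι.rangeRestrictFieldEquiv : K →+* ι.fieldRange) f₀) (by
      rw [dt_transfer, map_map]
      have hid : ((ι.rangeRestrictFieldEquiv.symm : ι.fieldRange →+* K).comp
          (ι.rangeRestrictFieldEquiv : K →+* ι.fieldRange)) = RingHom.id K := by
        ext x; simp
      rw [hid, map_id]
      have hfun2 : (fun o : Option (Fin d) => o.elim (ξ j) (ξ ∘ u)) =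
          (Sum.elim ξ (Sum.elim η fun j => (η j)⁻¹)) ∘
            (Sum.inl ∘ fun o : Option (Fin d) => o.elim j u) := by
        funext o; cases o <;> rfl
      rw [hfun2]
      exact h2)
    exact (map_injective (ι.rangeRestrictFieldEquiv : K →+* ι.fieldRange)
      (ι.rangeRestrictFieldEquiv).injective) (by rw [h3, map_zero])

end Pool.Agent.Lib.MP_209724_lc.QM
end

section

namespace Pool.Agent.Lib.MP_209724_lc.QM

theorem stepV_adjoin_mono {Ω : Type} [Field Ω] {L L₁ : Subfield Ω} (hle : L ≤ L₁) (S : Set Ω) {y : Ω}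
    (hy : y ∈ IntermediateField.adjoin L S) : y ∈ IntermediateField.adjoin L₁ S := by
  have h : Subfield.closure (Set.range (algebraMap L Ω) ∪ S) ≤
      Subfield.closure (Set.range (algebraMap L₁ Ω) ∪ S) := by
    apply Subfield.closure_mono
    apply Set.union_subset_union_left
    rintro _ ⟨x, rfl⟩
    exact ⟨⟨x, hle x.2⟩, rfl⟩
  exact h hy

theorem stepV_alg_mono {Ω : Type} [Field Ω] {L L₁ : Subfield Ω} (hle : L ≤ L₁) (S : Set Ω) {x : Ω}
    (hx : IsAlgebraic (IntermediateField.adjoin L S) x) :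
    IsAlgebraic (IntermediateField.adjoin L₁ S) x := by
  obtain ⟨p, hp, hpx⟩ := hx
  let f : IntermediateField.adjoin L S →+* IntermediateField.adjoin L₁ S :=
    { toFun := fun y => ⟨y, stepV_adjoin_mono hle S y.2⟩
      map_one' := rfl
      map_mul' := fun _ _ => rfl
      map_zero' := rfl
      map_add' := fun _ _ => rfl }
  have hf : Function.Injective f := f.injective
  refine ⟨p.map f, ?_, ?_⟩
  · rwa [Ne, Polynomial.map_eq_zero_iff hf]
  · rw [Polynomial.aeval_def, Polynomial.eval₂_map]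
    rw [Polynomial.aeval_def] at hpx
    exact hpx

/-- The independence of the new variables. Proof. `hu` gives `M`, `l` with
`UU K (M ∑ m j * ψ (ξ' j) - l * ψ ζ)`; multiply by `N` (`UU.int_mul`):
`N M ∑ m j * ψ (ξ' j) - N l ψ ζ = ∑ (M m j - l k j) * v (i₀.succAbove j) - l N * v i₀` with `v = ψ ∘ ξ`
(`N ψ (ξ' j) = v (i₀.succAbove j)`, `N ψ ζ = N v i₀ + ∑ k j * v (i₀.succAbove j)`). By `hind` all coefficients vanish:
`l = 0`, then `M m j = 0`, `m = 0`. -/
theorem ind_new {t : ℕ} {Ω : Type} [Field Ω] (V : Place Ω) (K K₁ : Subfield ℂ)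
    (ξ : Fin (t + 1) → V.B)
    (hind : ∀ m : Fin (t + 1) → ℤ, UU K (∑ j, (m j : ℂ) * V.ψ (ξ j)) → m = 0)
    (i₀ : Fin (t + 1)) (N : ℕ) (hN : 0 < N) (k : Fin t → ℤ) (ξ' : Fin t → V.B) (ζ : V.B)
    (h1 : ∀ j, (ξ (i₀.succAbove j) : Ω) = N * ξ' j)
    (h3 : (ζ : Ω) = ξ i₀ + ∑ j, (k j : Ω) * (ξ' j : Ω))
    (hu : ∀ w, UU K₁ w → ∃ (M : ℕ) (l : ℤ), 0 < M ∧ UU K (M * w - l * V.ψ ζ))
    (m : Fin t → ℤ) (hm : UU K₁ (∑ j, (m j : ℂ) * V.ψ (ξ' j))) : m = 0 := by
  obtain ⟨M, l, hM, hUU⟩ := hu _ hm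
  have h1' : ∀ j, V.ψ (ξ (i₀.succAbove j)) = (N : ℂ) * V.ψ (ξ' j) := by
    intro j
    have h5 : ξ (i₀.succAbove j) = (N : V.B) * ξ' j := by
      apply Subtype.ext
      rw [Subring.coe_mul]
      exact h1 j
    rw [h5, map_mul, map_natCast]
  have h3' : V.ψ ζ = V.ψ (ξ i₀) + ∑ j, (k j : ℂ) * V.ψ (ξ' j) := by
    have h5 : ζ = ξ i₀ + ∑ j, (k j : V.B) * ξ' j := by
      apply Subtype.ext
      rw [h3]
      push_cast
      rfl
    rw [h5, map_add, map_sum]
    congr 1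
    apply Finset.sum_congr rfl
    intro j _
    rw [map_mul, map_intCast]
  let m' : Fin (t + 1) → ℤ := i₀.insertNth (-(l * N)) (fun j => M * m j - l * k j)
  have hm1 : m' i₀ = -(l * N) := Fin.insertNth_apply_same _ _ _
  have hm2 : ∀ j, m' (i₀.succAbove j) = M * m j - l * k j := fun j =>
    Fin.insertNth_apply_succAbove _ _ _ _
  have hsum : ∑ j, (m' j : ℂ) * V.ψ (ξ j) =
      ((N : ℤ) : ℂ) * ((M : ℂ) * (∑ j, (m j : ℂ) * V.ψ (ξ' j)) - (l : ℂ) * V.ψ ζ) := by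
    rw [Fin.sum_univ_succAbove _ i₀, hm1, h3']
    have h6 : ∑ j, (m' (i₀.succAbove j) : ℂ) * V.ψ (ξ (i₀.succAbove j)) =
        (N : ℂ) * (M : ℂ) * (∑ j, (m j : ℂ) * V.ψ (ξ' j)) -
          (N : ℂ) * (l : ℂ) * ∑ j, (k j : ℂ) * V.ψ (ξ' j) := by
      rw [Finset.mul_sum, Finset.mul_sum, ← Finset.sum_sub_distrib]
      apply Finset.sum_congr rfl
      intro j _
      rw [hm2, h1']
      push_cast
      ring
    rw [h6]
    push_cast
    ring
  have hzero : m' = 0 := by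
    apply hind
    rw [hsum]
    exact hUU.int_mul _
  have hl : l = 0 := by
    have h7 : m' i₀ = 0 := by rw [hzero]; rfl
    rw [hm1, neg_eq_zero, mul_eq_zero] at h7
    rcases h7 with h7 | h7
    · exact h7
    · exfalso
      have : N = 0 := by exact_mod_cast h7
      omega
  funext j
  have h8 : m' (i₀.succAbove j) = 0 := by rw [hzero]; rfl
  rw [hm2, hl, zero_mul, sub_zero, mul_eq_zero] at h8
  rcases h8 with h8 | h8
  · exfalso
    have : M = 0 := by exact_mod_cast h8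
    omega
  · exact h8

/-- The dimension for the new variables. Proof. Let `k`, `s` be as in `hdim`. If `k = 0`, both alternatives of `hdim`
give `t = 0`, and `k' = 0` (the empty family) with the first alternative is enough. Let `k = k' + 1`. By `exists_drop`
(`hext`) `k'` of the `s i` are algebraically independent over `L₁`; they are in `range ξ ∪ range η`, whose elements
are in `L₁(range ξ' ∪ range η')`: `ξ (i₀.succAbove j) = N ξ' j`, `η (i₀.succAbove j) = η' j ^ N`,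
`ξ i₀ = ζ - ∑ k j * ξ' j`, `η i₀ = θ * ∏ η' j ^ (- k j)`, `ζ, θ ∈ L₁`. So `exists_of_alg` gives `k'` elements of
`range ξ' ∪ range η'` which are algebraically independent over `L₁`. First alternative: `2 * (t + 1) ≤ k' + 1 + 3`
gives `2 * t ≤ k' + 3`. Second alternative: keep `d`, `u`; `ξ' j = N⁻¹ * ξ (i₀.succAbove j)` is algebraic over
`L₁(range u)`, because `ξ (i₀.succAbove j)` is algebraic over `L(range u)` and `L ≤ L₁`. -/
theorem few_new {t : ℕ} {Ω : Type} [Field Ω] [CharZero Ω] (L L₁ : Subfield Ω) (q : Ω)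
    (hext : IsExt L L₁ q)
    (ξ η : Fin (t + 1) → Ω) (i₀ : Fin (t + 1)) (N : ℕ) (hN : 0 < N) (k : Fin t → ℤ)
    (ξ' η' : Fin t → Ω) (ζ θ : L₁)
    (h1 : ∀ j, ξ (i₀.succAbove j) = N * ξ' j) (h2 : ∀ j, η (i₀.succAbove j) = η' j ^ N)
    (h3 : (ζ : Ω) = ξ i₀ + ∑ j, (k j : Ω) * ξ' j) (h4 : (θ : Ω) = η i₀ * ∏ j, η' j ^ k j)
    (hη' : ∀ j, η' j ≠ 0) (hdim : Few L ξ η) : Few L₁ ξ' η' := by
  obtain ⟨κ, ⟨s, hs, hsr⟩, hor⟩ := hdim
  rcases Nat.eq_zero_or_pos κ with hκ | hκ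
  · subst hκ
    have ht : t = 0 := by
      rcases hor with h | ⟨d, u, _, h⟩ <;> omega
    subst ht
    refine ⟨0, ⟨fun i => i.elim0, ?_, fun i => i.elim0⟩, Or.inl (by omega)⟩
    rw [algebraicIndependent_empty_type_iff]
    exact (algebraMap L₁ Ω).injective
  · obtain ⟨κ', rfl⟩ : ∃ κ', κ = κ' + 1 := ⟨κ - 1, by omega⟩
    obtain ⟨e, he⟩ := exists_drop hext s hs
    set T : Set Ω := Set.range ξ' ∪ Set.range η' with hT
    have hξT : ∀ j, ξ' j ∈ IntermediateField.adjoin L₁ T := fun j =>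
      IntermediateField.subset_adjoin _ _ (Or.inl ⟨j, rfl⟩)
    have hηT : ∀ j, η' j ∈ IntermediateField.adjoin L₁ T := fun j =>
      IntermediateField.subset_adjoin _ _ (Or.inr ⟨j, rfl⟩)
    have hζT : (ζ : Ω) ∈ IntermediateField.adjoin L₁ T :=
      (IntermediateField.adjoin L₁ T).algebraMap_mem ζ
    have hθT : (θ : Ω) ∈ IntermediateField.adjoin L₁ T :=
      (IntermediateField.adjoin L₁ T).algebraMap_mem θ
    have hξ : ∀ i, ξ i ∈ IntermediateField.adjoin L₁ T := by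
      intro i
      refine Fin.succAboveCases i₀ ?_ ?_ i
      · have h5 : ξ i₀ = (ζ : Ω) - ∑ j, (k j : Ω) * ξ' j := by rw [h3]; ring
        rw [h5]
        exact sub_mem hζT (sum_mem fun j _ => mul_mem (intCast_mem _ _) (hξT j))
      · intro j
        rw [h1]
        exact mul_mem (natCast_mem _ _) (hξT j)
    have hη : ∀ i, η i ∈ IntermediateField.adjoin L₁ T := by
      intro i
      refine Fin.succAboveCases i₀ ?_ ?_ i
      · have hprod0 : ∏ j, η' j ^ k j ≠ 0 :=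
          Finset.prod_ne_zero_iff.2 fun j _ => zpow_ne_zero _ (hη' j)
        have h5 : η i₀ = (θ : Ω) * (∏ j, η' j ^ k j)⁻¹ := by
          rw [h4, mul_assoc, mul_inv_cancel₀ hprod0, mul_one]
        rw [h5]
        exact mul_mem hθT (inv_mem (prod_mem fun j _ => zpow_mem (hηT j) _))
      · intro j
        rw [h2]
        exact pow_mem (hηT j) N
    obtain ⟨s', hs', hs'T⟩ := exists_of_alg L₁ T (fun i => s (e i)) he (by
      intro i
      have h6 : s (e i) ∈ IntermediateField.adjoin L₁ T := by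
        rcases hsr (e i) with ⟨j, hj⟩ | ⟨j, hj⟩
        · rw [← hj]
          exact hξ j
        · rw [← hj]
          exact hη j
      exact isAlgebraic_algebraMap (⟨s (e i), h6⟩ : IntermediateField.adjoin L₁ T))
    refine ⟨κ', ⟨s', hs', hs'T⟩, ?_⟩
    rcases hor with h | ⟨d, u, hu, h⟩
    · left
      omega
    · right
      refine ⟨d, u, ?_, by omega⟩
      intro j
      have hN0 : (N : Ω) ≠ 0 := Nat.cast_ne_zero.2 (by omega)
      have h7 : ξ' j = (N : Ω)⁻¹ * ξ (i₀.succAbove j) := by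
        rw [h1, ← mul_assoc, inv_mul_cancel₀ hN0, one_mul]
      rw [h7]
      apply IsAlgebraic.mul
      · apply IsAlgebraic.inv
        exact isAlgebraic_natCast N
      · exact stepV_alg_mono hext.le _ (hu _)

/-- **The step of the induction, if `V` is not free.**

Proof. Take the data of `step_data`. Write `K` for the image of `L`, `z = V.ψ ζ`, `exp z = V.ψ θ`. In the first case
(`ζ ∈ L`, so `z ∈ K`, `V.ψ θ ∉ K`) put `q = θ`, in the second case (`θ ∈ L`, so `exp z ∈ K`, `z ∉ K`) put `q = ζ`. By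
`exists_ext_place` (`hcl` from `hP.good.closed`) we get `L₁`, with image `K₁`; `ζ, θ ∈ L₁`. `Pair.step` (for `p = V.ψ q`)
gives `σ₁`. Apply `ih` to `V`, `L₁`, `σ₁`, `ξ'`, `η'`: closedness from `IsExt`, independence from `ind_new`, dimension
from `few_new` (`η' j ≠ 0` because `V.ψ (η' j) ≠ 0`; `Place.charZero`). Conclude by `sol_of_sol` with `τ₁ = σ₁ ∘ res L₁`, `τ = σ ∘ res L`:
`σ₁ (V.ψ c) = σ (V.ψ c)` for `c ∈ L`, `τ₁ θ = σ₁ (exp z) = exp (σ₁ z)`. -/
theorem step {t : ℕ} (ih : P t) {Ω : Type} [Field Ω] [IsAlgClosed Ω] (V : Place Ω)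
    (L : Subfield Ω) (hL : L.toSubring ≤ V.B) (hLc : ∀ x : Ω, IsAlgebraic L x → x ∈ L)
    (σ : ℂ ≃+* ℂ) (hP : Pair (V.res L hL).fieldRange σ) (ξ η : Fin (t + 1) → V.B)
    (hexp : ∀ j, V.ψ (η j) = Complex.exp (V.ψ (ξ j)))
    (hind : ∀ m : Fin (t + 1) → ℤ,
      UU (V.res L hL).fieldRange (∑ j, (m j : ℂ) * V.ψ (ξ j)) → m = 0)
    (hdim : Few L (fun j => (ξ j : Ω)) fun j => (η j : Ω))
    (m : Fin (t + 1) → ℤ) (hm : m ≠ 0)
    (h : ∑ j, (m j : Ω) * (ξ j : Ω) ∈ L ∨ ∏ j, (η j : Ω) ^ m j ∈ L) :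
    Sol L ((σ : ℂ →+* ℂ).comp (V.res L hL)) (fun j => (ξ j : Ω)) fun j => (η j : Ω) := by
  obtain ⟨i₀, N, k, ξ', η', ζ, θ, hN, h1, h2, hexp', h3, h4, hθζ, hor⟩ :=
    step_data V L hL hLc ξ η hexp hind m hm h
  have hcz : CharZero Ω := V.charZero
  -- the extension
  have key : ∃ (q : Ω) (L₁ : Subfield Ω) (hL₁ : L₁.toSubring ≤ V.B) (σ₁ : ℂ ≃+* ℂ),
      IsExt L L₁ q ∧ (ζ : Ω) ∈ L₁ ∧ (θ : Ω) ∈ L₁ ∧
      (∀ c ∈ (V.res L hL).fieldRange, σ₁ c = σ c) ∧
      σ₁ (Complex.exp (V.ψ ζ)) = Complex.exp (σ₁ (V.ψ ζ)) ∧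
      Pair (V.res L₁ hL₁).fieldRange σ₁ ∧
      ∀ w, UU (V.res L₁ hL₁).fieldRange w → ∃ (M : ℕ) (l : ℤ), 0 < M ∧
        UU (V.res L hL).fieldRange (M * w - l * V.ψ ζ) := by
    rcases hor with ⟨hζ, hθ⟩ | ⟨hθ, hζ⟩
    · obtain ⟨L₁, hL₁, he1, he2⟩ := exists_ext_place V L hL hP.good.closed θ hθ
      obtain ⟨σ₁, hσ1, hσ2, hσ3, hσ4⟩ := hP.step (z := V.ψ ζ) (p := V.ψ θ)
        (Or.inl ⟨⟨⟨ζ, hζ⟩, rfl⟩, hθζ⟩) hθ he2
      exact ⟨θ, L₁, hL₁, σ₁, he1, he1.le hζ, he1.mem, hσ1, hσ2, hσ3, hσ4⟩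
    · obtain ⟨L₁, hL₁, he1, he2⟩ := exists_ext_place V L hL hP.good.closed ζ hζ
      obtain ⟨σ₁, hσ1, hσ2, hσ3, hσ4⟩ := hP.step (z := V.ψ ζ) (p := V.ψ ζ)
        (Or.inr ⟨⟨⟨θ, hθ⟩, hθζ⟩, rfl⟩) hζ he2
      exact ⟨ζ, L₁, hL₁, σ₁, he1, he1.mem, he1.le hθ, hσ1, hσ2, hσ3, hσ4⟩
  obtain ⟨q, L₁, hL₁, σ₁, hext, hζ₁, hθ₁, hσ1, hσ2, hσ3, hσ4⟩ := key
  have hη'0 : ∀ j, (η' j : Ω) ≠ 0 := by
    intro j h0
    have h5 : η' j = 0 := Subtype.ext h0
    have h6 := hexp' j
    rw [h5, map_zero] at h6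
    exact Complex.exp_ne_zero _ h6.symm
  have hfew : Few L₁ (fun j => (ξ' j : Ω)) (fun j => (η' j : Ω)) :=
    few_new L L₁ q hext (fun j => (ξ j : Ω)) (fun j => (η j : Ω)) i₀ N hN k
      (fun j => (ξ' j : Ω)) (fun j => (η' j : Ω)) ⟨ζ, hζ₁⟩ ⟨θ, hθ₁⟩ h1 h2 h3 h4 hη'0 hdim
  have hsol := ih Ω V L₁ hL₁ hext.closed σ₁ hσ3 ξ' η' hexp'
    (fun m' hm' => ind_new V _ _ ξ hind i₀ N hN k ξ' ζ h1 h3 hσ4 m' hm') hfew
  refine sol_of_sol L L₁ hext.le _ _ ?_ (fun j => (ξ j : Ω)) (fun j => (η j : Ω)) i₀ N hN k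
    (fun j => (ξ' j : Ω)) (fun j => (η' j : Ω)) ⟨ζ, hζ₁⟩ ⟨θ, hθ₁⟩ h1 h2 h3 h4 hη'0 ?_ hsol
  · intro c
    exact hσ1 _ ⟨c, rfl⟩
  · show σ₁ (V.ψ θ) = Complex.exp (σ₁ (V.ψ ζ))
    rw [hθζ]
    exact hσ2

end Pool.Agent.Lib.MP_209724_lc.QM
end

section

namespace Pool.Agent.Lib.MP_209724_lc.QM

open MvPolynomial

/-- From a point to a homomorphism.

Proof. Let `A` be the range of `aeval (Sum.elim ξ η) : MvPolynomial (Fin t ⊕ Fin t) L → Ω`, as a subring of `Ω`. By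
`h` the ring homomorphism `eval₂ τ (Sum.elim x (exp ∘ x))` to `ℂ` vanishes on the kernel, so it factors through `A`:
`φ : A →+* ℂ`. Extend `φ` to a place `V` (`exists_place`); `D = V.B`, `χ = V.ψ`; `χ (ξ j) = x j`,
`χ (η j) = exp (x j) ≠ 0`, so `(η j)⁻¹ ∈ D` by `V.loc`. -/
theorem sol_of_point {t : ℕ} {Ω : Type} [Field Ω] (L : Subfield Ω) (τ : L →+* ℂ)
    (ξ η : Fin t → Ω) (x : Fin t → ℂ)
    (h : ∀ f : MvPolynomial (Fin t ⊕ Fin t) L, aeval (Sum.elim ξ η) f = 0 →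
      eval₂ τ (Sum.elim x fun j => Complex.exp (x j)) f = 0) : Sol L τ ξ η := by
  classical
  let F : MvPolynomial (Fin t ⊕ Fin t) L →+* Ω :=
    (aeval (Sum.elim ξ η) : MvPolynomial (Fin t ⊕ Fin t) L →ₐ[L] Ω).toRingHom
  have hFdef : ∀ f, F f = aeval (Sum.elim ξ η) f := fun _ => rfl
  let G : MvPolynomial (Fin t ⊕ Fin t) L →+* ℂ :=
    eval₂Hom τ (Sum.elim x fun j => Complex.exp (x j))
  have hGdef : ∀ f, G f = eval₂ τ (Sum.elim x fun j => Complex.exp (x j)) f := fun _ => rfl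
  have hker : RingHom.ker F.rangeRestrict ≤ RingHom.ker G := by
    intro f hf
    rw [RingHom.mem_ker] at hf ⊢
    have hf' : F f = 0 := congrArg Subtype.val hf
    exact h f hf'
  let φ : F.range →+* ℂ :=
    F.rangeRestrict.liftOfSurjective F.rangeRestrict_surjective ⟨G, hker⟩
  have hφ : ∀ f, φ (F.rangeRestrict f) = G f := fun f =>
    RingHom.liftOfRightInverse_comp_apply F.rangeRestrict _ _ ⟨G, hker⟩ f
  obtain ⟨V, hA, hV⟩ := exists_place F.range φ
  have hmem : ∀ f, F f ∈ V.B := fun f => hA ⟨f, rfl⟩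
  have hval : ∀ f, V.ψ ⟨F f, hmem f⟩ = G f := by
    intro f
    rw [← hφ f, ← hV]
    rfl
  have hgen : ∀ (y : Ω) (f : MvPolynomial (Fin t ⊕ Fin t) L), F f = y →
      ∃ hy : y ∈ V.B, V.ψ ⟨y, hy⟩ = G f := by
    rintro y f rfl
    exact ⟨hmem f, hval f⟩
  have hcst : ∀ c : L, F (C c) = (c : Ω) := by
    intro c
    rw [hFdef, algHom_C]
    rfl
  have hξ : ∀ j, F (X (Sum.inl j)) = ξ j := by
    intro j
    rw [hFdef, aeval_X, Sum.elim_inl]
  have hη' : ∀ j, F (X (Sum.inr j)) = η j := by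
    intro j
    rw [hFdef, aeval_X, Sum.elim_inr]
  have hL : L.toSubring ≤ V.B := by
    intro c hc
    exact (hgen c (C ⟨c, hc⟩) (hcst ⟨c, hc⟩)).choose
  refine ⟨V.B, V.ψ, hL, ?_, ?_⟩
  · intro c
    obtain ⟨hy, h1⟩ := hgen (c : Ω) (C c) (hcst c)
    rw [hGdef, eval₂_C] at h1
    exact h1
  · intro j
    obtain ⟨h1, h1'⟩ := hgen (ξ j) _ (hξ j)
    obtain ⟨h2, h2'⟩ := hgen (η j) _ (hη' j)
    rw [hGdef, eval₂_X, Sum.elim_inl] at h1'
    rw [hGdef, eval₂_X, Sum.elim_inr] at h2'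
    refine ⟨h1, h2, ?_, ?_⟩
    · refine V.loc ⟨η j, h2⟩ ?_
      rw [h2']
      exact Complex.exp_ne_zero _
    · rw [h1', h2']

private theorem td_ge {Ω' : Type} [Field Ω'] [Algebra ℂ Ω'] {r : ℕ} {s : Fin r → Ω'}
    (hs : AlgebraicIndependent ℂ s) {S : Set Ω'} (hS : ∀ i, s i ∈ S) :
    (r : ℕ∞) ≤ OV.td S := by
  have h2 : (AlgebraicIndependent.matroid ℂ Ω').Indep (Set.range s) :=
    (AlgebraicIndependent.matroid_indep_iff (R := ℂ) (A := Ω')).2 hs.to_subtype_range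
  have h3 : (Set.range s).encard = r := by
    rw [← Set.image_univ, hs.injective.injOn.encard_image, Set.encard_univ]
    simp
  rw [← h3]
  exact h2.encard_le_eRk_of_subset (Set.range_subset_iff.2 hS)

private theorem mem_cl_of {Ω Ω' : Type} [Field Ω] [Field Ω'] [Algebra ℂ Ω'] (L : Subfield Ω)
    (τ : L →+* ℂ) (θ : Ω →+* Ω') (hθ : ∀ c : L, θ c = algebraMap ℂ Ω' (τ c)) {d : ℕ}
    (u : Fin d → Ω) {y : Ω} (hy : IsAlgebraic (IntermediateField.adjoin L (Set.range u)) y) :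
    θ y ∈ OV.cl (Set.range fun i => θ (u i)) := by
  have h1 : ∀ z ∈ IntermediateField.adjoin L (Set.range u),
      θ z ∈ OV.Cl (Set.range fun i => θ (u i)) := by
    intro z hz
    induction hz using IntermediateField.adjoin_induction with
    | mem z hz =>
      obtain ⟨i, rfl⟩ := hz
      exact OV.subset_cl _ ⟨i, rfl⟩
    | algebraMap c =>
      have h2 : θ (algebraMap L Ω c) = algebraMap ℂ Ω' (τ c) := hθ c
      rw [h2]
      exact (OV.Cl _).algebraMap_mem _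
    | add a b _ _ ha hb =>
      rw [map_add]
      exact add_mem ha hb
    | inv a _ ha =>
      rw [map_inv₀]
      exact inv_mem ha
    | mul a b _ _ ha hb =>
      rw [map_mul]
      exact mul_mem ha hb
  let g : IntermediateField.adjoin L (Set.range u) →+* OV.Cl (Set.range fun i => θ (u i)) :=
    (θ.comp (algebraMap (IntermediateField.adjoin L (Set.range u)) Ω)).codRestrict
      (OV.Cl (Set.range fun i => θ (u i))) fun z => h1 z z.2
  refine OV.mem_cl_of_isAlgebraic ?_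
  obtain ⟨p, hp, hpy⟩ := hy
  refine ⟨p.map g, (Polynomial.map_ne_zero_iff g.injective).2 hp, ?_⟩
  rw [Polynomial.aeval_def] at hpy ⊢
  rw [Polynomial.eval₂_map]
  have h3 := congrArg θ hpy
  rw [map_zero, Polynomial.hom_eval₂] at h3
  exact h3

/-- **The free case.**

Proof. Take `Ω'`, `θ` from `exists_transport L τ`; apply `CT.few` (with `n = t + 1`) to `ξ' = θ ∘ ξ`, `η' = θ ∘ η`:
* `OV.lin m ξ' = θ (∑ m i * ξ i)` and `OV.mon m η' = θ (∏ η i ^ m i)`; for `m ≠ 0` the element in the bracket is not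
  in `L`, so it is transcendental over `L` (`hLc`), i.e. `![·]` is algebraically independent over `L`, hence its
  image is transcendental over `ℂ` and not constant.
* `CT.Rot ξ' η'` from `hrot` and `k ≤ OV.td (range ξ' ∪ range η')` from `hdim`: the images under `θ` of the
  algebraically independent elements are algebraically independent over `ℂ`, and they are in
  `CT.st ξ' η' (range w) (range w)`, in `range ξ' ∪ range η'`; the rank `OV.td` of a set containing an algebraically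
  independent family `Fin r → Ω'` is at least `r` (the family is injective;
  `Matroid.Indep.encard_le_eRk_of_subset` or `OV.le_td...`).
* The last hypothesis of `CT.few`: its first alternative from the first alternative of `hdim`; its second
  alternative from the second one: every `θ (ξ j)` is algebraic over `ℂ(range (θ ∘ u))` (apply `θ` to the
  coefficients), so `OV.td (range ξ') ≤ OV.td (range (θ ∘ u)) ≤ d` (`OV.td_le_encard`; the range of `θ ∘ u` has at most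
  `d` elements).
`OV.HasExp ξ' η'` for `c = 1`, `R = 0` gives `x`; `sol_of_point`: if `f` over `L` vanishes at `(ξ, η)`, then
`f.map τ` vanishes at `(ξ', η')` (`θ (aeval (Sum.elim ξ η) f) = aeval (Sum.elim ξ' η') (f.map τ)`). -/
theorem sol_of_free {t : ℕ} {Ω : Type} [Field Ω] (L : Subfield Ω)
    (hLc : ∀ x : Ω, IsAlgebraic L x → x ∈ L) (τ : L →+* ℂ) (ξ η : Fin (t + 1) → Ω)
    (hη : ∀ i, η i ≠ 0)
    (hadd : ∀ m : Fin (t + 1) → ℤ, m ≠ 0 → ∑ i, (m i : Ω) * ξ i ∉ L)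
    (hmul : ∀ m : Fin (t + 1) → ℤ, m ≠ 0 → ∏ i, η i ^ m i ∉ L)
    (hrot : ∀ (r : ℕ) (w : Fin r → Fin (t + 1) → ℤ), LinearIndependent ℤ w →
      ∃ s : Fin r → Ω, AlgebraicIndependent L s ∧
        ∀ j, s j ∈ Set.range (fun i => ∑ k, (w i k : Ω) * ξ k) ∪
          Set.range fun i => ∏ k, η k ^ w i k)
    (hdim : Few L ξ η) : Sol L τ ξ η := by
  obtain ⟨Ω', _, _, _, θ, hθ, hind⟩ := exists_transport L τ
  have hlin : ∀ m : Fin (t + 1) → ℤ,
      OV.lin m (fun i => θ (ξ i)) = θ (∑ i, (m i : Ω) * ξ i) := by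
    intro m
    simp [OV.lin, map_sum, map_mul]
  have hmon : ∀ m : Fin (t + 1) → ℤ,
      OV.mon m (fun i => θ (η i)) = θ (∏ i, η i ^ m i) := by
    intro m
    simp [OV.mon, map_prod, map_zpow₀]
  have hnc : ∀ y : Ω, y ∉ L → ¬ OV.IsConst (θ y) := by
    intro y hy hc
    have htr : Transcendental L y := fun h => hy (hLc y h)
    have hai : AlgebraicIndependent L (fun _ : Fin 1 => y) :=
      algebraicIndependent_unique_type_iff.2 htr
    have h1 : Transcendental ℂ (θ y) := algebraicIndependent_unique_type_iff.1 (hind 1 _ hai)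
    obtain ⟨c, hc⟩ := hc
    rw [hc] at h1
    exact h1 (isAlgebraic_algebraMap c)
  have hrot' : CT.Rot (fun i => θ (ξ i)) fun i => θ (η i) := by
    intro r w hw
    obtain ⟨s, hs, hsm⟩ := hrot r w hw
    refine td_ge (hind r s hs) fun i => ?_
    rcases hsm i with ⟨j, hj⟩ | ⟨j, hj⟩
    · refine Or.inl ⟨w j, ⟨j, rfl⟩, ?_⟩
      show OV.lin (w j) (fun i => θ (ξ i)) = θ (s i)
      rw [hlin, ← hj]
    · refine Or.inr ⟨w j, ⟨j, rfl⟩, ?_⟩
      show OV.mon (w j) (fun i => θ (η i)) = θ (s i)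
      rw [hmon, ← hj]
  obtain ⟨k, ⟨s, hs, hsm⟩, hk⟩ := hdim
  have hktd : (k : ℕ∞) ≤ OV.td (Set.range (fun i => θ (ξ i)) ∪ Set.range fun i => θ (η i)) := by
    refine td_ge (hind k s hs) fun i => ?_
    rcases hsm i with ⟨j, hj⟩ | ⟨j, hj⟩
    · exact Or.inl ⟨j, by rw [← hj]⟩
    · exact Or.inr ⟨j, by rw [← hj]⟩
  have hlast : (2 * (t + 1 : ℕ) : ℕ∞) ≤
      OV.td (Set.range (fun i => θ (ξ i)) ∪ Set.range fun i => θ (η i)) + 3 ∨
      OV.td (Set.range fun i => θ (ξ i)) + (t + 1 : ℕ) ≤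
        OV.td (Set.range (fun i => θ (ξ i)) ∪ Set.range fun i => θ (η i)) + 1 := by
    rcases hk with hk | ⟨d, u, hu, hdk⟩
    · left
      refine le_trans ?_ (add_le_add_left hktd 3)
      exact_mod_cast hk
    · right
      have h1 : OV.td (Set.range fun i => θ (ξ i)) ≤ d := by
        refine (OV.td_le_of_subset_cl (t := Set.range fun i => θ (u i)) ?_).trans ?_
        · rintro _ ⟨j, rfl⟩
          exact mem_cl_of L τ θ hθ u (hu j)
        · refine (OV.td_le_encard _).trans ?_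
          rw [← Set.image_univ]
          refine (Set.encard_image_le _ _).trans ?_
          simp
      calc OV.td (Set.range fun i => θ (ξ i)) + (t + 1 : ℕ) ≤ (d : ℕ∞) + (t + 1 : ℕ) :=
            add_le_add_left h1 _
        _ ≤ (k : ℕ∞) + 1 := by exact_mod_cast hdk
        _ ≤ _ := add_le_add_left hktd 1
  have hexp := CT.few (n := t + 1) (Nat.succ_pos t) (fun i => θ (ξ i)) (fun i => θ (η i))
    (fun i => by
      rw [Ne, map_eq_zero]
      exact hη i)
    (fun m hm => by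
      rw [hlin]
      exact hnc _ (hadd m hm))
    (fun m hm => by
      rw [hmon]
      exact hnc _ (hmul m hm)) hrot' hlast
  obtain ⟨x, -, -, hx⟩ := hexp 1 (by rw [map_one]; exact one_ne_zero) 0
  refine sol_of_point L τ ξ η x fun f hf => ?_
  have h1 : aeval (Sum.elim (fun i => θ (ξ i)) fun i => θ (η i)) (map τ f) = 0 := by
    rw [aeval_def, eval₂_map]
    have h2 : (algebraMap ℂ Ω').comp τ = θ.comp (algebraMap L Ω) := by
      ext c
      exact (hθ c).symm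
    have h3 : (Sum.elim (fun i => θ (ξ i)) fun i => θ (η i)) = θ ∘ Sum.elim ξ η := by
      funext i
      rcases i with i | i <;> rfl
    rw [h2, h3, ← eval₂_comp_left]
    rw [aeval_def] at hf
    rw [hf, map_zero]
  have h4 := hx (map τ f) h1
  rw [eval_map] at h4
  exact h4

end Pool.Agent.Lib.MP_209724_lc.QM
end

section

namespace Pool.Agent.Lib.MP_209724_lc.QM

/-- **The statement `P t` for all `t`.**

Proof. Induction. `t = 0`: `D = L.toSubring`, `χ = σ ∘ res`; there are no `j`. `t + 1`: if there is `m ≠ 0` with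
`∑ m j * ξ j ∈ L` or `∏ η j ^ m j ∈ L` use `step`. Otherwise `sol_of_free`, with `rot_of_place` (`hP.good`) and
`η j ≠ 0` because `V.ψ (η j) = exp _ ≠ 0`. -/
theorem P_all (t : ℕ) : P t := by
  induction t with
  | zero =>
    intro Ω _ _ V L hL hLc σ hP ξ η hexp hind hdim
    exact ⟨L.toSubring, (σ : ℂ →+* ℂ).comp (V.ψ.comp (Subring.inclusion hL)), le_rfl,
      fun c => rfl, fun j => j.elim0⟩
  | succ t ih =>
    intro Ω _ _ V L hL hLc σ hP ξ η hexp hind hdim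
    by_cases h : ∃ m : Fin (t + 1) → ℤ, m ≠ 0 ∧
        (∑ j, (m j : Ω) * (ξ j : Ω) ∈ L ∨ ∏ j, (η j : Ω) ^ m j ∈ L)
    · obtain ⟨m, hm, h⟩ := h
      exact step ih V L hL hLc σ hP ξ η hexp hind hdim m hm h
    · refine sol_of_free L hLc _ (fun j => (ξ j : Ω)) (fun j => (η j : Ω)) (fun i hi => ?_)
        (fun m hm h' => h ⟨m, hm, Or.inl h'⟩) (fun m hm h' => h ⟨m, hm, Or.inr h'⟩)
        (fun r w hw => rot_of_place V L hL hP.good ξ η hexp hind w hw) hdim
      have h0 : η i = 0 := Subtype.ext hi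
      have h1 := hexp i
      rw [h0, map_zero] at h1
      exact Complex.exp_ne_zero _ h1.symm

end Pool.Agent.Lib.MP_209724_lc.QM
end

section

namespace Pool.Agent.Lib.MP_209724_lc.QM

open MvPolynomial

/-- The polynomials of the substitution. -/
noncomputable def sub {K : Subfield ℂ} {n r : ℕ} (α ε : Fin n → K)
    (A : Fin n → Fin r → ℤ) :
    Fin n ⊕ Fin n → MvPolynomial (Fin r ⊕ Fin r ⊕ Fin r) K :=
  Sum.elim (fun i => C (α i) + ∑ j, C (A i j : K) * X (Sum.inl j))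
    fun i => C (ε i) * ∏ j, (X (Sum.inr (Sum.inl j)) ^ (A i j).toNat *
      X (Sum.inr (Sum.inr j)) ^ (-(A i j)).toNat)

theorem zpow_split {F : Type*} [Field F] {y : F} (k : ℤ) :
    y ^ k.toNat * (y⁻¹) ^ (-k).toNat = y ^ k := by
  rcases le_total 0 k with h | h
  · have h1 : (-k).toNat = 0 := by omega
    rw [h1, pow_zero, mul_one, ← zpow_natCast, Int.toNat_of_nonneg h]
  · have h1 : k.toNat = 0 := by omega
    rw [h1, pow_zero, one_mul, ← zpow_natCast, Int.toNat_of_nonneg (by omega), inv_zpow,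
      ← zpow_neg, neg_neg]

/-- The value of the substitution at a point of the graph of `exp`. -/
theorem eval_sub {K : Subfield ℂ} {n r : ℕ} (φ : K →+* ℂ) (α ε : Fin n → K)
    (A : Fin n → Fin r → ℤ) (v : Fin r → ℂ) (x : Fin n → ℂ)
    (h1 : ∀ i, x i = φ (α i) + ∑ j, (A i j : ℂ) * v j)
    (h2 : ∀ i, φ (ε i) = Complex.exp (φ (α i))) (i : Fin n ⊕ Fin n) :
    eval₂ φ (Sum.elim v (Sum.elim (fun j => Complex.exp (v j)) fun j => Complex.exp (-v j)))
      (sub α ε A i) = Sum.elim x (fun i => Complex.exp (x i)) i := by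
  rcases i with i | i
  · simp only [sub, Sum.elim_inl, eval₂_add, eval₂_C, h1 i]
    congr 1
    rw [eval₂_sum]
    refine Finset.sum_congr rfl fun j _ => ?_
    rw [eval₂_mul, eval₂_C, eval₂_X, map_intCast, Sum.elim_inl]
  · simp only [sub, Sum.elim_inr, eval₂_mul, eval₂_C, h1 i, h2 i, Complex.exp_add,
      Complex.exp_sum]
    congr 1
    rw [eval₂_prod]
    refine Finset.prod_congr rfl fun j _ => ?_
    rw [eval₂_mul, eval₂_pow, eval₂_pow, eval₂_X, eval₂_X, Sum.elim_inr, Sum.elim_inr,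
      Sum.elim_inl, Sum.elim_inr, Complex.exp_neg, zpow_split,
      Complex.exp_int_mul]

/-- The value of the substituted polynomial. -/
theorem eval_subst {K : Subfield ℂ} {n r : ℕ} (φ : K →+* ℂ) (α ε : Fin n → K)
    (A : Fin n → Fin r → ℤ) (v : Fin r → ℂ) (x : Fin n → ℂ)
    (h1 : ∀ i, x i = φ (α i) + ∑ j, (A i j : ℂ) * v j)
    (h2 : ∀ i, φ (ε i) = Complex.exp (φ (α i)))
    (f : MvPolynomial (Fin n ⊕ Fin n) K) :
    eval₂ φ (Sum.elim v (Sum.elim (fun j => Complex.exp (v j)) fun j => Complex.exp (-v j)))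
      (aeval (sub α ε A) f) = eval₂ φ (Sum.elim x (fun i => Complex.exp (x i))) f := by
  have h3 := MvPolynomial.hom_eval₂ f MvPolynomial.C
    (eval₂Hom φ (Sum.elim v (Sum.elim (fun j => Complex.exp (v j))
      fun j => Complex.exp (-v j)))) (sub α ε A)
  rw [coe_eval₂Hom] at h3
  rw [aeval_def, MvPolynomial.algebraMap_eq, h3]
  have h4 : (eval₂Hom φ (Sum.elim v (Sum.elim (fun j => Complex.exp (v j))
      fun j => Complex.exp (-v j)))).comp MvPolynomial.C = φ := by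
    ext c
    simp
  rw [h4]
  congr 1
  funext i
  exact eval_sub φ α ε A v x h1 h2 i

/-- Polynomials without the variables `exp (x i)` do not contain exponentials after the substitution. -/
theorem subst_range {K : Subfield ℂ} {n r : ℕ} (α ε : Fin n → K)
    (A : Fin n → Fin r → ℤ) (f : MvPolynomial (Fin n ⊕ Fin n) K)
    (hf : ∀ i : Fin n, Sum.inr i ∉ f.vars) :
    ∃ g' : MvPolynomial (Fin r) K, aeval (sub α ε A) f = rename Sum.inl g' := by
  have key : aeval (sub α ε A) f ∈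
      (rename Sum.inl : MvPolynomial (Fin r) K →ₐ[K]
        MvPolynomial (Fin r ⊕ Fin r ⊕ Fin r) K).range := by
    rw [aeval_def, eval₂_eq']
    refine Subalgebra.sum_mem _ fun d hd => Subalgebra.mul_mem _ ?_ ?_
    · exact ⟨MvPolynomial.C (coeff d f), by simp⟩
    · refine Subalgebra.prod_mem _ fun i _ => ?_
      rcases i with i | i
      · have h1 : sub α ε A (Sum.inl i) ∈ (rename Sum.inl : MvPolynomial (Fin r) K →ₐ[K]
            MvPolynomial (Fin r ⊕ Fin r ⊕ Fin r) K).range :=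
          ⟨MvPolynomial.C (α i) + ∑ j, MvPolynomial.C (A i j : K) * X j, by simp [sub]⟩
        exact Subalgebra.pow_mem _ h1 _
      · have h0 : d (Sum.inr i) = 0 := by
          by_contra h0
          exact hf i (mem_vars_iff_mem_support _ |>.2 ⟨d, hd, Finsupp.mem_support_iff.2 h0⟩)
        rw [h0, pow_zero]
        exact Subalgebra.one_mem _
  obtain ⟨g', hg'⟩ := key
  exact ⟨g', hg'.symm⟩

/-- The value of the substituted polynomials under a homomorphism from a subring of `Ω`. -/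
theorem eval_hom {K : Subfield ℂ} {Ω : Type} [Field Ω] {r : ℕ} (ι : K →+* Ω) (φ : K →+* ℂ)
    (D : Subring Ω) (χ : D →+* ℂ) (hι : ∀ c : K, ι c ∈ D) (hχ : ∀ c : K, χ ⟨ι c, hι c⟩ = φ c)
    (ξ η : Fin r → Ω) (hξ : ∀ j, ξ j ∈ D) (hη : ∀ j, η j ∈ D) (hη' : ∀ j, (η j)⁻¹ ∈ D)
    (h0 : ∀ j, η j ≠ 0) (he : ∀ j, χ ⟨η j, hη j⟩ = Complex.exp (χ ⟨ξ j, hξ j⟩))
    (g : MvPolynomial (Fin r ⊕ Fin r ⊕ Fin r) K)
    (hg : eval₂ ι (Sum.elim ξ (Sum.elim η fun j => (η j)⁻¹)) g = 0) :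
    eval₂ φ (Sum.elim (fun j => χ ⟨ξ j, hξ j⟩) (Sum.elim
      (fun j => Complex.exp (χ ⟨ξ j, hξ j⟩)) fun j => Complex.exp (-χ ⟨ξ j, hξ j⟩))) g = 0 := by
  let ιD : K →+* D := ι.codRestrict D hι
  let w : Fin r ⊕ Fin r ⊕ Fin r → D := Sum.elim (fun j => ⟨ξ j, hξ j⟩)
    (Sum.elim (fun j => ⟨η j, hη j⟩) fun j => ⟨(η j)⁻¹, hη' j⟩)
  have h1 : D.subtype (eval₂ ιD w g) = 0 := by
    rw [MvPolynomial.hom_eval₂]
    have h2 : D.subtype.comp ιD = ι := by ext c; rfl
    rw [h2, ← hg]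
    congr 1
    funext i
    rcases i with i | i | i <;> rfl
  have h3 : eval₂ ιD w g = 0 := by
    apply D.subtype_injective
    rw [h1, map_zero]
  have h4 := congrArg χ h3
  rw [map_zero, MvPolynomial.hom_eval₂] at h4
  have h5 : χ.comp ιD = φ := by ext c; exact hχ c
  rw [h5] at h4
  rw [← h4]
  congr 1
  funext i
  rcases i with i | i | i
  · rfl
  · exact (he i).symm
  · have h6 : χ ⟨η i, hη i⟩ * χ ⟨(η i)⁻¹, hη' i⟩ = 1 := by
      rw [← map_mul]
      have : (⟨η i, hη i⟩ : D) * ⟨(η i)⁻¹, hη' i⟩ = 1 :=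
        Subtype.ext (mul_inv_cancel₀ (h0 i))
      rw [this, map_one]
    show Complex.exp (-χ ⟨ξ i, hξ i⟩) = χ ⟨(η i)⁻¹, hη' i⟩
    rw [Complex.exp_neg, ← he i]
    exact (eq_inv_of_mul_eq_one_right h6).symm

/-- **Transfer of solutions** along an exact pair. -/
theorem transferK {K : Subfield ℂ} {σ : ℂ ≃+* ℂ} (hP : EPair K σ)
    (hexp : ∀ z ∈ K, Complex.exp z ∈ K) {m : ℕ} (S : Set (MvPolynomial (Fin m ⊕ Fin m) K))
    (h : m ≤ 3 ∨ S.encard ≤ 3 ∨
      ∃ f₀, ∀ f ∈ S, f = f₀ ∨ ∀ i : Fin m, Sum.inr i ∉ f.vars)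
    (x : Fin m → ℂ) (hx : ∀ f ∈ S, aeval (Sum.elim x fun i => Complex.exp (x i)) f = 0) :
    ∃ y : Fin m → ℂ, ∀ f ∈ S, eval₂ ((σ : ℂ →+* ℂ).comp K.subtype)
      (Sum.elim y fun i => Complex.exp (y i)) f = 0 := by
  classical
  obtain ⟨r, v, A, c, hr, hc, hxe, hind⟩ := exists_basisK K x
  let α : Fin m → K := fun i => ⟨c i, hc i⟩
  let ε : Fin m → K := fun i => ⟨Complex.exp (c i), hexp _ (hc i)⟩
  let φ : K →+* ℂ := (σ : ℂ →+* ℂ).comp K.subtype
  let Φ : MvPolynomial (Fin m ⊕ Fin m) K → MvPolynomial (Fin r ⊕ Fin r ⊕ Fin r) K :=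
    fun f => aeval (sub α ε A) f
  have hΦ : ∀ f ∈ S, aeval (Sum.elim v (Sum.elim (fun j => Complex.exp (v j))
      fun j => Complex.exp (-v j))) (Φ f) = 0 := by
    intro f hf
    rw [aeval_def]
    have h1 := eval_subst (algebraMap K ℂ) α ε A v x
      (fun i => by rw [hxe i, add_comm]; rfl) (fun i => rfl) f
    rw [h1]
    exact hx f hf
  -- finitely many equations
  obtain ⟨G, hGS, hspan⟩ := Submodule.fg_span_iff_fg_span_finset_subset (Φ '' S) |>.1
    (IsNoetherian.noetherian (Ideal.span (Φ '' S)))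
  have hG : ∀ g ∈ G, aeval (Sum.elim v (Sum.elim (fun j => Complex.exp (v j))
      fun j => Complex.exp (-v j))) g = 0 := by
    intro g hg
    obtain ⟨f, hf, rfl⟩ := hGS hg
    exact hΦ f hf
  have hindU : ∀ k : Fin r → ℤ, UU K (∑ j, (k j : ℂ) * v j) → k = 0 :=
    fun k hk => hind k hk.1
  have h' : (r ≤ 3 ∧ ∃ s : Fin r → ℂ, AlgebraicIndependent K s ∧
      ∀ j, s j ∈ Set.range v ∪ Set.range fun i => Complex.exp (v i)) ∨ G.card ≤ 3 ∨
      ∃ g₀, ∀ g ∈ G, g = g₀ ∨ ∃ g' : MvPolynomial (Fin r) K, g = rename Sum.inl g' := by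
    rcases h with h | h | ⟨f₀, h⟩
    · exact Or.inl ⟨hr.trans h, hP.good.ax r v hindU⟩
    · refine Or.inr (Or.inl ?_)
      have h2 : (G.card : ℕ∞) ≤ 3 := by
        rw [← Set.encard_coe_eq_coe_finsetCard]
        exact (Set.encard_le_encard hGS).trans ((Set.encard_image_le _ _).trans h)
      exact_mod_cast h2
    · refine Or.inr (Or.inr ⟨Φ f₀, fun g hg => ?_⟩)
      obtain ⟨f, hf, rfl⟩ := hGS hg
      rcases h f hf with h | h
      · exact Or.inl (by rw [h])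
      · exact Or.inr (subst_range α ε A f h)
  obtain ⟨Ω, _, _, V, ι, hι, ξ, η, hVι, hLc, hVξ, hVη, hg, hfew⟩ :=
    exists_data K hP.good.closed v G hG h'
  have hKf : (V.res ι.fieldRange hι).fieldRange = K := by
    ext z
    constructor
    · rintro ⟨⟨_, ⟨c, rfl⟩⟩, rfl⟩
      have h1 : V.res ι.fieldRange hι ⟨ι c, ⟨c, rfl⟩⟩ = c := hVι c
      rw [h1]
      exact c.2
    · intro hz
      exact ⟨⟨ι ⟨z, hz⟩, ⟨⟨z, hz⟩, rfl⟩⟩, hVι ⟨z, hz⟩⟩
  obtain ⟨D, χ, hLD, hχ, hsol⟩ := P_all r Ω V ι.fieldRange hι hLc σ (by rw [hKf]; exact hP.pair) ξ η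
    (fun j => by rw [hVξ, hVη]) (by
      intro k hk
      rw [hKf] at hk
      refine hindU k ?_
      simpa only [hVξ] using hk) hfew
  have hξD : ∀ j, (ξ j : Ω) ∈ D := fun j => (hsol j).1
  have hηD : ∀ j, (η j : Ω) ∈ D := fun j => (hsol j).2.1
  have hηD' : ∀ j, (η j : Ω)⁻¹ ∈ D := fun j => (hsol j).2.2.1
  have he : ∀ j, χ ⟨η j, hηD j⟩ = Complex.exp (χ ⟨ξ j, hξD j⟩) := fun j => (hsol j).2.2.2
  have hη0 : ∀ j, (η j : Ω) ≠ 0 := by
    intro j h0
    have h1 : V.ψ (η j) = 0 := by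
      rw [show η j = 0 from Subtype.ext h0, map_zero]
    rw [hVη] at h1
    exact Complex.exp_ne_zero _ h1
  let y' : Fin r → ℂ := fun j => χ ⟨ξ j, hξD j⟩
  have hιD : ∀ c : K, ι c ∈ D := fun c => hLD ⟨c, rfl⟩
  have hχι : ∀ c : K, χ ⟨ι c, hιD c⟩ = φ c := by
    intro c
    have h1 := hχ ⟨ι c, ⟨c, rfl⟩⟩
    have h2 : V.res ι.fieldRange hι ⟨ι c, ⟨c, rfl⟩⟩ = c := hVι c
    rw [RingHom.comp_apply, h2] at h1
    exact h1
  have hall : ∀ g ∈ Φ '' S, eval₂ ι (Sum.elim (fun j => (ξ j : Ω)) (Sum.elim (fun j => (η j : Ω))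
      fun j => (η j : Ω)⁻¹)) g = 0 := by
    intro g hg'
    have h1 : g ∈ Ideal.span (G : Set (MvPolynomial (Fin r ⊕ Fin r ⊕ Fin r) K)) := by
      have h2 : g ∈ Submodule.span (MvPolynomial (Fin r ⊕ Fin r ⊕ Fin r) K) (Φ '' S) :=
        Submodule.subset_span hg'
      rw [hspan] at h2
      exact h2
    have h3 : Ideal.span (G : Set (MvPolynomial (Fin r ⊕ Fin r ⊕ Fin r) K)) ≤
        RingHom.ker (eval₂Hom ι (Sum.elim (fun j => (ξ j : Ω)) (Sum.elim (fun j => (η j : Ω))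
          fun j => (η j : Ω)⁻¹))) := Ideal.span_le.2 fun g hg2 => hg g hg2
    exact h3 h1
  refine ⟨fun i => σ (c i) + ∑ j, (A i j : ℂ) * y' j, fun f hf => ?_⟩
  have h7 := eval_hom ι φ D χ hιD hχι (fun j => (ξ j : Ω)) (fun j => (η j : Ω)) hξD hηD hηD' hη0
    he (Φ f) (hall _ ⟨f, hf, rfl⟩)
  rw [← h7]
  symm
  refine eval_subst φ α ε A y' _ (fun i => rfl) (fun i => ?_) f
  show σ (Complex.exp (c i)) = Complex.exp (σ (c i))
  exact hP.exact _ ⟨hc i, hexp _ (hc i)⟩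

end Pool.Agent.Lib.MP_209724_lc.QM
end

section

namespace Pool.Agent.Lib.MP_209724_lc.QM

open MvPolynomial

/-- A homomorphism on the polynomials which vanishes at the relations of `w` gives a place. -/
private lemma F4_place {K : Subfield ℂ} {ι : Type} (w : ι → ℂ) (τ : MvPolynomial ι K →+* ℂ)
    (h : ∀ g : MvPolynomial ι K, aeval w g = 0 → τ g = 0) :
    ∃ V : Place ℂ, ∀ g : MvPolynomial ι K, ∃ hg : aeval w g ∈ V.B, V.ψ ⟨aeval w g, hg⟩ = τ g := by
  let ρ : MvPolynomial ι K →+* ℂ := (aeval w : MvPolynomial ι K →ₐ[K] ℂ).toRingHom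
  have hker : RingHom.ker ρ.rangeRestrict ≤ RingHom.ker τ := by
    intro g hg
    rw [RingHom.mem_ker] at hg ⊢
    exact h g (congrArg Subtype.val hg)
  let θ : ρ.range →+* ℂ := RingHom.liftOfSurjective ρ.rangeRestrict ρ.rangeRestrict_surjective
    ⟨τ, hker⟩
  have hθ : ∀ g, θ (ρ.rangeRestrict g) = τ g := fun g =>
    RingHom.liftOfRightInverse_comp_apply _ _ _ _ _
  obtain ⟨V, hle, hV⟩ := exists_place ρ.range θ
  refine ⟨V, fun g => ⟨hle ⟨g, rfl⟩, ?_⟩⟩
  rw [← hθ g, ← hV]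
  rfl

/-- Values at the renamed polynomials. -/
private lemma F4_rename {K : Subfield ℂ} {s : ℕ} (φ : K →+* ℂ) (y : Fin (s + 1) → ℂ)
    (g : MvPolynomial (Fin s ⊕ Fin s) K) :
    eval₂ φ (Sum.elim y fun i => Complex.exp (y i))
      (rename (Sum.map Fin.castSucc Fin.castSucc) g) =
    eval₂ φ (Sum.elim (fun i => y i.castSucc) fun i => Complex.exp (y i.castSucc)) g := by
  rw [eval₂_rename]
  congr 1
  funext i
  rcases i with i | i <;> rfl

/-- Values at the polynomials in which some variables are replaced by constants. -/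
private lemma F4_subst {K : Subfield ℂ} (E : IntermediateField K ℂ) {m : ℕ} (b : Fin m → E)
    (z : Fin m → ℂ) (f : MvPolynomial (Fin m ⊕ Fin m) K) :
    aeval z (eval₂ ((C : E →+* MvPolynomial (Fin m) E).comp (algebraMap K E))
      (Sum.elim X fun i => C (b i)) f) =
    eval₂ (algebraMap K ℂ) (Sum.elim z fun i => (b i : ℂ)) f := by
  have h1 := MvPolynomial.hom_eval₂ f ((C : E →+* MvPolynomial (Fin m) E).comp (algebraMap K E))
    (aeval z : MvPolynomial (Fin m) E →ₐ[E] ℂ).toRingHom (Sum.elim X fun i => C (b i))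
  refine h1.trans ?_
  have h2 : ((aeval z : MvPolynomial (Fin m) E →ₐ[E] ℂ).toRingHom).comp
      ((C : E →+* MvPolynomial (Fin m) E).comp (algebraMap K E)) = algebraMap K ℂ := by
    ext c
    show aeval z (C (algebraMap K E c)) = _
    rw [aeval_C]
    rfl
  rw [h2]
  congr 1
  funext i
  rcases i with i | i
  · show aeval z (X i) = z i
    rw [aeval_X]
  · show aeval z (C (b i)) = (b i : ℂ)
    rw [aeval_C]
    rfl

/-- **Transfer of solutions if at most two exponentials occur.**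

Proof. Let `I` be the set of `h`, enumerated by an injective `e : Fin s → Fin m`, `s ≤ 2`, `range e = I`. Let
`T = {x i | i ∈ I} ∪ {exp (x i) | i ∈ I}`, `E = IntermediateField.adjoin K T`.
(1) `exists_alg_point` for `E` and the polynomials `X i - C (x i)` (`i ∈ I`) and, for `f ∈ S`, the polynomial obtained
from `f` by `X (inl i) ↦ X i`, `X (inr i) ↦ C (exp (x i))` for `i ∈ I`, `X (inr i) ↦ 0` for `i ∉ I` (these variables do not
occur in `f`): there is `z : Fin m → ℂ`, all `z i` algebraic over `E`, `z i = x i` for `i ∈ I`, and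
`f (z, exp x) = 0` for `f ∈ S` (`eval₂` at `Sum.elim z (exp ∘ x)`; the variables `inr i`, `i ∉ I`, do not occur).
(2) `exists_denominator`: `δ ∈ Algebra.adjoin K T`, `δ ≠ 0`. Write `δ = aeval (Sum.elim (x ∘ e) (exp ∘ x ∘ e)) Δ` with
`Δ : MvPolynomial (Fin s ⊕ Fin s) K`.
(3) Let `emb = Sum.map Fin.castSucc Fin.castSucc : Fin s ⊕ Fin s → Fin (s + 1) ⊕ Fin (s + 1)` and let `S₁` be the set of all
`rename emb g` with `aeval (Sum.elim (x ∘ e) (exp ∘ x ∘ e)) g = 0` and of `X (inl (last s)) * rename emb Δ - 1`. It has the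
solution `Fin.snoc (x ∘ e) δ⁻¹`. By `transferK` (`s + 1 ≤ 3`) there is a solution `y₁` of the conjugate system; let
`y' = y₁ ∘ castSucc : Fin s → ℂ`.
(4) Let `A` be the subring `Algebra.adjoin K T` of `ℂ`, the range of `aeval (Sum.elim (x ∘ e) (exp ∘ x ∘ e))`. By the choice
of `S₁` the homomorphism `eval₂Hom (σ ∘ K.subtype) (Sum.elim y' (exp ∘ y'))` factors through `A`: `θ : A →+* ℂ`
(`RingHom.liftOfSurjective` or `Ideal.Quotient.lift` and the like), and `θ δ ≠ 0`. Take the place `V` of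
`exists_place A θ` (`Ω = ℂ`). `δ⁻¹ ∈ V.B` by `V.loc`, so every `z i` is in `V.B` (`exists_denominator`, `V.int`).
(5) `y i = V.ψ (z i)`. For `i ∈ I`, `i = e j`: `z i = x i`, so `y i = y' j` and `V.ψ (exp (x i)) = exp (y i)`. For `f ∈ S` apply
`V.ψ` to `f (z, exp x) = 0` (`MvPolynomial.hom_eval₂` for a lift to `V.B`; replace the values at the variables
`inr i`, `i ∉ I`, which do not occur in `f`, cf. `MvPolynomial.eval₂_congr` or `eval₂Hom_congr'`). -/
theorem transfer4 {K : Subfield ℂ} {σ : ℂ ≃+* ℂ} (hP : EPair K σ)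
    (hexp : ∀ z ∈ K, Complex.exp z ∈ K) {m : ℕ} (S : Set (MvPolynomial (Fin m ⊕ Fin m) K))
    (h : {i : Fin m | ∃ f ∈ S, Sum.inr i ∈ f.vars}.encard ≤ 2)
    (x : Fin m → ℂ) (hx : ∀ f ∈ S, aeval (Sum.elim x fun i => Complex.exp (x i)) f = 0) :
    ∃ y : Fin m → ℂ, ∀ f ∈ S, eval₂ ((σ : ℂ →+* ℂ).comp K.subtype)
      (Sum.elim y fun i => Complex.exp (y i)) f = 0 := by
  classical
  obtain ⟨s, e, hs, hrange⟩ : ∃ (s : ℕ) (e : Fin s → Fin m), s ≤ 2 ∧
      Set.range e = {i : Fin m | ∃ f ∈ S, Sum.inr i ∈ f.vars} := by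
    have hfin : {i : Fin m | ∃ f ∈ S, Sum.inr i ∈ f.vars}.Finite := Set.toFinite _
    refine ⟨hfin.toFinset.card, fun j => (hfin.toFinset.equivFin.symm j : Fin m), ?_, ?_⟩
    · rw [hfin.encard_eq_coe_toFinset_card] at h
      exact_mod_cast h
    · ext i
      constructor
      · rintro ⟨j, rfl⟩
        exact hfin.mem_toFinset.1 (hfin.toFinset.equivFin.symm j).2
      · intro hi
        refine ⟨hfin.toFinset.equivFin ⟨i, hfin.mem_toFinset.2 hi⟩, ?_⟩
        exact congrArg Subtype.val (hfin.toFinset.equivFin.symm_apply_apply _)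
  have hI : ∀ f ∈ S, ∀ i : Fin m, Sum.inr i ∈ f.vars → ∃ j, e j = i := by
    intro f hf i hi
    have h1 : i ∈ {i : Fin m | ∃ f ∈ S, Sum.inr i ∈ f.vars} := ⟨f, hf, hi⟩
    rw [← hrange] at h1
    exact h1
  let φ : K →+* ℂ := (σ : ℂ →+* ℂ).comp K.subtype
  let w : Fin s ⊕ Fin s → ℂ := Sum.elim (fun j => x (e j)) fun j => Complex.exp (x (e j))
  let T : Set ℂ := Set.range w
  let b : Fin m → ℂ := fun i => if i ∈ Set.range e then Complex.exp (x i) else 0
  have hbe : ∀ j, b (e j) = Complex.exp (x (e j)) := fun j => if_pos ⟨j, rfl⟩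
  have hbn : ∀ i, i ∉ Set.range e → b i = 0 := fun i hi => if_neg hi
  have hTE : ∀ t ∈ T, t ∈ IntermediateField.adjoin K T := fun t ht =>
    IntermediateField.subset_adjoin K T ht
  have hbE : ∀ i, b i ∈ IntermediateField.adjoin K T := by
    intro i
    by_cases hi : i ∈ Set.range e
    · obtain ⟨j, rfl⟩ := hi
      rw [hbe]
      exact hTE _ ⟨Sum.inr j, rfl⟩
    · rw [hbn i hi]
      exact zero_mem _
  have hxE : ∀ j, x (e j) ∈ IntermediateField.adjoin K T := fun j => hTE _ ⟨Sum.inl j, rfl⟩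
  -- replacing the values at the variables which do not occur
  have hrepl : ∀ (z : Fin m → ℂ), ∀ f ∈ S, eval₂ (algebraMap K ℂ) (Sum.elim z b) f =
      eval₂ (algebraMap K ℂ) (Sum.elim z fun i => Complex.exp (x i)) f := by
    intro z f hf
    refine eval₂Hom_congr' (f₁ := algebraMap K ℂ) (f₂ := algebraMap K ℂ) rfl ?_ rfl
    intro i hi _
    rcases i with i | i
    · rfl
    · obtain ⟨j, rfl⟩ := hI f hf i hi
      exact hbe j
  obtain ⟨z, hz, hzS⟩ := exists_alg_point (E := IntermediateField.adjoin K T) (ι := Fin m)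
    {p | (∃ j, p = X (e j) - C ⟨x (e j), hxE j⟩) ∨ ∃ f ∈ S, p =
      eval₂ ((C : IntermediateField.adjoin K T →+*
        MvPolynomial (Fin m) (IntermediateField.adjoin K T)).comp
        (algebraMap K (IntermediateField.adjoin K T)))
      (Sum.elim X fun i => C ⟨b i, hbE i⟩) f} x (by
    rintro p (⟨j, rfl⟩ | ⟨f, hf, rfl⟩)
    · rw [map_sub, aeval_X, aeval_C]
      exact sub_self _
    · rw [F4_subst, hrepl x f hf]
      exact hx f hf)
  have hz1 : ∀ j, z (e j) = x (e j) := by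
    intro j
    have h1 := hzS _ (Or.inl ⟨j, rfl⟩)
    rw [map_sub, aeval_X, aeval_C] at h1
    exact sub_eq_zero.1 h1
  have hz2 : ∀ f ∈ S, eval₂ (algebraMap K ℂ) (Sum.elim z b) f = 0 := by
    intro f hf
    have h1 := hzS _ (Or.inr ⟨f, hf, rfl⟩)
    rw [F4_subst] at h1
    exact h1
  obtain ⟨δ, hδ, hδ0, hden⟩ := exists_denominator K T z hz
  obtain ⟨Δ, hΔ⟩ : ∃ Δ : MvPolynomial (Fin s ⊕ Fin s) K, aeval w Δ = δ := by
    rw [Algebra.adjoin_range_eq_range_aeval] at hδ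
    exact hδ
  -- the system of the places
  obtain ⟨y₁, hy₁⟩ := transferK hP hexp (m := s + 1)
    {p | (∃ g, aeval w g = 0 ∧ p = rename (Sum.map Fin.castSucc Fin.castSucc) g) ∨
      p = X (Sum.inl (Fin.last s)) * rename (Sum.map Fin.castSucc Fin.castSucc) Δ - 1}
    (Or.inl (by omega)) (Fin.snoc (fun j => x (e j)) δ⁻¹) (by
    have hw : ∀ g, aeval (Sum.elim (Fin.snoc (fun j => x (e j)) δ⁻¹ : Fin (s + 1) → ℂ)
        fun i => Complex.exp ((Fin.snoc (fun j => x (e j)) δ⁻¹ : Fin (s + 1) → ℂ) i))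
        (rename (Sum.map Fin.castSucc Fin.castSucc) g : MvPolynomial (Fin (s + 1) ⊕ Fin (s + 1)) K)
        = aeval w g := by
      intro g
      rw [aeval_def, F4_rename, aeval_def]
      congr 1
      funext i
      rcases i with i | i
      · show (Fin.snoc (fun j => x (e j)) δ⁻¹ : Fin (s + 1) → ℂ) i.castSucc = x (e i)
        rw [Fin.snoc_castSucc]
      · show Complex.exp ((Fin.snoc (fun j => x (e j)) δ⁻¹ : Fin (s + 1) → ℂ) i.castSucc) =
          Complex.exp (x (e i))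
        rw [Fin.snoc_castSucc]
    rintro p (⟨g, hg, rfl⟩ | rfl)
    · rw [hw, hg]
    · rw [map_sub, map_mul, hw, hΔ, aeval_X, map_one, Sum.elim_inl, Fin.snoc_last,
        inv_mul_cancel₀ hδ0, sub_self])
  let τ : MvPolynomial (Fin s ⊕ Fin s) K →+* ℂ := eval₂Hom φ
    (Sum.elim (fun i => y₁ i.castSucc) fun i => Complex.exp (y₁ i.castSucc))
  have hτ : ∀ g, eval₂ φ (Sum.elim y₁ fun i => Complex.exp (y₁ i))
      (rename (Sum.map Fin.castSucc Fin.castSucc) g) = τ g := fun g => F4_rename φ y₁ g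
  have hτX : ∀ j, τ (X (Sum.inl j)) = y₁ j.castSucc := fun j => by
    show eval₂ _ _ _ = _
    rw [eval₂_X]
    rfl
  have hτE : ∀ j, τ (X (Sum.inr j)) = Complex.exp (y₁ j.castSucc) := fun j => by
    show eval₂ _ _ _ = _
    rw [eval₂_X]
    rfl
  have hτC : ∀ c, τ (C c) = φ c := fun c => by
    show eval₂ _ _ _ = _
    rw [eval₂_C]
  obtain ⟨V, hV⟩ := F4_place w τ (by
    intro g hg
    rw [← hτ g]
    exact hy₁ _ (Or.inl ⟨g, hg, rfl⟩))
  have hτΔ : τ Δ ≠ 0 := by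
    intro h0
    have h1 := hy₁ _ (Or.inr rfl)
    rw [eval₂_sub, eval₂_mul, hτ, h0, mul_zero, zero_sub, eval₂_one] at h1
    exact one_ne_zero (neg_eq_zero.1 h1)
  have hKB : ∀ c : K, ∃ hc : (c : ℂ) ∈ V.B, V.ψ ⟨c, hc⟩ = φ c := by
    intro c
    obtain ⟨h1, h2⟩ := hV (C c)
    rw [hτC] at h2
    have h3 : aeval w (C c : MvPolynomial (Fin s ⊕ Fin s) K) = (c : ℂ) := by
      rw [aeval_C]
      rfl
    simp only [h3] at h1 h2
    exact ⟨h1, h2⟩
  have hXB : ∀ i, ∃ hc : w i ∈ V.B, V.ψ ⟨w i, hc⟩ = τ (X i) := by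
    intro i
    obtain ⟨h1, h2⟩ := hV (X i)
    simp only [aeval_X] at h1 h2
    exact ⟨h1, h2⟩
  have hTB : T ⊆ V.B := by
    rintro _ ⟨i, rfl⟩
    exact (hXB i).1
  have hδB : δ⁻¹ ∈ V.B := by
    obtain ⟨h1, h2⟩ := hV Δ
    have h3 := V.loc ⟨aeval w Δ, h1⟩ (by rw [h2]; exact hτΔ)
    simp only [hΔ] at h3
    exact h3
  have hzB : ∀ i, z i ∈ V.B := fun i =>
    V.int _ (hden V.B (fun c hc => (hKB ⟨c, hc⟩).1) hTB hδB i)
  have hbB : ∀ i, b i ∈ V.B := by
    intro i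
    by_cases hi : i ∈ Set.range e
    · obtain ⟨j, rfl⟩ := hi
      rw [hbe]
      exact hTB ⟨Sum.inr j, rfl⟩
    · rw [hbn i hi]
      exact V.B.zero_mem
  refine ⟨fun i => V.ψ ⟨z i, hzB i⟩, fun f hf => ?_⟩
  let ιB : K →+* V.B := K.subtype.codRestrict V.B fun c => (hKB c).1
  have hιB : V.ψ.comp ιB = φ := by
    ext c
    exact (hKB c).2
  let wB : Fin m ⊕ Fin m → V.B := Sum.elim (fun i => ⟨z i, hzB i⟩) fun i => ⟨b i, hbB i⟩
  have h0 : eval₂ ιB wB f = 0 := by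
    apply V.B.subtype_injective
    rw [map_zero, MvPolynomial.hom_eval₂, ← hz2 f hf]
    have h2 : V.B.subtype.comp ιB = algebraMap K ℂ := by ext c; rfl
    rw [h2]
    congr 1
    funext i
    rcases i with i | i <;> rfl
  have h1 := congrArg V.ψ h0
  rw [map_zero, MvPolynomial.hom_eval₂, hιB] at h1
  rw [← h1]
  refine eval₂Hom_congr' (f₁ := φ) (f₂ := φ) rfl ?_ rfl
  intro i hi _
  rcases i with i | i
  · rfl
  · obtain ⟨j, rfl⟩ := hI f hf i hi
    show Complex.exp (V.ψ ⟨z (e j), hzB (e j)⟩) = V.ψ ⟨b (e j), hbB (e j)⟩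
    obtain ⟨h3, h4⟩ := hXB (Sum.inl j)
    obtain ⟨h5, h6⟩ := hXB (Sum.inr j)
    have h7 : (⟨z (e j), hzB (e j)⟩ : V.B) = ⟨w (Sum.inl j), h3⟩ := Subtype.ext (hz1 j)
    have h8 : (⟨b (e j), hbB (e j)⟩ : V.B) = ⟨w (Sum.inr j), h5⟩ := Subtype.ext (hbe j)
    rw [h7, h8, h4, h6, hτX, hτE]

end Pool.Agent.Lib.MP_209724_lc.QM
end
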