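import Mathlib
import Pool.Agent.Lib.MP_209724_lc.QM.Base
import Pool.Agent.Lib.MP_209724_lc.QM.Four

namespace Pool.Agent.Lib.MP_209724_lc.QM

open MvPolynomial

/-- Functions built from the identity and constants from `T` by `+`, `*` and `exp`. -/
inductive IsTerm (T : Set ℂ) : (ℂ → ℂ) → Prop
  | const (c : ℂ) (hc : c ∈ T) : IsTerm T fun _ => c
  | var : IsTerm T fun a => a
  | add {s t : ℂ → ℂ} (hs : IsTerm T s) (ht : IsTerm T t) : IsTerm T fun a => s a + t a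
  | mul {s t : ℂ → ℂ} (hs : IsTerm T s) (ht : IsTerm T t) : IsTerm T fun a => s a * t a
  | exp {t : ℂ → ℂ} (ht : IsTerm T t) : IsTerm T fun a => Complex.exp (t a)

/-- The values of terms. -/
theorem IsTerm.mem {C K : Subfield ℂ} {σ : ℂ ≃+* ℂ} (hP : EPair K σ) (hCK : C ≤ K)
    (hσ : ∀ c ∈ C, σ c = c) {a b : ℂ} (ha : a ∈ K) (hab : σ a = b)
    (hexp : ∀ z ∈ K, Complex.exp z ∈ K) {t : ℂ → ℂ} (ht : IsTerm C t) :
    t a ∈ K ∧ σ (t a) = t b := by
  induction ht with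
  | const c hc => exact ⟨hCK hc, hσ c hc⟩
  | var => exact ⟨ha, hab⟩
  | add _ _ ih1 ih2 => exact ⟨K.add_mem ih1.1 ih2.1, by rw [map_add, ih1.2, ih2.2]⟩
  | mul _ _ ih1 ih2 => exact ⟨K.mul_mem ih1.1 ih2.1, by rw [map_mul, ih1.2, ih2.2]⟩
  | exp _ ih => exact ⟨hexp _ ih.1, by rw [hP.exact _ ⟨ih.1, hexp _ ih.1⟩, ih.2]⟩

/-- The equation `f` with parameter `a` at the point `x` of the graph of `exp`. -/
def Vanishes {m : ℕ} (f : MvPolynomial (Fin m ⊕ Fin m) (ℂ → ℂ)) (a : ℂ) (x : Fin m → ℂ) : Prop :=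
  eval (Sum.elim x fun i => Complex.exp (x i)) (map (Pi.evalRingHom (fun _ => ℂ) a) f) = 0

/-- **Transfer of solutions** from one transcendental parameter to another one. -/
theorem transfer {C : Subfield ℂ} (hC : IsBase C) {m : ℕ}
    (S : Set (MvPolynomial (Fin m ⊕ Fin m) (ℂ → ℂ)))
    (hT : ∀ f ∈ S, ∀ d, IsTerm C (f.coeff d))
    (h : m ≤ 3 ∨ S.encard ≤ 3 ∨
      (∃ f₀, ∀ f ∈ S, f = f₀ ∨ ∀ i : Fin m, Sum.inr i ∉ f.vars) ∨
      {i : Fin m | ∃ f ∈ S, Sum.inr i ∈ f.vars}.encard ≤ 2)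
    {a b : ℂ} (ha : a ∉ C) (hb : b ∉ C) (x : Fin m → ℂ) (hx : ∀ f ∈ S, Vanishes f a x) :
    ∃ y : Fin m → ℂ, ∀ f ∈ S, Vanishes f b y := by
  classical
  obtain ⟨K, σ, hP, hCK, haK, hσC, hσa, hexp⟩ := exists_estart hC ha hb
  -- the polynomials over `K`
  have hlift : ∀ f ∈ S, ∃ f' : MvPolynomial (Fin m ⊕ Fin m) K,
      map K.subtype f' = map (Pi.evalRingHom (fun _ => ℂ) a) f := by
    intro f hf
    have h1 : map (Pi.evalRingHom (fun _ => ℂ) a) f ∈ Set.range (MvPolynomial.map K.subtype :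
        MvPolynomial (Fin m ⊕ Fin m) K → _) := by
      rw [MvPolynomial.mem_range_map_iff_coeffs_subset]
      intro z hz
      obtain ⟨d, -, rfl⟩ := mem_coeffs_iff.1 hz
      rw [coeff_map]
      exact ⟨⟨_, ((hT f hf d).mem hP hCK hσC haK hσa hexp).1⟩, rfl⟩
    exact h1
  choose! l hl using hlift
  have hl' : ∀ f ∈ S, map ((σ : ℂ →+* ℂ).comp K.subtype) (l f) =
      map (Pi.evalRingHom (fun _ => ℂ) b) f := by
    intro f hf
    ext d
    rw [coeff_map, coeff_map]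
    have h1 := congrArg (coeff d) (hl f hf)
    rw [coeff_map, coeff_map] at h1
    show σ (K.subtype (coeff d (l f))) = _
    rw [h1]
    exact ((hT f hf d).mem hP hCK hσC haK hσa hexp).2
  have hvars : ∀ f ∈ S, (l f).vars ⊆ f.vars := by
    intro f hf
    rw [← vars_map_of_injective (l f) K.subtype_injective, hl f hf]
    exact vars_map _ _
  have hx' : ∀ f ∈ l '' S, aeval (Sum.elim x fun i => Complex.exp (x i)) f = 0 := by
    rintro _ ⟨f, hf, rfl⟩
    have h2 := hx f hf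
    rw [Vanishes, ← hl f hf, eval_map] at h2
    exact h2
  obtain ⟨y, hy⟩ : ∃ y : Fin m → ℂ, ∀ f ∈ l '' S, eval₂ ((σ : ℂ →+* ℂ).comp K.subtype)
      (Sum.elim y fun i => Complex.exp (y i)) f = 0 := by
    rcases h with h | h | ⟨f₀, h⟩ | h
    · exact transferK hP hexp _ (Or.inl h) x hx'
    · exact transferK hP hexp _ (Or.inr (Or.inl ((Set.encard_image_le _ _).trans h))) x hx'
    · refine transferK hP hexp _ (Or.inr (Or.inr ⟨l f₀, ?_⟩)) x hx'
      rintro _ ⟨f, hf, rfl⟩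
      rcases h f hf with h | h
      · exact Or.inl (by rw [h])
      · exact Or.inr fun i hi => h i (hvars f hf hi)
    · refine transfer4 hP hexp _ (le_trans (Set.encard_le_encard ?_) h) x hx'
      rintro i ⟨_, ⟨f, hf, rfl⟩, hi⟩
      exact ⟨f, hf, hvars f hf hi⟩
  refine ⟨y, fun f hf => ?_⟩
  rw [Vanishes, ← hl' f hf, eval_map]
  exact hy _ ⟨f, hf, rfl⟩

theorem IsTerm.mono {T T' : Set ℂ} (h : T ⊆ T') {t : ℂ → ℂ} (ht : IsTerm T t) : IsTerm T' t := by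
  induction ht with
  | const c hc => exact .const c (h hc)
  | var => exact .var
  | add _ _ ih1 ih2 => exact .add ih1 ih2
  | mul _ _ ih1 ih2 => exact .mul ih1 ih2
  | exp _ ih => exact .exp ih

/-- A term contains only finitely many constants. -/
theorem IsTerm.exists_countable {T : Set ℂ} {t : ℂ → ℂ} (ht : IsTerm T t) :
    ∃ T' : Set ℂ, T'.Countable ∧ IsTerm T' t := by
  induction ht with
  | const c hc => exact ⟨{c}, Set.countable_singleton c, .const c (Set.mem_singleton c)⟩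
  | var => exact ⟨∅, Set.countable_empty, .var⟩
  | add _ _ ih1 ih2 =>
    obtain ⟨T1, h1, h1'⟩ := ih1
    obtain ⟨T2, h2, h2'⟩ := ih2
    exact ⟨T1 ∪ T2, h1.union h2,
      .add (h1'.mono Set.subset_union_left) (h2'.mono Set.subset_union_right)⟩
  | mul _ _ ih1 ih2 =>
    obtain ⟨T1, h1, h1'⟩ := ih1
    obtain ⟨T2, h2, h2'⟩ := ih2
    exact ⟨T1 ∪ T2, h1.union h2,
      .mul (h1'.mono Set.subset_union_left) (h2'.mono Set.subset_union_right)⟩
  | exp _ ih =>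
    obtain ⟨T1, h1, h1'⟩ := ih
    exact ⟨T1, h1, .exp h1'⟩

/-- **Quasiminimality** for systems with few quantified variables, few equations, or at most one equation with
exponentials of the quantified variables; the coefficients are iterated exponential polynomials in the
parameter. -/
theorem finalE {m : ℕ} (S : Set (MvPolynomial (Fin m ⊕ Fin m) (ℂ → ℂ))) (hS : S.Countable)
    (hT : ∀ f ∈ S, ∀ d, IsTerm Set.univ (f.coeff d))
    (h : m ≤ 3 ∨ S.encard ≤ 3 ∨ {f ∈ S | ∃ i : Fin m, Sum.inr i ∈ f.vars}.encard ≤ 1 ∨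
      {i : Fin m | ∃ f ∈ S, Sum.inr i ∈ f.vars}.encard ≤ 2) :
    {a | ∃ x : Fin m → ℂ, ∀ f ∈ S, Vanishes f a x}.Countable ∨
      {a | ∃ x : Fin m → ℂ, ∀ f ∈ S, Vanishes f a x}ᶜ.Countable := by
  classical
  have h1 : ∀ f ∈ S, ∀ d, ∃ T' : Set ℂ, T'.Countable ∧ IsTerm T' (f.coeff d) :=
    fun f hf d => (hT f hf d).exists_countable
  choose! U hU hU' using h1
  obtain ⟨C, hTC, hC1, hC2, hC3, hC4⟩ := exists_base (⋃ f ∈ S, ⋃ d, U f d)
    (hS.biUnion fun f hf => Set.countable_iUnion fun d => hU f hf d)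
  have hC : IsBase C := ⟨hC1, hC2, hC3, hC4⟩
  have hT' : ∀ f ∈ S, ∀ d, IsTerm C (f.coeff d) := by
    intro f hf d
    refine (hU' f hf d).mono ?_
    exact (Set.subset_iUnion (fun d => U f d) d).trans
      ((Set.subset_biUnion_of_mem (u := fun f => ⋃ d, U f d) hf).trans hTC)
  have h' : m ≤ 3 ∨ S.encard ≤ 3 ∨
      (∃ f₀, ∀ f ∈ S, f = f₀ ∨ ∀ i : Fin m, Sum.inr i ∉ f.vars) ∨
      {i : Fin m | ∃ f ∈ S, Sum.inr i ∈ f.vars}.encard ≤ 2 := by
    rcases h with h | h | h | h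
    · exact Or.inl h
    · exact Or.inr (Or.inl h)
    rotate_left
    · exact Or.inr (Or.inr (Or.inr h))
    · refine Or.inr (Or.inr (Or.inl ?_))
      by_cases h0 : ∃ f₀ ∈ S, ∃ i : Fin m, Sum.inr i ∈ f₀.vars
      · obtain ⟨f₀, hf₀, hi₀⟩ := h0
        refine ⟨f₀, fun f hf => ?_⟩
        by_cases h1 : ∃ i : Fin m, Sum.inr i ∈ f.vars
        · exact Or.inl (Set.encard_le_one_iff.1 h _ _ ⟨hf, h1⟩ ⟨hf₀, hi₀⟩)
        · exact Or.inr fun i hi => h1 ⟨i, hi⟩
      · exact ⟨0, fun f hf => Or.inr fun i hi => h0 ⟨f, hf, i, hi⟩⟩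
  by_cases h5 : ∃ a, a ∉ C ∧ ∃ x : Fin m → ℂ, ∀ f ∈ S, Vanishes f a x
  · obtain ⟨a, ha, x, hx⟩ := h5
    right
    refine hC1.mono fun b hb => ?_
    by_contra hbC
    exact hb (transfer hC S hT' h' ha hbC x hx)
  · left
    refine hC1.mono fun b hb => ?_
    by_contra hbC
    exact h5 ⟨b, hbC, hb⟩

end Pool.Agent.Lib.MP_209724_lc.QM
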